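import Pool.Agent.N47.CG.LMain4

/-!
# Coset paths in groups with an abelian normal subgroup of index three
-/

set_option autoImplicit false

namespace Pool.Agent.N47.CG

variable {G : Type*} [Group G]

/-- an abelian group `L` embedded in `G`, with the action `T` of `z` -/
structure DS {L : Type*} [AddCommGroup L] (ι : L → G) (T : L →+ L) (z : G) (ζ : L) : Prop where
  add : ∀ x y, ι (x + y) = ι x * ι y
  inj : Function.Injective ι
  conj : ∀ x, z * ι x = ι (T x) * z
  z3 : z * (z * z) = ι ζ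
  lay : ∀ (k : ℤ) (x : L), z ^ k = ι x → (3 : ℤ) ∣ k

namespace DS

variable {L : Type*} [AddCommGroup L] {ι : L → G} {T : L →+ L} {z : G} {ζ : L}

theorem zero (h : DS ι T z ζ) : ι 0 = 1 := by
  have := h.add 0 0
  rw [add_zero] at this
  exact (mul_eq_left.1 this.symm)

theorem neg (h : DS ι T z ζ) (x : L) : ι (-x) = (ι x)⁻¹ := by
  rw [eq_inv_iff_mul_eq_one, ← h.add, neg_add_cancel, h.zero]

theorem nsmul (h : DS ι T z ζ) (n : ℕ) (x : L) : ι (n • x) = ι x ^ n := by
  induction n with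
  | zero => rw [zero_smul, pow_zero, h.zero]
  | succ n ih => rw [succ_nsmul, h.add, ih, pow_succ]

theorem zsmul (h : DS ι T z ζ) (n : ℤ) (x : L) : ι (n • x) = ι x ^ n := by
  cases n with
  | ofNat n => rw [Int.ofNat_eq_natCast, natCast_zsmul, h.nsmul, zpow_natCast]
  | negSucc n =>
    rw [negSucc_zsmul, h.neg, h.nsmul, zpow_negSucc]

theorem T3 (h : DS ι T z ζ) (x : L) : T (T (T x)) = x := by
  have e1 : z * (z * (z * ι x)) = ι (T (T (T x))) * (z * (z * z)) := by
    rw [h.conj, ← mul_assoc z (ι (T x)) z, h.conj]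
    rw [← mul_assoc z (ι (T (T x)) * z) z, ← mul_assoc z (ι (T (T x))) z, h.conj]
    group
  have e2 : z * (z * (z * ι x)) = (z * (z * z)) * ι x := by group
  rw [e2, h.z3, ← h.add, ← h.add] at e1
  have := h.inj e1
  rw [add_comm] at this
  exact (add_right_cancel this).symm

theorem Tz (h : DS ι T z ζ) : T ζ = ζ := by
  have e1 := h.conj ζ
  rw [← h.z3] at e1
  have e2 : z * (z * (z * z)) = (z * (z * z)) * z := by group
  rw [e2] at e1
  have e3 := mul_right_cancel e1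
  rw [h.z3] at e3
  exact (h.inj e3).symm

theorem zinv (h : DS ι T z ζ) (x : L) : z⁻¹ * ι x = ι (T (T x)) * z⁻¹ := by
  have := h.conj (T (T x))
  rw [h.T3] at this
  rw [inv_mul_eq_iff_eq_mul, ← mul_assoc, this, mul_inv_cancel_right]

theorem zconj (h : DS ι T z ζ) (x : L) : z * ι x * z⁻¹ = ι (T x) := by
  rw [h.conj, mul_inv_cancel_right]

theorem zconj' (h : DS ι T z ζ) (x : L) : z⁻¹ * ι x * z = ι (T (T x)) := by
  rw [h.zinv, inv_mul_cancel_right]

/-- the subgroup generated by `v` -/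
theorem memH (h : DS ι T z ζ) (v x : L) :
    ι x ∈ Subgroup.zpowers (ι v) ↔ ∃ n : ℤ, x = n • v := by
  rw [Subgroup.mem_zpowers_iff]
  constructor
  · rintro ⟨n, hn⟩
    exact ⟨n, h.inj (by rw [h.zsmul, hn])⟩
  · rintro ⟨n, rfl⟩
    exact ⟨n, (h.zsmul n v).symm⟩

theorem layH (h : DS ι T z ζ) {v x : L} {k : ℤ} (hk : ι x * z ^ k ∈ Subgroup.zpowers (ι v)) :
    (3 : ℤ) ∣ k := by
  obtain ⟨n, hn⟩ := Subgroup.mem_zpowers_iff.1 hk
  apply h.lay k (-x + n • v)
  rw [h.add, h.neg, h.zsmul, hn, inv_mul_cancel_left]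

theorem pow3 (h : DS ι T z ζ) : z ^ (3 : ℤ) = ι ζ := by
  rw [← h.z3, show (3 : ℤ) = ((3 : ℕ) : ℤ) by norm_num, zpow_natCast, pow_succ, pow_two, mul_assoc]

end DS

end Pool.Agent.N47.CG
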