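import Pool.Agent.N47.CG.DualIter

/-!
# The cosets visited by the path
-/

set_option autoImplicit false

namespace Pool.Agent.N47.CG

variable {G : Type*} [Group G]

namespace DS

variable {L : Type*} [AddCommGroup L] {ι : L → G} {T : L →+ L} {z : G} {ζ : L}

/-- the combinations of `T v`, `v` and `c` -/
def Mo (T : L →+ L) (v c : L) : AddSubgroup L where
  carrier := {x | ∃ l i j : ℤ, x = l • T v + i • v + j • c}
  zero_mem' := ⟨0, 0, 0, by simp⟩
  add_mem' := by
    rintro _ _ ⟨l, i, j, rfl⟩ ⟨l', i', j', rfl⟩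
    exact ⟨l + l', i + i', j + j', by module⟩
  neg_mem' := by
    rintro _ ⟨l, i, j, rfl⟩
    exact ⟨-l, -i, -j, by module⟩

variable {v c : L} {m r n : ℕ}

theorem Mo_T (h : DS ι T z ζ) (hn : Num T ζ v c m r n) : ∀ x ∈ Mo T v c, T x ∈ Mo T v c := by
  rintro _ ⟨l, i, j, rfl⟩
  obtain ⟨i0, j0, hζ⟩ := hn.hζ
  refine ⟨i - l, l * i0 - l, l * j0 - l + j, ?_⟩
  have h2 : T (T v) = ζ - c - v - T v := by rw [hn.hc]; abel
  rw [map_add, map_add, map_zsmul, map_zsmul, map_zsmul, h.Tc hn, h2]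
  linear_combination (norm := module) l • hζ

theorem coset_path (h : DS ι T z ζ) (hn : Num T ζ v c m r n) :
    Ham (DSt (ι v) z) (Subgroup.zpowers (ι v))
      {g | ∃ i ≤ 3 * r - 1, (W ι z T v n ^ i)⁻¹ * g ∈ R0 ι z v (T v - v) n} 1
      (W ι z T v n ^ (3 * r - 1) * ι (n • (T v - v))) := by
  have hmv := hn.hm
  have h1 : ∀ k : ℕ, 0 < k → k ≤ n → ∀ q : ℤ, k • (T v - v) ≠ q • v := by
    intro k hk hk' q hq
    have h5 := lab hn (α := k) (β := 0) (γ := 0) (s := 0) (q := q) (by rw [← hq]; module)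
    have := Int.le_of_dvd (by omega) h5
    omega
  have h2 : ∀ k : ℕ, 0 < k → k ≤ n → ∀ q : ℤ, k • T (T (T v - v)) ≠ q • v := by
    intro k hk hk' q hq
    have h5 := lab hn (α := 0) (β := 0) (γ := k) (s := 0) (q := q) (by
      rw [← hq, map_sub, map_sub, h.T3]; module)
    have := Int.le_of_dvd (by omega) h5
    omega
  have hp := h.phase (w := T v - v) rfl n h1 h2
  refine hp.iterate (W ι z T v n) ?_ (3 * r - 1) ?_
  · refine ⟨(ι v)⁻¹, Or.inr rfl, Or.inl ?_⟩
    unfold W
    rw [mul_one, ← mul_assoc, ← h.neg, ← h.add, ← h.neg]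
    congr 2
    abel
  · intro i j hij hj a ha b hb hab
    have hb' : (W ι z T v n ^ i)⁻¹ * b ∈ R0 ι z v (T v - v) n := by
      have := R0.right ha hab
      have e : (W ι z T v n ^ i)⁻¹ * a * (a⁻¹ * b) = (W ι z T v n ^ i)⁻¹ * b := by group
      rwa [e] at this
    refine h.disj hn (d := j - i) (by omega) (by omega) hb' ?_
    have e : (W ι z T v n ^ (j - i))⁻¹ * ((W ι z T v n ^ i)⁻¹ * b) = (W ι z T v n ^ j)⁻¹ * b := by
      rw [← mul_assoc, ← mul_inv_rev, ← pow_add]
      congr 3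
      omega
    rw [e]
    exact hb

theorem redJ (hn : Num T ζ v c m r n) (i j : ℤ) : ∃ t : ℕ, t < r ∧ ∃ q : ℤ,
    i • v + j • c = t • c + q • v := by
  obtain ⟨f, hf⟩ := hn.hr2
  have hr := hn.hr0
  have h0 := Int.emod_nonneg j (show (r : ℤ) ≠ 0 by omega)
  have h1 := Int.emod_lt_of_pos j (show (0 : ℤ) < r by omega)
  have h2 := Int.emod_add_mul_ediv j r
  refine ⟨(j % r).toNat, by omega, i + (j / r) * f, ?_⟩
  have e : ((j % (r : ℤ)).toNat : ℤ) = j % r := Int.toNat_of_nonneg h0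
  have e2 : ((j % (r : ℤ)).toNat) • c = (j % (r : ℤ)) • c := by
    rw [← natCast_zsmul, e]
  rw [e2]
  have e3 : j • c = (j % (r : ℤ)) • c + (j / r) • ((r : ℤ) • c) := by
    conv_lhs => rw [← h2]
    module
  rw [e3, hf]
  module

theorem cover [Finite G] (h : DS ι T z ζ) (hn : Num T ζ v c m r n) (g : G) :
    (∃ i ≤ 3 * r - 1, (W ι z T v n ^ i)⁻¹ * g ∈ R0 ι z v (T v - v) n) ↔
      ∃ e : ℤ, LayM ι z (Mo T v c) g e := by
  have hM := h.Mo_T hn
  have hmv := hn.hm
  have hr := hn.hr0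
  have Tcc := h.Tc hn
  have mv : v ∈ Mo T v c := ⟨0, 1, 0, by module⟩
  have mT : T v ∈ Mo T v c := ⟨1, 0, 0, by module⟩
  have mw : T v - v ∈ Mo T v c := AddSubgroup.sub_mem _ mT mv
  have lW : LayM ι z (Mo T v c) (W ι z T v n) 1 :=
    ⟨_, AddSubgroup.sub_mem _ (AddSubgroup.nsmul_mem _ mw n) mv, by rw [zpow_one]; rfl⟩
  constructor
  · rintro ⟨i, -, hg⟩
    have lWi := LayM.pow h hM lW i
    have lH : ∀ x ∈ Subgroup.zpowers (ι v), LayM ι z (Mo T v c) x 0 := by
      intro x hx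
      obtain ⟨q, rfl⟩ := Subgroup.mem_zpowers_iff.1 hx
      exact ⟨q • v, AddSubgroup.zsmul_mem _ mv q, by rw [h.zsmul]; simp⟩
    rcases hg with ⟨k, -, hg⟩ | ⟨k, -, hg⟩
    · have l1 : LayM ι z (Mo T v c) (ι (k • (T v - v))) 0 :=
        ⟨_, AddSubgroup.nsmul_mem _ mw k, by simp⟩
      have := LayM.mul h hM (LayM.mul h hM lWi l1) (lH _ hg)
      have e : W ι z T v n ^ i * ι (k • (T v - v)) *
          ((ι (k • (T v - v)))⁻¹ * ((W ι z T v n ^ i)⁻¹ * g)) = g := by group
      rw [e] at this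
      exact ⟨_, this⟩
    · have l1 : LayM ι z (Mo T v c) (ι (k • (T v - v) - v) * z) 1 :=
        ⟨_, AddSubgroup.sub_mem _ (AddSubgroup.nsmul_mem _ mw k) mv, by rw [zpow_one]⟩
      have := LayM.mul h hM (LayM.mul h hM lWi l1) (lH _ hg)
      have e : W ι z T v n ^ i * (ι (k • (T v - v) - v) * z) *
          ((ι (k • (T v - v) - v) * z)⁻¹ * ((W ι z T v n ^ i)⁻¹ * g)) = g := by group
      rw [e] at this
      exact ⟨_, this⟩
  · -- the set is invariant under the left multiplication by `W`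
    have hinv1 : ∀ g : G, (∃ i ≤ 3 * r - 1, (W ι z T v n ^ i)⁻¹ * g ∈ R0 ι z v (T v - v) n) →
        ∃ i ≤ 3 * r - 1, (W ι z T v n ^ i)⁻¹ * (W ι z T v n * g) ∈ R0 ι z v (T v - v) n := by
      rintro g ⟨i, hi, hg⟩
      rcases (show i + 1 ≤ 3 * r - 1 ∨ i + 1 = 3 * r by omega) with hi' | hi'
      · refine ⟨i + 1, hi', ?_⟩
        have e : (W ι z T v n ^ (i + 1))⁻¹ * (W ι z T v n * g) = (W ι z T v n ^ i)⁻¹ * g := by
          rw [pow_succ']; group
        rw [e]; exact hg
      · refine ⟨0, by omega, ?_⟩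
        obtain ⟨f, hf⟩ := hn.hr2
        have e : (W ι z T v n ^ 0)⁻¹ * (W ι z T v n * g) =
            ι ((r : ℤ) • c) * ((W ι z T v n ^ i)⁻¹ * g) := by
          rw [natCast_zsmul, ← h.W3t hn, ← hi', pow_succ']
          group
        rw [e]
        -- `ι (r c)` is central and in the subgroup
        have hH : ι ((r : ℤ) • c) ∈ Subgroup.zpowers (ι v) := by
          rw [h.memH]; exact ⟨f, hf⟩
        have hcx : ∀ x : L, ι ((r : ℤ) • c) * ι x = ι x * ι ((r : ℤ) • c) := fun x => by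
          rw [← h.add, ← h.add, add_comm]
        have hcz : ι ((r : ℤ) • c) * z = z * ι ((r : ℤ) • c) := by
          rw [h.conj, map_zsmul, Tcc]
        have key : ∀ X y : G, ι ((r : ℤ) • c) * X = X * ι ((r : ℤ) • c) →
            X⁻¹ * y ∈ Subgroup.zpowers (ι v) →
            X⁻¹ * (ι ((r : ℤ) • c) * y) ∈ Subgroup.zpowers (ι v) := by
          intro X y h1 h2
          have e2 : X⁻¹ * (ι ((r : ℤ) • c) * y) = ι ((r : ℤ) • c) * (X⁻¹ * y) := by
            have : X⁻¹ * ι ((r : ℤ) • c) = ι ((r : ℤ) • c) * X⁻¹ := by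
              rw [inv_mul_eq_iff_eq_mul, ← mul_assoc, ← h1, mul_inv_cancel_right]
            rw [← mul_assoc, this, mul_assoc]
          rw [e2]
          exact Subgroup.mul_mem _ hH h2
        rcases hg with ⟨k, hk, hg⟩ | ⟨k, hk, hg⟩
        · exact Or.inl ⟨k, hk, key _ _ (hcx _) hg⟩
        · refine Or.inr ⟨k, hk, key _ _ ?_ hg⟩
          rw [← mul_assoc, hcx, mul_assoc, hcz, mul_assoc]
    have hinv2 : ∀ (j : ℕ) (g : G),
        (∃ i ≤ 3 * r - 1, (W ι z T v n ^ i)⁻¹ * g ∈ R0 ι z v (T v - v) n) →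
        ∃ i ≤ 3 * r - 1, (W ι z T v n ^ i)⁻¹ * (W ι z T v n ^ j * g) ∈ R0 ι z v (T v - v) n := by
      intro j
      induction j with
      | zero => intro g hg; simpa using hg
      | succ j ih =>
        intro g hg
        rw [pow_succ', mul_assoc]
        exact hinv1 _ (ih g hg)
    -- the elements of the first layer
    have hbase : ∀ x ∈ Mo T v c,
        ∃ i ≤ 3 * r - 1, (W ι z T v n ^ i)⁻¹ * ι x ∈ R0 ι z v (T v - v) n := by
      rintro x ⟨l, i, j, rfl⟩
      obtain ⟨f1, f2, hf⟩ := hn.hm2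
      -- reduce `l`
      obtain ⟨l', s, hl, hl1, hl2⟩ : ∃ l' s : ℤ, l = l' + m * s ∧ -(n : ℤ) ≤ l' ∧ l' ≤ n := by
        have hm0 : (0 : ℤ) < m := by omega
        have h0 := Int.emod_nonneg (l + n) hm0.ne'
        have h1 := Int.emod_lt_of_pos (l + n) hm0
        have h2 := Int.emod_add_mul_ediv (l + n) m
        exact ⟨(l + n) % m - n, (l + n) / m, by linarith, by omega, by omega⟩
      have ex : l • T v + i • v + j • c = l' • T v + ((i + s * f1) • v + (j + s * f2) • c) := by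
        rw [hl]
        linear_combination (norm := module) s • hf
      rw [ex]
      generalize i + s * f1 = i'
      generalize j + s * f2 = j'
      rcases le_or_gt 0 l' with hl0 | hl0
      · obtain ⟨k, rfl⟩ := Int.eq_ofNat_of_zero_le hl0
        obtain ⟨t, ht, q, hq⟩ := redJ hn (i' + k) j'
        refine ⟨3 * t, by omega, Or.inl ⟨k, by omega, ?_⟩⟩
        have e : (ι (k • (T v - v)))⁻¹ * ((W ι z T v n ^ (3 * t))⁻¹ *
            ι ((k : ℤ) • T v + (i' • v + j' • c))) = ι (q • v) := by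
          rw [h.W3t hn, ← h.neg, ← h.neg, ← h.add, ← h.add]
          congr 1
          linear_combination (norm := module) hq
        rw [e, h.memH]
        exact ⟨q, rfl⟩
      · obtain ⟨k, hk⟩ : ∃ k : ℕ, (k : ℤ) = l' + n := ⟨(l' + n).toNat, by omega⟩
        obtain ⟨i0, j0, hζ⟩ := hn.hζ
        -- `ι x` and the coset number `k` of the second kind in the phase `3 t + 2`
        have hword : ∀ t : ℕ, (ι (k • (T v - v) - v) * z)⁻¹ * ((W ι z T v n ^ (3 * t + 2))⁻¹ *
            ι (l' • T v + (i' • v + j' • c))) =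
            ι (-(t • c + (((n • (T v - v) - v) + T (n • (T v - v) - v)) +
              (T (T (k • (T v - v) - v)) + ζ))) + (l' • T v + (i' • v + j' • c))) := by
          intro t
          have e1 := h.word12 0 (t • c) ((n • (T v - v) - v) + T (n • (T v - v) - v))
            (k • (T v - v) - v)
          rw [h.zero, inv_one, one_mul, neg_zero, zero_add] at e1
          rw [h.add (-_), h.neg, ← e1, pow_add, h.W3t hn, pow_two, h.W2]
          group
        obtain ⟨t, ht, q, hq⟩ := redJ hn (i' - 2 * l' + l' * i0) (j' - l' - 1 + l' * j0)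
        refine ⟨3 * t + 2, by omega, Or.inr ⟨k, by omega, ?_⟩⟩
        rw [hword t, h.memH]
        refine ⟨q, ?_⟩
        simp only [map_sub, map_nsmul, h.T3]
        have h2 : T (T v) = ζ - c - v - T v := by rw [hn.hc]; abel
        rw [h2]
        have hk2 : k • (T v - v) = (l' + n) • (T v - v) := by rw [← hk, natCast_zsmul]
        have hk3 : k • (v - (ζ - c - v - T v)) = (l' + n) • (v - (ζ - c - v - T v)) := by
          rw [← hk, natCast_zsmul]
        rw [hk3]
        linear_combination (norm := module) hq + l' • hζ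
    rintro ⟨e, hg⟩
    obtain ⟨N, hN0, hN⟩ : ∃ N : ℕ, 0 < N ∧ W ι z T v n ^ N = 1 :=
      ⟨orderOf (W ι z T v n), orderOf_pos _, pow_orderOf_eq_one _⟩
    -- a power of `W` moving `g` to the first layer
    obtain ⟨j, hj⟩ : ∃ j : ℕ, (W ι z T v n ^ j)⁻¹ = W ι z T v n ^ (-e) := by
      refine ⟨(e % (N : ℤ)).toNat, ?_⟩
      have h0 := Int.emod_nonneg e (show (N : ℤ) ≠ 0 by omega)
      have h2 := Int.emod_add_mul_ediv e N
      rw [← zpow_natCast, Int.toNat_of_nonneg h0, zpow_neg]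
      congr 1
      have h3 : W ι z T v n ^ e = W ι z T v n ^ (e % (N : ℤ) + N * (e / N)) := by rw [h2]
      rw [h3, zpow_add, zpow_mul, zpow_natCast, hN, one_zpow, mul_one]
    have lWe : LayM ι z (Mo T v c) ((W ι z T v n ^ j)⁻¹) (-e) := by
      rw [hj]
      have key : ∀ e : ℤ, LayM ι z (Mo T v c) (W ι z T v n ^ e) e := by
        intro e
        cases e with
        | ofNat k =>
          have := LayM.pow h hM lW k
          rw [mul_one] at this
          rw [Int.ofNat_eq_natCast, zpow_natCast]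
          exact this
        | negSucc k =>
          have := LayM.inv h hM (LayM.pow h hM lW (k + 1))
          rw [mul_one] at this
          rw [zpow_negSucc]
          exact this
      exact key _
    have l0 := LayM.mul h hM lWe hg
    rw [neg_add_cancel] at l0
    obtain ⟨x, hx, hx'⟩ := l0
    rw [zpow_zero, mul_one] at hx'
    have := hinv2 j _ (hbase x hx)
    rwa [← hx', mul_inv_cancel_left] at this

end DS

end Pool.Agent.N47.CG
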