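import Pool.Agent.N47.CG.DualLift

/-!
# The case of index three, conclusion
-/

set_option autoImplicit false

namespace Pool.Agent.N47.CG

variable {G : Type*} [Group G]

namespace DS

variable {L : Type*} [AddCommGroup L] {ι : L → G} {T : L →+ L} {z : G} {ζ : L}
variable {v c : L} {m r n : ℕ}

theorem full [Finite G] (h : DS ι T z ζ) (hn : Num T ζ v c m r n) {S : Set G}
    (hS : ∀ x ∈ S, x⁻¹ ∈ S) (haS : ι v ∈ S) (hzS : z ∈ S) (hT : T v ≠ v) {B : Subgroup G}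
    (hB : ∀ g, g ∈ B ↔ ∃ x ∈ Mo T v c, g = ι x) :
    (∀ j : ℤ, ∀ b ∈ B, z ^ j * b * z ^ (-j) ∈ B) ∧ z ^ (3 : ℤ) ∈ B ∧ Full S z B := by
  have hM := h.Mo_T hn
  have hr0 := hn.hr0
  have Tcc := h.Tc hn
  have hBz : ∀ j : ℤ, ∀ b ∈ B, z ^ j * b * z ^ (-j) ∈ B := by
    intro j b hb
    obtain ⟨x, hx, rfl⟩ := (hB b).1 hb
    obtain ⟨y, hy, e⟩ := h.zconj_pow hM j x hx
    rw [e, zpow_neg, mul_inv_cancel_right]
    exact (hB _).2 ⟨y, hy, rfl⟩
  have h3B : z ^ (3 : ℤ) ∈ B := by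
    rw [h.pow3]
    obtain ⟨i0, j0, hζ⟩ := hn.hζ
    exact (hB _).2 ⟨ζ, ⟨0, i0, j0, by rw [hζ]; module⟩, rfl⟩
  have hReg : ∀ g, g ∈ Reg z B ↔ ∃ e : ℤ, LayM ι z (Mo T v c) g e := by
    intro g
    constructor
    · rintro ⟨i, hi⟩
      obtain ⟨x, hx, e⟩ := (hB _).1 hi
      exact ⟨i, x, hx, by rw [← e, zpow_neg, inv_mul_cancel_right]⟩
    · rintro ⟨i, x, hx, rfl⟩
      refine ⟨i, (hB _).2 ⟨x, hx, ?_⟩⟩
      rw [zpow_neg, mul_inv_cancel_right]
  have hp := (h.coset_path hn).congr (D := Reg z B) fun g => by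
    rw [hReg]
    exact h.cover hn g
  have hC : ∀ g ∈ Reg z B, ∀ k ∈ Subgroup.zpowers (ι v), g * k ∈ Reg z B := by
    intro g hg k hk
    rw [hReg, ← h.cover hn] at hg ⊢
    obtain ⟨i, hi, hg⟩ := hg
    refine ⟨i, hi, ?_⟩
    rw [← mul_assoc]
    exact R0.right hg hk
  have mv : v ∈ Mo T v c := ⟨0, 1, 0, by module⟩
  have mT : T v ∈ Mo T v c := ⟨1, 0, 0, by module⟩
  have mw : T v - v ∈ Mo T v c := AddSubgroup.sub_mem _ mT mv
  have ends1 : (ι v)⁻¹ ∈ Ends S (Subgroup.zpowers (ι v)) := inv_mem_ends haS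
  have ends2 : ι v ∈ Ends S (Subgroup.zpowers (ι v)) := by
    have := inv_mem_ends (hS _ haS)
    rw [inv_inv, Subgroup.zpowers_inv] at this
    exact this
  refine ⟨hBz, h3B, full_of hS hBz h3B ⟨-1, 0, r, ?_⟩ ⟨0, 0, 0, ?_⟩⟩
  · -- adjacent layers
    have hl := hp.lift hC (by
      rintro s ⟨e, he, hs⟩
      refine ⟨e, ?_, ?_⟩
      · rcases he with rfl | rfl
        · exact ends2
        · exact ends1
      · rcases hs with rfl | rfl
        · exact ⟨z, hzS, rfl⟩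
        · exact ⟨z⁻¹, hS z hzS, rfl⟩) ends1
    have lW : LayM ι z (Mo T v c) (W ι z T v n) 1 :=
      ⟨_, AddSubgroup.sub_mem _ (AddSubgroup.nsmul_mem _ mw n) mv, by rw [zpow_one]; rfl⟩
    have l1 : LayM ι z (Mo T v c) (W ι z T v n ^ (3 * r - 1) * ι (n • (T v - v)) * (ι v)⁻¹)
        (-1 + 3 * r) := by
      have k1 := LayM.pow h hM lW (3 * r - 1)
      have k2 : LayM ι z (Mo T v c) (ι (n • (T v - v))) 0 :=
        ⟨_, AddSubgroup.nsmul_mem _ mw n, by simp⟩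
      have k3 : LayM ι z (Mo T v c) ((ι v)⁻¹) 0 :=
        ⟨_, AddSubgroup.neg_mem _ mv, by rw [h.neg]; simp⟩
      have := LayM.mul h hM (LayM.mul h hM k1 k2) k3
      have e : ((3 * r - 1 : ℕ) : ℤ) * 1 + 0 + 0 = -1 + 3 * r := by
        have : ((3 * r - 1 : ℕ) : ℤ) = 3 * r - 1 := by omega
        rw [this]; ring
      rwa [e] at this
    obtain ⟨x, hx, hx'⟩ := l1
    refine ⟨ι x, (hB _).2 ⟨x, hx, rfl⟩, ?_⟩
    rw [← hx']
    have e : z ^ ((-1 : ℤ) + 1 + 3 * 0) = 1 := by norm_num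
    rw [e]
    exact hl
  · have hρ : W ι z T v n ^ (3 * r - 1) * ι (n • (T v - v)) * (ι v)⁻¹ * z = ι ((r : ℤ) • c) := by
      have e1 : W ι z T v n = ι (n • (T v - v)) * (ι v)⁻¹ * z := by
        unfold W
        rw [sub_eq_add_neg, h.add, h.neg]
      have e2 : W ι z T v n ^ (3 * r - 1) * ι (n • (T v - v)) * (ι v)⁻¹ * z =
          W ι z T v n ^ (3 * r - 1) * (ι (n • (T v - v)) * (ι v)⁻¹ * z) := by
        simp only [mul_assoc]
      rw [e2, ← e1, ← pow_succ, natCast_zsmul, ← h.W3t hn]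
      congr 1
      omega
    obtain ⟨f, hf⟩ := hn.hr2
    obtain ⟨x₀, hx₀, y₀, hy₀, hxy⟩ := gap0 hS haS hzS hC hp (Or.inr rfl) hρ (by
      rw [h.memH]; exact ⟨f, hf⟩) (by
      intro h1
      apply hT
      rw [h.inj h1, map_zsmul, Tcc]) (by
      intro h1
      apply hT
      rw [← h.neg] at h1
      have h2 := h.inj h1
      have h3 : v = -((r : ℤ) • c) := by rw [← h2, neg_neg]
      rw [h3, map_neg, map_zsmul, Tcc]) ⟨z, by
        rw [hReg]
        exact ⟨1, 0, AddSubgroup.zero_mem _, by rw [h.zero]; simp⟩, by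
        intro hz
        have := LayM.three h (M := ⊤) ⟨0, AddSubgroup.zero_mem _, by
          rw [h.zero, one_mul, zpow_one]⟩ hz (e := 1)
        omega⟩
    have hHB : ∀ x ∈ Subgroup.zpowers (ι v), x ∈ B := by
      intro x hx
      obtain ⟨q, rfl⟩ := Subgroup.mem_zpowers_iff.1 hx
      exact B.zpow_mem ((hB _).2 ⟨v, mv, rfl⟩) q
    have k1 := hxy.smul x₀⁻¹
    rw [inv_mul_cancel] at k1
    refine ⟨x₀⁻¹ * y₀, B.mul_mem (B.inv_mem (hHB _ hx₀)) (hHB _ hy₀), ?_⟩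
    have e : (0 : ℤ) + 3 * 0 = 0 := by norm_num
    rw [e, zpow_zero, mul_one]
    refine k1.congr fun g => ?_
    show x₀⁻¹⁻¹ * g ∈ Reg z B ↔ g ∈ Reg z B
    rw [inv_inv]
    exact Reg.smul (hHB _ hx₀) g

end DS

/-- the multiples lying in a subgroup -/
theorem exists_period (D : AddSubgroup ℤ) (hD : ∃ k : ℕ, 0 < k ∧ (k : ℤ) ∈ D) :
    ∃ m : ℕ, 0 < m ∧ ∀ q : ℤ, q ∈ D ↔ (m : ℤ) ∣ q := by
  obtain ⟨g, hg⟩ := Int.subgroup_cyclic D
  have hmem : ∀ q : ℤ, q ∈ D ↔ (g.natAbs : ℤ) ∣ q := by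
    intro q
    rw [hg, AddSubgroup.mem_closure_singleton, Int.natAbs_dvd]
    constructor
    · rintro ⟨k, rfl⟩
      exact ⟨k, by rw [smul_eq_mul, mul_comm]⟩
    · rintro ⟨k, rfl⟩
      exact ⟨k, by rw [smul_eq_mul, mul_comm]⟩
  obtain ⟨k, hk, hk'⟩ := hD
  refine ⟨g.natAbs, ?_, hmem⟩
  rw [hmem] at hk'
  have := Int.natCast_dvd_natCast.1 hk'
  exact Nat.pos_of_dvd_of_pos this hk

theorem dual_main [Finite G] {S : Set G} (hS : ∀ x ∈ S, x⁻¹ ∈ S) (hgen : Subgroup.closure S = ⊤)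
    {A : Subgroup G} [hAn : A.Normal] (hA : ∀ x ∈ A, ∀ y ∈ A, x * y = y * x)
    {z : G} (hz : z ∈ S) (hzA : z ∉ A) (h3A : z ^ (3 : ℤ) ∈ A)
    (hcos : ∀ s ∈ S, s ∈ A ∨ s * z⁻¹ ∈ A ∨ s * z ∈ A) {a : G} (haA : a ∈ A) (haS : a ∈ S)
    (hne : z * a * z⁻¹ ≠ a) (hodd : ∃ q : ℕ, Odd q ∧ a ^ q ∈ Subgroup.zpowers z)
    (hζ : ∃ i j : ℤ, z ^ (3 : ℤ) =
      a ^ i * ((a * (z * a * z⁻¹) * (z * (z * a * z⁻¹) * z⁻¹))⁻¹ * z ^ (3 : ℤ)) ^ j) :
    ∃ s ∈ S, ∃ y, Ham S ⊥ Set.univ s y := by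
  let _ : CommGroup A := { (inferInstance : Group A) with
    mul_comm := fun x y => Subtype.ext (hA x x.2 y y.2) }
  let L := Additive A
  let ι : L → G := fun x => ((Additive.toMul x : A) : G)
  let τ : A →* A :=
    { toFun := fun x => ⟨z * x * z⁻¹, hAn.conj_mem x x.2 z⟩
      map_one' := Subtype.ext (by simp)
      map_mul' := fun x y => Subtype.ext (by
        show z * ((x : G) * y) * z⁻¹ = z * x * z⁻¹ * (z * y * z⁻¹)
        group) }
  let T : L →+ L := MonoidHom.toAdditive τ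
  let ζ : L := Additive.ofMul ⟨z ^ (3 : ℤ), h3A⟩
  let v : L := Additive.ofMul ⟨a, haA⟩
  have hιT : ∀ x : L, ι (T x) = z * ι x * z⁻¹ := fun x => rfl
  have h3dvd : ∀ k : ℤ, z ^ k ∈ A → (3 : ℤ) ∣ k := by
    intro k hk
    by_contra hcon
    apply hzA
    rcases (show k % 3 = 1 ∨ k % 3 = 2 by omega) with h1 | h1
    · have e : z = z ^ k * (z ^ (3 : ℤ)) ^ (-(k / 3)) := by
        rw [← zpow_mul, ← zpow_add]
        have : k + 3 * -(k / 3) = 1 := by omega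
        rw [this, zpow_one]
      rw [e]
      exact A.mul_mem hk (A.zpow_mem h3A _)
    · have e : z = (z ^ k)⁻¹ * (z ^ (3 : ℤ)) ^ (k / 3 + 1) := by
        rw [← zpow_mul, ← zpow_neg, ← zpow_add]
        have : -k + 3 * (k / 3 + 1) = 1 := by omega
        rw [this, zpow_one]
      rw [e]
      exact A.mul_mem (A.inv_mem hk) (A.zpow_mem h3A _)
  have h : DS ι T z ζ :=
    { add := fun x y => rfl
      inj := fun x y hxy => Subtype.ext hxy
      conj := fun x => by rw [hιT]; group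
      z3 := by
        show z * (z * z) = z ^ (3 : ℤ)
        rw [show (3 : ℤ) = ((3 : ℕ) : ℤ) by norm_num, zpow_natCast, pow_succ, pow_two, mul_assoc]
      lay := fun k x hk => h3dvd k (by rw [hk]; exact (Additive.toMul x).2) }
  have hιv : ι v = a := rfl
  obtain ⟨c, hc⟩ : ∃ c : L, c = ζ - (v + T v + T (T v)) := ⟨_, rfl⟩
  have hιc : ι c = (a * (z * a * z⁻¹) * (z * (z * a * z⁻¹) * z⁻¹))⁻¹ * z ^ (3 : ℤ) := by
    rw [hc, sub_eq_neg_add, h.add, h.neg, h.add, h.add, hιT, hιT, hιv]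
    rfl
  have hζ' : ∃ i j : ℤ, ζ = i • v + j • c := by
    obtain ⟨i, j, hij⟩ := hζ
    refine ⟨i, j, h.inj ?_⟩
    rw [h.add, h.zsmul, h.zsmul, hιc, hιv]
    exact hij
  have hTv : T v ≠ v := fun h1 => hne (by rw [← hιv, ← hιT, h1])
  -- the periods
  have hfin : ∀ x : L, ∃ k : ℕ, 0 < k ∧ k • x = 0 := fun x =>
    ⟨addOrderOf x, addOrderOf_pos x, addOrderOf_nsmul_eq_zero x⟩
  let D₁ : AddSubgroup ℤ :=
    { carrier := {q | ∃ i j : ℤ, q • T v = i • v + j • c}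
      zero_mem' := ⟨0, 0, by simp⟩
      add_mem' := by
        rintro q q' ⟨i, j, e⟩ ⟨i', j', e'⟩
        exact ⟨i + i', j + j', by linear_combination (norm := module) e + e'⟩
      neg_mem' := by
        rintro q ⟨i, j, e⟩
        exact ⟨-i, -j, by linear_combination (norm := module) -e⟩ }
  let D₂ : AddSubgroup ℤ :=
    { carrier := {q | ∃ i : ℤ, q • c = i • v}
      zero_mem' := ⟨0, by simp⟩
      add_mem' := by
        rintro q q' ⟨i, e⟩ ⟨i', e'⟩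
        exact ⟨i + i', by linear_combination (norm := module) e + e'⟩
      neg_mem' := by
        rintro q ⟨i, e⟩
        exact ⟨-i, by linear_combination (norm := module) -e⟩ }
  obtain ⟨m, hm0, hm⟩ := exists_period D₁ (by
    obtain ⟨k, hk, hk'⟩ := hfin (T v)
    exact ⟨k, hk, 0, 0, by rw [natCast_zsmul, hk']; simp⟩)
  obtain ⟨r, hr0, hr⟩ := exists_period D₂ (by
    obtain ⟨k, hk, hk'⟩ := hfin c
    exact ⟨k, hk, 0, by rw [natCast_zsmul, hk']; simp⟩)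
  -- `m` is odd
  have hmodd : Odd m := by
    obtain ⟨q, hq, hqz⟩ := hodd
    obtain ⟨k, hk⟩ := Subgroup.mem_zpowers_iff.1 hqz
    have h1 : (q : ℤ) ∈ D₁ := by
      refine ⟨q, 0, h.inj ?_⟩
      rw [zero_smul, add_zero, h.zsmul, h.zsmul, hιT, hιv, zpow_natCast, zpow_natCast, conj_pow,
        ← hk]
      group
    have h2 := Int.natCast_dvd_natCast.1 ((hm _).1 h1)
    exact Odd.of_dvd_nat hq h2
  obtain ⟨n, hn'⟩ := hmodd
  have hn : DS.Num T ζ v c m r n :=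
    { hc := hc
      hζ := hζ'
      hm := hn'
      hm1 := fun q i j e => (hm q).1 ⟨i, j, e⟩
      hm2 := (hm _).2 dvd_rfl
      hr0 := hr0
      hr1 := fun s i e => (hr s).1 ⟨i, e⟩
      hr2 := (hr _).2 dvd_rfl }
  let B : Subgroup G :=
    { carrier := {g | ∃ x ∈ DS.Mo T v c, g = ι x}
      one_mem' := ⟨0, AddSubgroup.zero_mem _, h.zero.symm⟩
      mul_mem' := by
        rintro _ _ ⟨x, hx, rfl⟩ ⟨y, hy, rfl⟩
        exact ⟨x + y, AddSubgroup.add_mem _ hx hy, (h.add x y).symm⟩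
      inv_mem' := by
        rintro _ ⟨x, hx, rfl⟩
        exact ⟨-x, AddSubgroup.neg_mem _ hx, (h.neg x).symm⟩ }
  have hB : ∀ g, g ∈ B ↔ ∃ x ∈ DS.Mo T v c, g = ι x := fun g => Iff.rfl
  obtain ⟨hBz, h3B, hF⟩ := h.full hn hS haS hz hTv hB
  refine main_full hgen hz hcos (B₁ := B)
    { hS := hS
      hBA := by
        rintro _ ⟨x, hx, rfl⟩
        exact (Additive.toMul x).2
      hcom := fun x hx y hy => by
        rw [hA x hx y hy, mul_inv_cancel_right, mul_inv_cancel]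
        exact B.one_mem
      hzB := fun k hk => by
        obtain ⟨f, rfl⟩ := h3dvd k hk
        rw [zpow_mul]
        exact B.zpow_mem h3B f
      hAz := fun j x hx => by rw [zpow_neg]; exact hAn.conj_mem x hx _
      hBz := hBz
      h3 := h3A } hF

end Pool.Agent.N47.CG
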