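import Pool.Agent.N47.CG.DualPath

/-!
# Iterating the phases
-/

set_option autoImplicit false

namespace Pool.Agent.N47.CG

variable {G : Type*} [Group G]

namespace DS

variable {L : Type*} [AddCommGroup L] {ι : L → G} {T : L →+ L} {z : G} {ζ : L}

/-- `g ∈ ι(M) z ^ e` -/
def LayM (ι : L → G) (z : G) (M : AddSubgroup L) (g : G) (e : ℤ) : Prop := ∃ x ∈ M, g = ι x * z ^ e

theorem zconj_pow (h : DS ι T z ζ) {M : AddSubgroup L} (hM : ∀ x ∈ M, T x ∈ M) (e : ℤ) :
    ∀ x ∈ M, ∃ y ∈ M, z ^ e * ι x = ι y * z ^ e := by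
  induction e using Int.induction_on with
  | zero => intro x hx; exact ⟨x, hx, by simp⟩
  | succ i ih =>
    intro x hx
    obtain ⟨y, hy, hy'⟩ := ih x hx
    refine ⟨T y, hM y hy, ?_⟩
    have e1 : z ^ ((i : ℤ) + 1) = z * z ^ (i : ℤ) := by
      rw [← zpow_one_add, add_comm]
    rw [e1, mul_assoc, hy', ← mul_assoc, h.conj, mul_assoc]
  | pred i ih =>
    intro x hx
    obtain ⟨y, hy, hy'⟩ := ih x hx
    refine ⟨T (T y), hM _ (hM y hy), ?_⟩
    have e1 : z ^ (-(i : ℤ) - 1) = z⁻¹ * z ^ (-(i : ℤ)) := by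
      rw [← zpow_neg_one, ← zpow_add]; congr 1; ring
    rw [e1, mul_assoc, hy', ← mul_assoc, h.zinv, mul_assoc]

theorem LayM.mul (h : DS ι T z ζ) {M : AddSubgroup L} (hM : ∀ x ∈ M, T x ∈ M) {g g' : G} {e e' : ℤ}
    (h1 : LayM ι z M g e) (h2 : LayM ι z M g' e') : LayM ι z M (g * g') (e + e') := by
  obtain ⟨x, hx, rfl⟩ := h1
  obtain ⟨y, hy, rfl⟩ := h2
  obtain ⟨y', hy', e1⟩ := h.zconj_pow hM e y hy
  refine ⟨x + y', M.add_mem hx hy', ?_⟩
  rw [h.add, zpow_add, mul_assoc, ← mul_assoc (z ^ e), e1]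
  simp only [mul_assoc]

theorem LayM.inv (h : DS ι T z ζ) {M : AddSubgroup L} (hM : ∀ x ∈ M, T x ∈ M) {g : G} {e : ℤ}
    (h1 : LayM ι z M g e) : LayM ι z M g⁻¹ (-e) := by
  obtain ⟨x, hx, rfl⟩ := h1
  obtain ⟨y, hy, e1⟩ := h.zconj_pow hM (-e) (-x) (M.neg_mem hx)
  refine ⟨y, hy, ?_⟩
  rw [← e1, mul_inv_rev, h.neg, zpow_neg]

theorem LayM.pow (h : DS ι T z ζ) {M : AddSubgroup L} (hM : ∀ x ∈ M, T x ∈ M) {g : G} {e : ℤ}
    (h1 : LayM ι z M g e) (d : ℕ) : LayM ι z M (g ^ d) (d * e) := by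
  induction d with
  | zero => exact ⟨0, M.zero_mem, by simp [h.zero]⟩
  | succ d ih =>
    rw [pow_succ]
    have := LayM.mul h hM ih h1
    have e1 : ((d + 1 : ℕ) : ℤ) * e = d * e + e := by push_cast; ring
    rwa [e1]

theorem LayM.three (h : DS ι T z ζ) {M : AddSubgroup L} {v : L} {g : G} {e : ℤ}
    (h1 : LayM ι z M g e) (h2 : g ∈ Subgroup.zpowers (ι v)) : (3 : ℤ) ∣ e := by
  obtain ⟨x, -, rfl⟩ := h1
  exact h.layH h2

section

variable {v c : L} {m r n : ℕ}

theorem Tc (h : DS ι T z ζ) (hn : Num T ζ v c m r n) : T c = c := by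
  rw [hn.hc, map_sub, map_add, map_add, h.T3, h.Tz]
  abel

/-- the word of a phase -/
def W (ι : L → G) (z : G) (T : L →+ L) (v : L) (n : ℕ) : G := ι (n • (T v - v) - v) * z

theorem W2 (h : DS ι T z ζ) : W ι z T v n * W ι z T v n =
    ι ((n • (T v - v) - v) + T (n • (T v - v) - v)) * (z * z) := by
  unfold W
  rw [h.add]
  calc ι (n • (T v - v) - v) * z * (ι (n • (T v - v) - v) * z) =
      ι (n • (T v - v) - v) * (z * ι (n • (T v - v) - v)) * z := by group
    _ = ι (n • (T v - v) - v) * (ι (T (n • (T v - v) - v)) * z) * z := by rw [h.conj]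
    _ = ι (n • (T v - v) - v) * ι (T (n • (T v - v) - v)) * (z * z) := by group

theorem W3 (h : DS ι T z ζ) (hn : Num T ζ v c m r n) : W ι z T v n ^ 3 = ι c := by
  have e1 : W ι z T v n ^ 3 = W ι z T v n * (W ι z T v n * W ι z T v n) := by
    rw [pow_succ, pow_two, mul_assoc]
  rw [e1, h.W2]
  have e2 : ∀ x y : L, ι x * z * (ι y * (z * z)) = ι (x + T y) * (z * (z * z)) := by
    intro x y
    rw [h.add]
    calc ι x * z * (ι y * (z * z)) = ι x * (z * ι y) * (z * z) := by group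
      _ = ι x * (ι (T y) * z) * (z * z) := by rw [h.conj]
      _ = ι x * ι (T y) * (z * (z * z)) := by group
  unfold W
  rw [e2, h.z3, ← h.add]
  congr 1
  simp only [map_sub, map_add, map_nsmul, h.T3]
  rw [hn.hc]
  module

theorem W3t (h : DS ι T z ζ) (hn : Num T ζ v c m r n) (t : ℕ) :
    W ι z T v n ^ (3 * t) = ι (t • c) := by
  rw [pow_mul, h.W3 hn, h.nsmul]

theorem word12 (h : DS ι T z ζ) (x t p y : L) :
    (ι x)⁻¹ * (ι t * (ι p * (z * z)) * (ι y * z)) = ι (-x + (t + (p + (T (T y) + ζ)))) := by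
  have e2 : z * z * ι y = ι (T (T y)) * (z * z) := by
    rw [mul_assoc, h.conj, ← mul_assoc, h.conj, mul_assoc]
  rw [h.add, h.add, h.add, h.add, h.neg, ← h.z3]
  calc (ι x)⁻¹ * (ι t * (ι p * (z * z)) * (ι y * z)) =
      (ι x)⁻¹ * (ι t * (ι p * ((z * z * ι y) * z))) := by simp only [mul_assoc]
    _ = _ := by rw [e2]; simp only [mul_assoc]

theorem disj (h : DS ι T z ζ) (hn : Num T ζ v c m r n) {d : ℕ} (hd0 : 0 < d) (hd : d < 3 * r)
    {g : G} (h1 : g ∈ R0 ι z v (T v - v) n)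
    (h2 : (W ι z T v n ^ d)⁻¹ * g ∈ R0 ι z v (T v - v) n) : False := by
  have hM : ∀ x ∈ (⊤ : AddSubgroup L), T x ∈ (⊤ : AddSubgroup L) := fun x _ => AddSubgroup.mem_top _
  have lW : LayM ι z ⊤ (W ι z T v n) 1 := ⟨_, AddSubgroup.mem_top _, by rw [zpow_one]; rfl⟩
  have lWd : LayM ι z ⊤ (W ι z T v n ^ d) d := by
    have := LayM.pow h hM lW d
    rwa [mul_one] at this
  have l0 : ∀ x : L, LayM ι z ⊤ (ι x) 0 := fun x => ⟨x, AddSubgroup.mem_top _, by simp⟩
  have l1 : ∀ x : L, LayM ι z ⊤ (ι x * z) 1 := fun x =>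
    ⟨x, AddSubgroup.mem_top _, by rw [zpow_one]⟩
  have hmv := hn.hm
  have Tcc := h.Tc hn
  rcases h1 with ⟨k, hk, h1⟩ | ⟨k, hk, h1⟩
  · rcases h2 with ⟨k', hk', h2⟩ | ⟨k', hk', h2⟩
    · have h2' : (W ι z T v n ^ d * ι (k' • (T v - v)))⁻¹ * g ∈ Subgroup.zpowers (ι v) := by
        rw [mul_inv_rev, mul_assoc]; exact h2
      have h3 := coset_mem h1 h2'
      have h4 := LayM.three h (LayM.mul h hM (LayM.inv h hM (l0 _)) (LayM.mul h hM lWd (l0 _))) h3
      obtain ⟨t, rfl⟩ : ∃ t : ℕ, d = 3 * t := ⟨d / 3, by omega⟩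
      rw [h.W3t hn, ← h.neg, ← h.add, ← h.add, h.memH] at h3
      obtain ⟨q, hq⟩ := h3
      have h5 := lab hn (α := (k' : ℤ) - k) (β := 0) (γ := 0) (s := t) (q := q) (by
        rw [← hq]; module)
      have h6 : k = k' := by
        obtain ⟨f, hf⟩ := h5
        have : f = 0 := by
          by_contra hf0
          rcases lt_or_gt_of_ne hf0 with h' | h'
          · nlinarith
          · nlinarith
        subst this
        omega
      subst h6
      have h7 := hn.hr1 t q (by rw [← hq]; module)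
      have := Int.le_of_dvd (by omega) h7
      omega
    · have h2' : (W ι z T v n ^ d * (ι (k' • (T v - v) - v) * z))⁻¹ * g ∈
          Subgroup.zpowers (ι v) := by
        rw [mul_inv_rev, mul_assoc]; exact h2
      have h3 := coset_mem h1 h2'
      have h4 := LayM.three h (LayM.mul h hM (LayM.inv h hM (l0 _)) (LayM.mul h hM lWd (l1 _))) h3
      obtain ⟨t, rfl⟩ : ∃ t : ℕ, d = 3 * t + 2 := ⟨d / 3, by omega⟩
      have e1 : (ι (k • (T v - v)))⁻¹ * (W ι z T v n ^ (3 * t + 2) *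
          (ι (k' • (T v - v) - v) * z)) = ι (-(k • (T v - v)) + (t • c +
            (((n • (T v - v) - v) + T (n • (T v - v) - v)) + (T (T (k' • (T v - v) - v)) + ζ)))) := by
        rw [pow_add, h.W3t hn, pow_two, h.W2]
        exact h.word12 _ _ _ _
      rw [e1, h.memH] at h3
      obtain ⟨q, hq⟩ := h3
      have h5 := lab hn (α := (n : ℤ) - k) (β := n) (γ := k') (s := t + 1) (q := q) (by
        rw [← hq]
        simp only [map_sub, map_nsmul, h.T3]
        rw [add_smul (t : ℤ) 1 c, one_smul]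
        nth_rewrite 2 [hn.hc]
        module)
      obtain ⟨f, hf⟩ := h5
      have hf1 : f < 0 := by
        by_contra hcon
        push Not at hcon
        have : 0 ≤ (m : ℤ) * f := by positivity
        omega
      have : (m : ℤ) * f ≤ -m := by nlinarith
      omega
  · rcases h2 with ⟨k', hk', h2⟩ | ⟨k', hk', h2⟩
    · have h2' : (W ι z T v n ^ d * ι (k' • (T v - v)))⁻¹ * g ∈ Subgroup.zpowers (ι v) := by
        rw [mul_inv_rev, mul_assoc]; exact h2
      have h3 := coset_mem h1 h2'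
      have h4 := LayM.three h (LayM.mul h hM (LayM.inv h hM (l1 _)) (LayM.mul h hM lWd (l0 _))) h3
      obtain ⟨t, rfl⟩ : ∃ t : ℕ, d = 3 * t + 1 := ⟨d / 3, by omega⟩
      have e1 : (ι (k • (T v - v) - v) * z)⁻¹ * (W ι z T v n ^ (3 * t + 1) *
          ι (k' • (T v - v))) = ι (T (T (-(k • (T v - v) - v) + (t • c + (n • (T v - v) - v)))) +
            k' • (T v - v)) := by
        rw [pow_add, h.W3t hn, pow_one, h.add (T _), ← h.zconj', h.add (-_), h.neg, h.add (t • c)]
        unfold W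
        group
      rw [e1, h.memH] at h3
      obtain ⟨q, hq⟩ := h3
      have h5 := lab hn (α := (k' : ℤ)) (β := 0) (γ := (n : ℤ) - k) (s := t) (q := q) (by
        rw [← hq]
        simp only [map_sub, map_add, map_neg, map_nsmul, h.T3, Tcc]
        module)
      obtain ⟨f, hf⟩ := h5
      have hf1 : 0 < f := by
        by_contra hcon
        push Not at hcon
        have : (m : ℤ) * f ≤ 0 := by nlinarith
        omega
      have : (m : ℤ) ≤ m * f := by nlinarith
      omega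
    · have h2' : (W ι z T v n ^ d * (ι (k' • (T v - v) - v) * z))⁻¹ * g ∈
          Subgroup.zpowers (ι v) := by
        rw [mul_inv_rev, mul_assoc]; exact h2
      have h3 := coset_mem h1 h2'
      have h4 := LayM.three h (LayM.mul h hM (LayM.inv h hM (l1 _)) (LayM.mul h hM lWd (l1 _))) h3
      obtain ⟨t, rfl⟩ : ∃ t : ℕ, d = 3 * t := ⟨d / 3, by omega⟩
      have e1 : (ι (k • (T v - v) - v) * z)⁻¹ * (W ι z T v n ^ (3 * t) *
          (ι (k' • (T v - v) - v) * z)) =
          ι (T (T (-(k • (T v - v) - v) + (t • c + (k' • (T v - v) - v))))) := by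
        rw [h.W3t hn, ← h.zconj', h.add (-_), h.neg, h.add (t • c)]
        group
      rw [e1, h.memH] at h3
      obtain ⟨q, hq⟩ := h3
      have h5 := lab hn (α := 0) (β := 0) (γ := (k' : ℤ) - k) (s := t) (q := q) (by
        rw [← hq]
        simp only [map_sub, map_add, map_neg, map_nsmul, h.T3, Tcc]
        module)
      have h6 : k = k' := by
        obtain ⟨f, hf⟩ := h5
        have : f = 0 := by
          by_contra hf0
          rcases lt_or_gt_of_ne hf0 with h' | h'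
          · nlinarith
          · nlinarith
        subst this
        omega
      subst h6
      have h7 := hn.hr1 t q (by
        rw [← hq]
        simp only [map_sub, map_add, map_neg, map_nsmul, h.T3, Tcc]
        module)
      have := Int.le_of_dvd (by omega) h7
      omega

end

end DS

end Pool.Agent.N47.CG
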