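import Pool.Agent.N47.CG.DualCover

/-!
# From coset paths to paths
-/

set_option autoImplicit false

namespace Pool.Agent.N47.CG

variable {G : Type*} [Group G]

/-- replacing every point by a path of its coset -/
theorem Ham.lift {S S' : Set G} {H : Subgroup G} {C : Set G} (hC : ∀ g ∈ C, ∀ h ∈ H, g * h ∈ C)
    (hS' : ∀ s ∈ S', ∃ e ∈ Ends S H, ∃ t ∈ S, s = e * t) {x y : G} (h : Ham S' H C x y) {e : G}
    (he : e ∈ Ends S H) : Ham S ⊥ C x (y * e) := by
  obtain ⟨p, p1, p2, p3, p4, p5, p6⟩ := h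
  have key : ∀ p : List G, ∀ y : G, p.IsChain (fun g h => g⁻¹ * h ∈ S') →
      p.Pairwise (fun g h => g⁻¹ * h ∉ H) → p.head? = some x → p.getLast? = some y →
      ∀ e ∈ Ends S H, Ham S ⊥ {g | ∃ q ∈ p, q⁻¹ * g ∈ H} x (y * e) := by
    intro p
    induction p using List.reverseRecOn with
    | nil => intro y _ _ h; simp at h
    | append_singleton p' a ih =>
      intro y h1 h2 h3 h4 e he
      have hya : y = a := by simpa using h4.symm
      subst hya
      have he' : Ham S ⊥ H 1 e := he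
      have b1 := he'.smul y
      rw [mul_one] at b1
      rcases List.eq_nil_or_concat p' with rfl | ⟨p'', q', rfl⟩
      · have hy : y = x := by simpa using h3
        subst hy
        refine b1.congr fun g => ?_
        simp only [List.nil_append, List.mem_singleton, exists_eq_left]
        exact Iff.rfl
      · simp only [List.concat_eq_append] at ih h1 h2 h3 ⊢
        rw [List.isChain_append] at h1
        obtain ⟨h1a, _, h1c⟩ := h1
        have hstep : q'⁻¹ * y ∈ S' := h1c q' (by simp) y (by simp)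
        rw [List.pairwise_append] at h2
        obtain ⟨h2a, _, h2c⟩ := h2
        obtain ⟨e', he', t, ht, hst⟩ := hS' _ hstep
        have hprev := ih q' h1a h2a (by
            rw [List.head?_append] at h3
            cases h : (p'' ++ [q']).head? with
            | none => simp at h
            | some x =>
              rw [h] at h3
              simpa using h3) (by simp) e' he'
        have b2 := hprev.append b1 (by
          rintro a ⟨q, hq, ha⟩ b hb hab
          rw [Subgroup.mem_bot, inv_mul_eq_one] at hab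
          subst hab
          exact h2c q hq y (by simp) (coset_mem ha hb)) (by
          have e1 : (q' * e')⁻¹ * y = t := by
            rw [mul_inv_rev, mul_assoc, hst, inv_mul_cancel_left]
          rw [e1]
          exact ht)
        refine b2.congr fun g => ?_
        simp only [Set.mem_union, Set.mem_ofPred_eq]
        constructor
        · rintro (⟨q, hq, hg⟩ | hg)
          · exact ⟨q, List.mem_append.2 (Or.inl hq), hg⟩
          · exact ⟨y, by simp, hg⟩
        · rintro ⟨q, hq, hg⟩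
          rcases List.mem_append.1 hq with hq | hq
          · exact Or.inl ⟨q, hq, hg⟩
          · right
            rw [List.mem_singleton] at hq
            rw [← hq]
            exact hg
  refine (key p y p1 p2 p5 p6 e he).congr fun g => ⟨?_, fun hg => p4 g hg⟩
  rintro ⟨q, hq, hg⟩
  have := hC q (p3 q hq) _ hg
  rwa [mul_inv_cancel_left] at this

/-- powers of an element -/
theorem ham_arc {S : Set G} {a : G} (haS : a ∈ S) (n : ℕ)
    (hn : ∀ i, 0 < i → i < n → a ^ i ≠ 1) : ∀ j : ℕ, j < n →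
    Ham S ⊥ {g | ∃ i ≤ j, g = a ^ i} 1 (a ^ j) := by
  intro j
  induction j with
  | zero =>
    intro _
    rw [pow_zero]
    refine Ham.single S ⟨0, le_rfl, by simp⟩ ?_
    rintro g ⟨i, hi, rfl⟩
    obtain rfl : i = 0 := by omega
    simp
  | succ j ih =>
    intro hj
    have h1 : Ham S ⊥ ({a ^ (j + 1)} : Set G) (a ^ (j + 1)) (a ^ (j + 1)) :=
      Ham.single S (by simp) (by simp)
    refine ((ih (by omega)).append h1 ?_ ?_).congr fun g => ?_
    · rintro x ⟨i, hi, rfl⟩ y hy hxy
      rw [Set.mem_singleton_iff] at hy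
      subst hy
      rw [Subgroup.mem_bot] at hxy
      apply hn (j + 1 - i) (by omega) (by omega)
      rw [← hxy, eq_inv_mul_iff_mul_eq, ← pow_add]
      congr 1
      omega
    · have e : (a ^ j)⁻¹ * a ^ (j + 1) = a := by rw [pow_succ]; group
      rw [e]; exact haS
    · simp only [Set.mem_union, Set.mem_singleton_iff, Set.mem_ofPred_eq]
      constructor
      · rintro (⟨i, hi, rfl⟩ | rfl)
        · exact ⟨i, by omega, rfl⟩
        · exact ⟨j + 1, le_rfl, rfl⟩
      · rintro ⟨i, hi, rfl⟩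
        rcases (show i ≤ j ∨ i = j + 1 by omega) with h | rfl
        · exact Or.inl ⟨i, h, rfl⟩
        · exact Or.inr rfl

theorem pow_ne_of_lt {a : G} : ∀ i, 0 < i → i < orderOf a → a ^ i ≠ 1 := fun _ h1 h2 h3 =>
  absurd (orderOf_le_of_pow_eq_one h1 h3) (by omega)

theorem mem_zp_iff [Finite G] {a g : G} :
    g ∈ Subgroup.zpowers a ↔ ∃ i ≤ orderOf a - 1, g = a ^ i := by
  have h0 := orderOf_pos a
  rw [← mem_powers_iff_mem_zpowers, Submonoid.mem_powers_iff]
  constructor
  · rintro ⟨i, rfl⟩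
    refine ⟨i % orderOf a, ?_, (pow_mod_orderOf a i).symm⟩
    have := Nat.mod_lt i h0
    omega
  · rintro ⟨i, -, rfl⟩
    exact ⟨i, rfl⟩

theorem inv_mem_ends [Finite G] {S : Set G} {a : G} (haS : a ∈ S) :
    a⁻¹ ∈ Ends S (Subgroup.zpowers a) := by
  have h0 := orderOf_pos a
  have h1 := ham_arc haS (orderOf a) pow_ne_of_lt (orderOf a - 1) (by omega)
  have e : a ^ (orderOf a - 1) = a⁻¹ := by
    rw [eq_inv_iff_mul_eq_one, ← pow_succ, Nat.sub_add_cancel h0, pow_orderOf_eq_one]
  rw [e] at h1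
  exact h1.congr fun g => (mem_zp_iff).symm

/-- splitting the cycle of a cyclic group -/
theorem split_cycle [Finite G] {S : Set G} (hS : ∀ x ∈ S, x⁻¹ ∈ S) {a : G} (haS : a ∈ S) {f ρ : G}
    (hf : f ∈ Subgroup.zpowers a) (hρ : ρ ∈ Subgroup.zpowers a) (hne : f ≠ ρ) :
    ∃ (C₁ C₂ : Set G) (x y : G), x ∈ Subgroup.zpowers a ∧ y ∈ Subgroup.zpowers a ∧
      Ham S ⊥ C₁ x f ∧ Ham S ⊥ C₂ ρ y ∧ (∀ g ∈ C₁, g ∉ C₂) ∧
      ∀ g, g ∈ Subgroup.zpowers a ↔ g ∈ C₁ ∨ g ∈ C₂ := by
  have h0 := orderOf_pos a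
  have hfρ : f⁻¹ * ρ ∈ Subgroup.zpowers a := Subgroup.mul_mem _ (Subgroup.inv_mem _ hf) hρ
  obtain ⟨j, hj, hj'⟩ := mem_zp_iff.1 hfρ
  have hj0 : j ≠ 0 := by
    rintro rfl
    rw [pow_zero, inv_mul_eq_one] at hj'
    exact hne hj'
  have hρ' : ρ = f * a ^ j := by rw [← hj']; group
  have a1 := ((ham_arc haS (orderOf a) pow_ne_of_lt (j - 1) (by omega)).smul f).rev hS
  have a2 := (ham_arc haS (orderOf a) pow_ne_of_lt (orderOf a - 1 - j) (by omega)).smul (f * a ^ j)
  rw [mul_one] at a1 a2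
  rw [← hρ'] at a2
  have hp : ∀ i : ℕ, a ^ i ∈ Subgroup.zpowers a := fun i =>
    Subgroup.pow_mem _ (Subgroup.mem_zpowers a) i
  have hd : ∀ i i' : ℕ, i < orderOf a → i' < orderOf a → a ^ i = a ^ i' → i = i' :=
    fun i i' hi hi' h => pow_injOn_Iio_orderOf hi hi' h
  refine ⟨_, _, f * a ^ (j - 1), ρ * a ^ (orderOf a - 1 - j), Subgroup.mul_mem _ hf (hp _),
    Subgroup.mul_mem _ hρ (hp _), a1, a2, ?_, ?_⟩
  · rintro g ⟨i, hi, hg⟩ ⟨i', hi', hg'⟩
    rw [hρ'] at hg'
    have e1 : a ^ i = a ^ (j + i') := by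
      rw [← hg, pow_add, ← hg']; group
    have := hd i (j + i') (by omega) (by omega) e1
    omega
  · intro g
    simp only [Set.mem_ofPred_eq]
    constructor
    · intro hg
      have : f⁻¹ * g ∈ Subgroup.zpowers a := Subgroup.mul_mem _ (Subgroup.inv_mem _ hf) hg
      obtain ⟨i, hi, hi'⟩ := mem_zp_iff.1 this
      rcases (show i ≤ j - 1 ∨ j ≤ i by omega) with h | h
      · exact Or.inl ⟨i, h, hi'⟩
      · right
        refine ⟨i - j, by omega, ?_⟩
        rw [hρ', mul_inv_rev, mul_assoc, hi', inv_mul_eq_iff_eq_mul, ← pow_add]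
        congr 1
        omega
    · rintro (⟨i, -, hi⟩ | ⟨i, -, hi⟩)
      · have e : g = f * (f⁻¹ * g) := by group
        rw [e, hi]
        exact Subgroup.mul_mem _ hf (hp _)
      · have e : g = ρ * (ρ⁻¹ * g) := by group
        rw [e, hi]
        exact Subgroup.mul_mem _ hρ (hp _)

/-- a path with both ends in the first coset -/
theorem gap0 [Finite G] {S : Set G} (hS : ∀ x ∈ S, x⁻¹ ∈ S) {a z : G} (haS : a ∈ S) (hz : z ∈ S)
    {C : Set G} (hC : ∀ g ∈ C, ∀ h ∈ Subgroup.zpowers a, g * h ∈ C) {y e ρ : G}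
    (h : Ham (DSt a z) (Subgroup.zpowers a) C 1 y) (he : e = a ∨ e = a⁻¹)
    (hρ : y * e * z = ρ) (hρH : ρ ∈ Subgroup.zpowers a) (hρ1 : a ≠ ρ) (hρ2 : a⁻¹ ≠ ρ)
    (hbig : ∃ g ∈ C, g ∉ Subgroup.zpowers a) :
    ∃ x₀ ∈ Subgroup.zpowers a, ∃ y₀ ∈ Subgroup.zpowers a, Ham S ⊥ C x₀ y₀ := by
  have haH : a ∈ Subgroup.zpowers a := Subgroup.mem_zpowers a
  have ends1 : a⁻¹ ∈ Ends S (Subgroup.zpowers a) := inv_mem_ends haS
  have ends2 : a ∈ Ends S (Subgroup.zpowers a) := by
    have := inv_mem_ends (hS a haS)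
    rw [inv_inv, Subgroup.zpowers_inv] at this
    exact this
  have hS' : ∀ s ∈ DSt a z, ∃ e ∈ Ends S (Subgroup.zpowers a), ∃ t ∈ S, s = e * t := by
    rintro s ⟨e, he, hs⟩
    refine ⟨e, ?_, ?_⟩
    · rcases he with rfl | rfl
      · exact ends2
      · exact ends1
    · rcases hs with rfl | rfl
      · exact ⟨z, hz, rfl⟩
      · exact ⟨z⁻¹, hS z hz, rfl⟩
  have heE : e ∈ Ends S (Subgroup.zpowers a) := by
    rcases he with rfl | rfl
    · exact ends2
    · exact ends1
  obtain ⟨p, p1, p2, p3, p4, p5, p6⟩ := h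
  cases p with
  | nil => simp at p5
  | cons x₁ q =>
    have hx₁ : x₁ = 1 := by simpa using p5
    subst hx₁
    cases q with
    | nil =>
      obtain ⟨g, hg, hg'⟩ := hbig
      obtain ⟨k, hk, hk'⟩ := p4 g hg
      rw [List.mem_singleton] at hk
      rw [hk, inv_one, one_mul] at hk'
      exact absurd hk' hg'
    | cons x₂ q =>
      rw [List.isChain_cons_cons] at p1
      obtain ⟨hst, p1⟩ := p1
      rw [List.pairwise_cons] at p2
      obtain ⟨p2a, p2⟩ := p2
      have ptail : Ham (DSt a z) (Subgroup.zpowers a) {g | g ∈ C ∧ g ∉ Subgroup.zpowers a} x₂ y := by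
        refine ⟨x₂ :: q, p1, p2, ?_, ?_, rfl, ?_⟩
        · intro g hg
          refine ⟨p3 g (List.mem_cons_of_mem _ hg), ?_⟩
          have := p2a g hg
          rwa [inv_one, one_mul] at this
        · rintro g ⟨hg, hg'⟩
          obtain ⟨k, hk, hk'⟩ := p4 g hg
          rcases List.mem_cons.1 hk with rfl | hk
          · rw [inv_one, one_mul] at hk'
            exact absurd hk' hg'
          · exact ⟨k, hk, hk'⟩
        · rw [List.getLast?_cons_cons] at p6
          exact p6
      have hl := ptail.lift (by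
        rintro g ⟨hg, hg'⟩ k hk
        refine ⟨hC g hg k hk, fun hgk => hg' ?_⟩
        exact (Subgroup.mul_mem_cancel_right _ hk).1 hgk) hS' heE
      obtain ⟨e₁, he₁, hs₁⟩ := hst
      rw [inv_one, one_mul] at hs₁
      have he₁H : e₁ ∈ Subgroup.zpowers a := by
        rcases he₁ with rfl | rfl
        · exact haH
        · exact Subgroup.inv_mem _ haH
      have he₁ρ : e₁ ≠ ρ := by
        rcases he₁ with rfl | rfl
        · exact hρ1
        · exact hρ2
      obtain ⟨C₁, C₂, x₀, y₀, hx₀, hy₀, k1, k2, k3, k4⟩ := split_cycle hS haS he₁H hρH he₁ρ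
      have h1C : ∀ g ∈ Subgroup.zpowers a, g ∈ C := by
        intro g hg
        have := hC 1 (p3 1 (by simp)) g hg
        rwa [one_mul] at this
      refine ⟨x₀, hx₀, y₀, hy₀, ?_⟩
      have j1 := k1.append hl (by
        rintro x hx w ⟨hw, hw'⟩ hxw
        rw [Subgroup.mem_bot, inv_mul_eq_one] at hxw
        subst hxw
        exact hw' ((k4 x).2 (Or.inl hx))) (by
        rcases hs₁ with hs₁ | hs₁
        · rw [hs₁, inv_mul_cancel_left]; exact hz
        · rw [hs₁, inv_mul_cancel_left]; exact hS z hz)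
      have j2 := j1.append k2 (by
        rintro x (hx | ⟨hx, hx'⟩) w hw hxw
        · rw [Subgroup.mem_bot, inv_mul_eq_one] at hxw
          subst hxw
          exact k3 x hx hw
        · rw [Subgroup.mem_bot, inv_mul_eq_one] at hxw
          subst hxw
          exact hx' ((k4 x).2 (Or.inr hw))) (by
        rw [← hρ, inv_mul_cancel_left]
        exact hz)
      refine j2.congr fun g => ?_
      simp only [Set.mem_union, Set.mem_ofPred_eq]
      constructor
      · rintro ((hg | hg) | hg)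
        · exact h1C g ((k4 g).2 (Or.inl hg))
        · exact hg.1
        · exact h1C g ((k4 g).2 (Or.inr hg))
      · intro hg
        by_cases hgH : g ∈ Subgroup.zpowers a
        · rcases (k4 g).1 hgH with h | h
          · exact Or.inl (Or.inl h)
          · exact Or.inr h
        · exact Or.inl (Or.inr ⟨hg, hgH⟩)

end Pool.Agent.N47.CG
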