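import Pool.Agent.N47.CG.Dual

/-!
# The coset path
-/

set_option autoImplicit false

namespace Pool.Agent.N47.CG

variable {G : Type*} [Group G]

/-- the steps between cosets -/
def DSt (a z : G) : Set G := {g | ∃ e : G, (e = a ∨ e = a⁻¹) ∧ (g = e * z ∨ g = e * z⁻¹)}

theorem coset_mem {H : Subgroup G} {X Y g : G} (h1 : X⁻¹ * g ∈ H) (h2 : Y⁻¹ * g ∈ H) :
    X⁻¹ * Y ∈ H := by
  have := H.mul_mem h1 (H.inv_mem h2)
  have e : X⁻¹ * g * (Y⁻¹ * g)⁻¹ = X⁻¹ * Y := by group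
  rwa [e] at this

namespace DS

variable {L : Type*} [AddCommGroup L] {ι : L → G} {T : L →+ L} {z : G} {ζ : L}

/-- the cosets visited in one phase -/
def R0 (ι : L → G) (z : G) (v w : L) (n : ℕ) : Set G :=
  {g | (∃ k ≤ n, (ι (k • w))⁻¹ * g ∈ Subgroup.zpowers (ι v)) ∨
    ∃ k < n, (ι (k • w - v) * z)⁻¹ * g ∈ Subgroup.zpowers (ι v)}

theorem R0.right {v w : L} {n : ℕ} {g : G} (hg : g ∈ R0 ι z v w n) {x : G}
    (hx : x ∈ Subgroup.zpowers (ι v)) : g * x ∈ R0 ι z v w n := by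
  rcases hg with ⟨k, hk, h1⟩ | ⟨k, hk, h1⟩
  · exact Or.inl ⟨k, hk, by rw [← mul_assoc]; exact Subgroup.mul_mem _ h1 hx⟩
  · exact Or.inr ⟨k, hk, by rw [← mul_assoc]; exact Subgroup.mul_mem _ h1 hx⟩

theorem phase (h : DS ι T z ζ) {v w : L} (hw : w = T v - v) (n : ℕ)
    (h1 : ∀ k : ℕ, 0 < k → k ≤ n → ∀ q : ℤ, k • w ≠ q • v)
    (h2 : ∀ k : ℕ, 0 < k → k ≤ n → ∀ q : ℤ, k • T (T w) ≠ q • v) :
    Ham (DSt (ι v) z) (Subgroup.zpowers (ι v)) (R0 ι z v w n) 1 (ι (n • w)) := by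
  induction n with
  | zero =>
    rw [zero_smul, h.zero]
    apply Ham.single
    · exact Or.inl ⟨0, le_rfl, by rw [zero_smul, h.zero]; simp⟩
    · rintro g (⟨k, hk, hg⟩ | ⟨k, hk, hg⟩)
      · obtain rfl : k = 0 := by omega
        rwa [zero_smul, h.zero] at hg
      · omega
  | succ n ih =>
    have ih' := ih (fun k hk hk' => h1 k hk (by omega)) (fun k hk hk' => h2 k hk (by omega))
    -- one coset in the layer of `z`
    have s1 : Ham (DSt (ι v) z) (Subgroup.zpowers (ι v))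
        {g | (ι (n • w - v) * z)⁻¹ * g ∈ Subgroup.zpowers (ι v)} (ι (n • w - v) * z)
        (ι (n • w - v) * z) :=
      Ham.single _ (by simp) fun g hg => hg
    have s2 : Ham (DSt (ι v) z) (Subgroup.zpowers (ι v))
        {g | (ι ((n + 1) • w))⁻¹ * g ∈ Subgroup.zpowers (ι v)} (ι ((n + 1) • w))
        (ι ((n + 1) • w)) :=
      Ham.single _ (by simp) fun g hg => hg
    -- the separation
    have l1 : ∀ x y : L, (ι x)⁻¹ * (ι y * z) ∈ Subgroup.zpowers (ι v) → False := by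
      intro x y hxy
      have e : (ι x)⁻¹ * (ι y * z) = ι (-x + y) * z ^ (1 : ℤ) := by
        rw [h.add, h.neg, zpow_one, mul_assoc]
      rw [e] at hxy
      have := h.layH hxy
      omega
    have l2 : ∀ x y : L, (ι x * z)⁻¹ * ι y ∈ Subgroup.zpowers (ι v) → False := by
      intro x y hxy
      apply l1 y x
      have := Subgroup.inv_mem _ hxy
      have e : ((ι x * z)⁻¹ * ι y)⁻¹ = (ι y)⁻¹ * (ι x * z) := by group
      rwa [e] at this
    have l3 : ∀ x y : L, (ι x * z)⁻¹ * (ι y * z) ∈ Subgroup.zpowers (ι v) →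
        ∃ q : ℤ, T (T (y - x)) = q • v := by
      intro x y hxy
      have e : (ι x * z)⁻¹ * (ι y * z) = z⁻¹ * ι (y - x) * z := by
        rw [sub_eq_neg_add, h.add, h.neg]; group
      rw [e, h.zconj', h.memH] at hxy
      exact hxy
    have l4 : ∀ x y : L, (ι x)⁻¹ * ι y ∈ Subgroup.zpowers (ι v) → ∃ q : ℤ, y - x = q • v := by
      intro x y hxy
      have e : (ι x)⁻¹ * ι y = ι (y - x) := by
        rw [sub_eq_neg_add, h.add, h.neg]
      rw [e, h.memH] at hxy
      exact hxy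
    have p1 := ih'.append s1 (by
      rintro x hx y hy hxy
      have hx' : (ι (n • w - v) * z)⁻¹ * x ∈ Subgroup.zpowers (ι v) := by
        have := Subgroup.mul_mem _ hy (Subgroup.inv_mem _ hxy)
        have e : (ι (n • w - v) * z)⁻¹ * y * (x⁻¹ * y)⁻¹ = (ι (n • w - v) * z)⁻¹ * x := by group
        rwa [e] at this
      rcases hx with ⟨k, hk, hx⟩ | ⟨k, hk, hx⟩
      · exact l1 _ _ (coset_mem hx hx')
      · obtain ⟨q, hq⟩ := l3 _ _ (coset_mem hx hx')
        apply h2 (n - k) (by omega) (by omega) q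
        rw [← hq]
        have e : n • w - v - (k • w - v) = (n - k) • w := by
          rw [sub_sub_sub_cancel_right, ← Nat.sub_add_cancel hk.le, add_smul, Nat.add_sub_cancel,
            add_sub_cancel_right]
        rw [e, map_nsmul, map_nsmul]) (by
      refine ⟨(ι v)⁻¹, Or.inr rfl, Or.inl ?_⟩
      rw [← mul_assoc, ← h.neg, ← h.add, ← h.neg]
      congr 2
      abel)
    have p2 := p1.append s2 (by
      rintro x hx y hy hxy
      have hx' : (ι ((n + 1) • w))⁻¹ * x ∈ Subgroup.zpowers (ι v) := by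
        have := Subgroup.mul_mem _ hy (Subgroup.inv_mem _ hxy)
        have e : (ι ((n + 1) • w))⁻¹ * y * (x⁻¹ * y)⁻¹ = (ι ((n + 1) • w))⁻¹ * x := by group
        rwa [e] at this
      rcases hx with (⟨k, hk, hx⟩ | ⟨k, hk, hx⟩) | hx
      · obtain ⟨q, hq⟩ := l4 _ _ (coset_mem hx hx')
        apply h1 (n + 1 - k) (by omega) (by omega) q
        rw [← hq, ← Nat.sub_add_cancel (show k ≤ n + 1 by omega), add_smul, Nat.add_sub_cancel,
            add_sub_cancel_right]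
      · exact l2 _ _ (coset_mem hx hx')
      · exact l2 _ _ (coset_mem hx hx')) (by
      refine ⟨ι v, Or.inl rfl, Or.inr ?_⟩
      have e : (ι (n • w - v) * z)⁻¹ * ι ((n + 1) • w) = z⁻¹ * ι (T v) := by
        rw [mul_inv_rev, mul_assoc, ← h.neg, ← h.add]
        congr 2
        rw [hw, succ_nsmul]
        abel
      rw [e, h.zinv, h.T3])
    refine p2.congr fun g => ?_
    constructor
    · rintro (((⟨k, hk, hx⟩ | ⟨k, hk, hx⟩) | hx) | hx)
      · exact Or.inl ⟨k, by omega, hx⟩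
      · exact Or.inr ⟨k, by omega, hx⟩
      · exact Or.inr ⟨n, by omega, hx⟩
      · exact Or.inl ⟨n + 1, le_rfl, hx⟩
    · rintro (⟨k, hk, hx⟩ | ⟨k, hk, hx⟩)
      · rcases (show k ≤ n ∨ k = n + 1 by omega) with h' | rfl
        · exact Or.inl (Or.inl (Or.inl ⟨k, h', hx⟩))
        · exact Or.inr hx
      · rcases (show k < n ∨ k = n by omega) with h' | rfl
        · exact Or.inl (Or.inl (Or.inr ⟨k, h', hx⟩))
        · exact Or.inl (Or.inr hx)

/-- the numerical data -/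
structure Num (T : L →+ L) (ζ v c : L) (m r h : ℕ) : Prop where
  hc : c = ζ - (v + T v + T (T v))
  hζ : ∃ i j : ℤ, ζ = i • v + j • c
  hm : m = 2 * h + 1
  hm1 : ∀ q i j : ℤ, q • T v = i • v + j • c → (m : ℤ) ∣ q
  hm2 : ∃ i j : ℤ, (m : ℤ) • T v = i • v + j • c
  hr0 : 0 < r
  hr1 : ∀ s i : ℤ, s • c = i • v → (r : ℤ) ∣ s
  hr2 : ∃ i : ℤ, (r : ℤ) • c = i • v

theorem lab {v c : L} {m r n : ℕ} (hn : Num T ζ v c m r n) {α β γ s q : ℤ}
    (h : α • (T v - v) + β • (T (T v) - T v) + γ • (v - T (T v)) + s • c = q • v) :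
    (m : ℤ) ∣ α - 2 * β + γ := by
  obtain ⟨i0, j0, hζ⟩ := hn.hζ
  apply hn.hm1 _ (q + α - β * i0 + β - 2 * γ + γ * i0) (-β * j0 + β + γ * j0 - γ - s)
  have h2 : T (T v) = ζ - c - v - T v := by rw [hn.hc]; abel
  rw [h2, hζ] at h
  linear_combination (norm := module) h

end DS

end Pool.Agent.N47.CG
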