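import Pool.Agent.N47.CG.Stage

/-!
# Listing sequences in groups with an abelian subgroup of index two
-/

set_option autoImplicit false

namespace Pool.Agent.N47.CG

open Pool.Agent.R759.HC

variable {G : Type*} [Group G]

theorem ham_of_cyc [Finite G] {B U : Set G} {σ : Equiv.Perm G} (h : CycOn B U σ) {x : G}
    (hx : x ∈ U) : Ham B ⊥ U (σ x) x := by
  classical
  have hex : ∃ n : ℕ, 0 < n ∧ (σ ^ n) x = x :=
    ⟨orderOf σ, orderOf_pos σ, by rw [pow_orderOf_eq_one]; rfl⟩
  obtain ⟨hn0, hn1⟩ := Nat.find_spec hex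
  have hmin := fun j (hj : j < Nat.find hex) => Nat.find_min hex hj
  set n := Nat.find hex
  have hU : ∀ i : ℕ, (σ ^ i) x ∈ U := by
    intro i
    induction i with
    | zero => simpa using hx
    | succ i ih => rw [pow_succ', Equiv.Perm.mul_apply]; exact h.maps _ ih
  refine ⟨(List.range n).map (fun i => (σ ^ (i + 1)) x), ?_, ?_, ?_, ?_, ?_, ?_⟩
  · rw [List.isChain_map, List.isChain_range]
    intro m _
    have := h.step _ (hU (m + 1))
    rw [pow_succ' σ (m + 1), Equiv.Perm.mul_apply]
    exact this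
  · rw [List.pairwise_map]
    refine List.Pairwise.imp_of_mem ?_ (List.pairwise_lt_range (n := n))
    intro i j hi hj hij hmem
    rw [List.mem_range] at hi hj
    rw [Subgroup.mem_bot, inv_mul_eq_one] at hmem
    apply hmin (j - i) (by omega)
    refine ⟨by omega, ?_⟩
    have e : (σ ^ (j + 1)) x = (σ ^ (i + 1)) ((σ ^ (j - i)) x) := by
      rw [← Equiv.Perm.mul_apply, ← pow_add]
      congr 2
      omega
    rw [e] at hmem
    exact ((σ ^ (i + 1)).injective hmem).symm
  · intro g hg
    obtain ⟨i, _, rfl⟩ := List.mem_map.1 hg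
    exact hU _
  · intro y hy
    obtain ⟨k, hk⟩ := h.cyc x hx y hy
    have hpos : (0 : ℤ) < n := by exact_mod_cast hn0
    have h0 := Int.emod_nonneg (k - 1) hpos.ne'
    have h1 := Int.emod_lt_of_pos (k - 1) hpos
    refine ⟨(σ ^ (((k - 1) % n).toNat + 1)) x, List.mem_map.2 ⟨_, List.mem_range.2 (by omega), rfl⟩,
      ?_⟩
    rw [Subgroup.mem_bot, inv_mul_eq_one]
    have h2 : ((((k - 1) % n).toNat + 1 : ℕ) : ℤ) = k + n * (-((k - 1) / n)) := by
      have := Int.emod_add_mul_ediv (k - 1) n
      push_cast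
      rw [Int.toNat_of_nonneg h0]
      have e : (n : ℤ) * (-((k - 1) / n)) = -(n * ((k - 1) / n)) := by ring
      rw [e]
      omega
    rw [← zpow_natCast, h2, zpow_add, zpow_mul, zpow_natCast, Equiv.Perm.mul_apply,
      Equiv.Perm.zpow_apply_eq_self_of_apply_eq_self hn1]
    exact hk
  · rw [List.head?_map, List.head?_range, if_neg hn0.ne']
    simp
  · rw [List.getLast?_map, List.getLast?_range, if_neg hn0.ne']
    simp only [Option.map_some, Option.some.injEq]
    rw [show n - 1 + 1 = n by omega]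
    exact hn1

theorem ends_gen [Finite G] {S B : Set G} (hBS : B ⊆ S) (hB : ∀ x ∈ B, x⁻¹ ∈ B)
    (hN : ∀ h ∈ B, ∀ s ∈ B, h * s * h⁻¹ ∈ B) :
    Subgroup.closure B ≤ Subgroup.closure (Ends S (Subgroup.closure B)) := by
  rcases Nat.lt_or_ge (Nat.card (Subgroup.closure B)) 3 with h3 | h3
  · rw [Subgroup.closure_le]
    intro b hb
    by_cases hb1 : b = 1
    · rw [hb1]; exact Subgroup.one_mem _
    · have hbH : b ∈ Subgroup.closure B := Subgroup.subset_closure hb
      have hall : ∀ g ∈ Subgroup.closure B, g = 1 ∨ g = b := by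
        intro g hg
        by_contra hcon
        push Not at hcon
        have hsub : ({1, b, g} : Set G) ⊆ (Subgroup.closure B : Subgroup G) := by
          rintro x (rfl | rfl | rfl)
          · exact Subgroup.one_mem _
          · exact hbH
          · exact hg
        have h4 := Set.ncard_le_ncard hsub (Set.toFinite _)
        rw [Set.ncard_eq_three.2 ⟨1, b, g, Ne.symm hb1, Ne.symm hcon.1, Ne.symm hcon.2, rfl⟩] at h4
        have h5 : (Subgroup.closure B : Set G).ncard = Nat.card (Subgroup.closure B) := rfl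
        omega
      apply Subgroup.subset_closure
      have h1 : Ham S ⊥ ({1} : Set G) 1 1 := Ham.single S (by simp) (by simp)
      have h2 : Ham S ⊥ ({b} : Set G) b b := Ham.single S (by simp) (by simp)
      have h4 := h1.append h2 (by
        rintro a ha c hc hac
        rw [Set.mem_singleton_iff] at ha hc
        rw [ha, hc, Subgroup.mem_bot] at hac
        simp at hac
        exact hb1 hac) (by simpa using hBS hb)
      refine h4.congr fun v => ?_
      simp only [Set.mem_union, Set.mem_singleton_iff, SetLike.mem_coe]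
      constructor
      · rintro (rfl | rfl)
        · exact Subgroup.one_mem _
        · exact hbH
      · exact hall v
  · obtain ⟨σ, hσ⟩ := self_normal_cyc B hB hN h3
    have key : ∀ x ∈ Subgroup.closure B, (σ x)⁻¹ * x ∈ Ends S (Subgroup.closure B) := by
      intro x hx
      have h1 := (ham_of_cyc hσ hx).smul (σ x)⁻¹
      rw [inv_mul_cancel] at h1
      have hσx : σ x ∈ Subgroup.closure B := hσ.maps x hx
      refine (h1.mono hBS).congr fun v => ?_
      show (σ x)⁻¹⁻¹ * v ∈ Subgroup.closure B ↔ v ∈ Subgroup.closure B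
      rw [inv_inv]
      exact Subgroup.mul_mem_cancel_left _ hσx
    intro y hy
    obtain ⟨k, hk⟩ := (hσ.cyc 1 (Subgroup.one_mem _) y hy).exists_nat_pow_eq
    rw [← hk]
    have hall : ∀ k : ℕ, (σ ^ k) 1 ∈ Subgroup.closure B ∧
        (σ ^ k) 1 ∈ Subgroup.closure (Ends S (Subgroup.closure B)) := by
      intro k
      induction k with
      | zero => exact ⟨Subgroup.one_mem _, Subgroup.one_mem _⟩
      | succ k ih =>
        rw [pow_succ', Equiv.Perm.mul_apply]
        refine ⟨hσ.maps _ ih.1, ?_⟩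
        have e : σ ((σ ^ k) 1) = (σ ^ k) 1 * ((σ ((σ ^ k) 1))⁻¹ * (σ ^ k) 1)⁻¹ := by group
        rw [e]
        exact Subgroup.mul_mem _ ih.2 (Subgroup.inv_mem _ (Subgroup.subset_closure (key _ ih.1)))
    exact (hall k).2

theorem comm_closure {X Y : Set G} (h : ∀ a ∈ X, ∀ b ∈ Y, a * b = b * a) :
    ∀ a ∈ Subgroup.closure X, ∀ b ∈ Subgroup.closure Y, a * b = b * a := by
  have h1 : Subgroup.closure X ≤ Subgroup.centralizer Y := by
    rw [Subgroup.closure_le]
    intro a ha
    rw [SetLike.mem_coe, Subgroup.mem_centralizer_iff]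
    exact fun b hb => (h a ha b hb).symm
  have h2 : Subgroup.closure Y ≤ Subgroup.centralizer (Subgroup.closure X : Set G) := by
    rw [Subgroup.closure_le]
    intro b hb
    rw [SetLike.mem_coe, Subgroup.mem_centralizer_iff]
    intro a ha
    exact ((Subgroup.mem_centralizer_iff.1 (h1 ha)) b hb).symm
  intro a ha b hb
  exact (Subgroup.mem_centralizer_iff.1 (h2 hb)) a ha

theorem main [Finite G] {S : Set G} (hS : ∀ x ∈ S, x⁻¹ ∈ S) (hgen : Subgroup.closure S = ⊤)
    {A : Subgroup G} (hA : A.index = 2)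
    (hHn : ∀ a ∈ A, ∀ h ∈ S ∩ A, a * h * a⁻¹ ∈ Subgroup.closure (S ∩ A))
    (hc : ∀ g : G, ∀ a ∈ S ∩ A, ∀ b ∈ S ∩ A, a * (g * b * g⁻¹) = (g * b * g⁻¹) * a)
    (hcom : ∀ a ∈ A, ∀ b ∈ A, a * b * a⁻¹ * b⁻¹ ∈ Subgroup.normalClosure (S ∩ A)) :
    ∃ s ∈ S, ∃ y, Ham S ⊥ Set.univ s y := by
  classical
  have hAn : A.Normal := Subgroup.normal_of_index_eq_two hA
  -- an element of `S` outside `A`
  obtain ⟨z, hzS, hz⟩ : ∃ z ∈ S, z ∉ A := by
    by_contra hcon
    push Not at hcon
    have h1 : Subgroup.closure S ≤ A := (Subgroup.closure_le _).2 hcon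
    rw [hgen, top_le_iff] at h1
    rw [h1, Subgroup.index_top] at hA
    omega
  have hmm : ∀ a b : G, a ∉ A → b ∉ A → a * b ∈ A := fun a b ha hb => by
    rw [Subgroup.mul_mem_iff_of_index_two hA]
    exact iff_of_false ha hb
  have hzz : z * z ∈ A := hmm z z hz hz
  obtain ⟨H, hH⟩ : ∃ H, H = Subgroup.closure (S ∩ A) := ⟨_, rfl⟩
  obtain ⟨N, hN⟩ : ∃ N, N = Subgroup.normalClosure (S ∩ A) := ⟨_, rfl⟩
  have hHA : H ≤ A := by rw [hH, Subgroup.closure_le]; exact Set.inter_subset_right
  have hHn' : ∀ a ∈ A, ∀ h ∈ H, a * h * a⁻¹ ∈ H := by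
    intro a ha h hh
    rw [hH] at hh ⊢
    induction hh using Subgroup.closure_induction with
    | mem x hx => exact hHn a ha x hx
    | one => simp
    | mul x y _ _ hx hy =>
      have e : a * (x * y) * a⁻¹ = (a * x * a⁻¹) * (a * y * a⁻¹) := by group
      rw [e]
      exact Subgroup.mul_mem _ hx hy
    | inv x _ hx =>
      have e : a * x⁻¹ * a⁻¹ = (a * x * a⁻¹)⁻¹ := by group
      rw [e]
      exact Subgroup.inv_mem _ hx
  have hc1 : ∀ a ∈ H, ∀ b ∈ H, a * b = b * a := by
    rw [hH]
    exact comm_closure fun a ha b hb => by simpa using hc 1 a ha b hb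
  have hc2 : ∀ a ∈ H, ∀ b ∈ H, a * (z * b * z⁻¹) = (z * b * z⁻¹) * a := by
    intro a ha b hb
    have hmem : z * b * z⁻¹ ∈ Subgroup.closure ((fun x => z * x * z⁻¹) '' (S ∩ A)) := by
      rw [hH] at hb
      induction hb using Subgroup.closure_induction with
      | mem x hx => exact Subgroup.subset_closure ⟨x, hx, rfl⟩
      | one => simp
      | mul x y _ _ hx hy =>
        have e : z * (x * y) * z⁻¹ = (z * x * z⁻¹) * (z * y * z⁻¹) := by group
        rw [e]
        exact Subgroup.mul_mem _ hx hy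
      | inv x _ hx =>
        have e : z * x⁻¹ * z⁻¹ = (z * x * z⁻¹)⁻¹ := by group
        rw [e]
        exact Subgroup.inv_mem _ hx
    rw [hH] at ha
    refine comm_closure (X := S ∩ A) (Y := (fun x => z * x * z⁻¹) '' (S ∩ A)) ?_ a ha _ hmem
    rintro a ha _ ⟨b, hb, rfl⟩
    exact hc z a ha b hb
  have hAz : ∀ a ∈ A, z * a * z⁻¹ ∈ A := fun a ha => hAn.conj_mem a ha z
  have hends : H ≤ Subgroup.closure (Ends S H) := by
    rw [hH]
    refine ends_gen Set.inter_subset_left (fun x hx => ⟨hS x hx.1, A.inv_mem hx.2⟩) ?_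
    intro h hh s hs
    have := hc 1 h hh s hs
    simp only [one_mul, inv_one, mul_one] at this
    rw [this, mul_inv_cancel_right]
    exact hs
  obtain ⟨w₀, hw₀, hp₀⟩ := stage1 hHA hHn' hz hzz hAz hc1 hc2 hzS (hS z hzS) hends
  -- description of the normal closure
  have hNA : N ≤ A := by
    rw [hN]
    exact Subgroup.normalClosure_le_normal Set.inter_subset_right
  have hHN : H ≤ N := by
    rw [hH, hN]
    exact Subgroup.closure_le_normalClosure
  have hNn : N.Normal := by rw [hN]; infer_instance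
  have hNmem : ∀ v, v ∈ N ↔ ∃ h ∈ H, ∃ k ∈ H, v = (z * h * z⁻¹) * k := by
    intro v
    constructor
    · intro hv
      let T : Subgroup G :=
        { carrier := {v | ∃ h ∈ H, ∃ k ∈ H, v = (z * h * z⁻¹) * k}
          one_mem' := ⟨1, H.one_mem, 1, H.one_mem, by group⟩
          mul_mem' := by
            rintro _ _ ⟨h, hh, k, hk, rfl⟩ ⟨h', hh', k', hk', rfl⟩
            refine ⟨h * h', H.mul_mem hh hh', k * k', H.mul_mem hk hk', ?_⟩
            have e1 : z * (h * h') * z⁻¹ * (k * k') =
                (z * h * z⁻¹) * ((z * h' * z⁻¹) * k) * k' := by group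
            rw [e1, ← hc2 k hk h' hh']
            simp only [mul_assoc]
          inv_mem' := by
            rintro _ ⟨h, hh, k, hk, rfl⟩
            refine ⟨h⁻¹, H.inv_mem hh, k⁻¹, H.inv_mem hk, ?_⟩
            rw [← hc2 k⁻¹ (H.inv_mem hk) h⁻¹ (H.inv_mem hh)]
            group }
      have hTA : ∀ a ∈ A, ∀ v ∈ T, a * v * a⁻¹ ∈ T := by
        rintro a ha _ ⟨h, hh, k, hk, rfl⟩
        refine ⟨(z⁻¹ * a * z) * h * (z⁻¹ * a * z)⁻¹, ?_, a * k * a⁻¹, hHn' a ha k hk, by group⟩
        apply hHn' _ _ _ hh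
        have := hAn.conj_mem a ha z⁻¹
        rwa [inv_inv] at this
      have hTz : ∀ v ∈ T, z * v * z⁻¹ ∈ T := by
        rintro _ ⟨h, hh, k, hk, rfl⟩
        refine ⟨k, hk, (z * z) * h * (z * z)⁻¹, hHn' _ hzz h hh, ?_⟩
        rw [← hc2 _ (hHn' _ hzz h hh) k hk]
        group
      have hTn : T.Normal := by
        refine ⟨fun v hv g => ?_⟩
        by_cases hg : g ∈ A
        · exact hTA g hg v hv
        · have hg' : z⁻¹ * g ∈ A := hmm _ _ (fun h => hz (by simpa using A.inv_mem h)) hg
          have e : g * v * g⁻¹ = z * ((z⁻¹ * g) * v * (z⁻¹ * g)⁻¹) * z⁻¹ := by group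
          rw [e]
          exact hTz _ (hTA _ hg' v hv)
      have hle : N ≤ T := by
        rw [hN]
        apply Subgroup.normalClosure_le_normal
        intro x hx
        refine ⟨1, H.one_mem, x, ?_, by group⟩
        rw [hH]
        exact Subgroup.subset_closure hx
      exact hle hv
    · rintro ⟨h, hh, k, hk, rfl⟩
      exact N.mul_mem (hNn.conj_mem h (hHN hh) z) (hHN hk)
  -- adding the elements outside `A`
  let D : Set G := {d | d ∈ A ∧ d * z ∈ S}
  have key : ∀ F : Finset G, (F : Set G) ⊆ D → ∃ w ∈ N ⊔ Subgroup.closure (F : Set G),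
      Ham S ⊥ {v | v ∈ N ⊔ Subgroup.closure (F : Set G) ∨
        v * z⁻¹ ∈ N ⊔ Subgroup.closure (F : Set G)} 1 (w * z) := by
    intro F
    induction F using Finset.induction_on with
    | empty =>
      intro _
      rw [Finset.coe_empty, Subgroup.closure_empty, sup_bot_eq]
      refine ⟨w₀, (hNmem w₀).2 hw₀, hp₀.congr fun v => ?_⟩
      show _ ↔ (v ∈ N ∨ v * z⁻¹ ∈ N)
      rw [hNmem, hNmem]
      exact Iff.rfl
    | insert d F _ ih =>
      intro hF
      rw [Finset.coe_insert] at hF ⊢
      have hdD : d ∈ D := hF (Set.mem_insert _ _)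
      have hFD : (F : Set G) ⊆ D := fun x hx => hF (Set.mem_insert_of_mem _ hx)
      obtain ⟨w, hw, hp⟩ := ih hFD
      rw [sup_insert]
      set B := N ⊔ Subgroup.closure (F : Set G) with hB
      have hBA : B ≤ A := by
        rw [hB, sup_le_iff, Subgroup.closure_le]
        exact ⟨hNA, fun x hx => (hFD hx).1⟩
      refine stage2 hBA (fun a ha b hb => ?_) hz hw hdD.1 (hS _ hdD.2) hp
      have e : a * b * a⁻¹ = (a * b * a⁻¹ * b⁻¹) * b := by group
      rw [e]
      refine B.mul_mem (Subgroup.mem_sup_left ?_) hb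
      rw [hN]
      exact hcom a ha b (hBA hb)
  obtain ⟨w, hw, hp⟩ := key (Set.toFinite D).toFinset (by simp)
  rw [Set.Finite.coe_toFinset] at hw hp
  obtain ⟨B, hB⟩ : ∃ B, B = N ⊔ Subgroup.closure D := ⟨_, rfl⟩
  rw [← hB] at hp
  have hNB : N ≤ B := by rw [hB]; exact le_sup_left
  have hDB : ∀ d ∈ D, d ∈ B := fun d hd => by
    rw [hB]; exact Subgroup.mem_sup_right (Subgroup.subset_closure hd)
  have hall : ∀ g : G, g ∈ B ∨ g * z⁻¹ ∈ B := by
    have hstep : ∀ g : G, ∀ t ∈ S, (g ∈ B ∨ g * z⁻¹ ∈ B) → (g * t ∈ B ∨ g * t * z⁻¹ ∈ B) := by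
      intro g t ht hg
      by_cases htA : t ∈ A
      · have htN : t ∈ N := by rw [hN]; exact Subgroup.subset_normalClosure ⟨ht, htA⟩
        rcases hg with hg | hg
        · exact Or.inl (B.mul_mem hg (hNB htN))
        · right
          have e : g * t * z⁻¹ = (g * z⁻¹) * (z * t * z⁻¹) := by group
          rw [e]
          exact B.mul_mem hg (hNB (hNn.conj_mem t htN z))
      · have hz' : z⁻¹ ∉ A := fun h => hz (by simpa using A.inv_mem h)
        rcases hg with hg | hg
        · right
          rw [mul_assoc]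
          exact B.mul_mem hg (hDB _ ⟨hmm _ _ htA hz', by simpa using ht⟩)
        · left
          have e : g * t = (g * z⁻¹) * (t⁻¹ * z⁻¹)⁻¹ := by group
          rw [e]
          refine B.mul_mem hg (B.inv_mem (hDB _ ⟨hmm _ _ (fun h => htA (by
            simpa using A.inv_mem h)) hz', by simpa using hS t ht⟩))
    intro g
    have hg : g ∈ Subgroup.closure S := by rw [hgen]; trivial
    induction hg using Subgroup.closure_induction_right with
    | one => exact Or.inl B.one_mem
    | mul_right x _ y hy ih => exact hstep x y hy ih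
    | mul_inv_cancel x _ y hy ih => exact hstep x y⁻¹ (hS y hy) ih
  have h1 := (hp.congr (D := Set.univ) fun v => ⟨fun _ => trivial, fun _ => hall v⟩).smul z
  refine ⟨z, hzS, z * (w * z), ?_⟩
  rw [mul_one] at h1
  exact h1.congr fun v => ⟨fun _ => trivial, fun _ => trivial⟩

/-- from Hamiltonian paths to listing sequences -/
theorem listing_of_ham [Finite G] {S : Set G} {s y : G} (hs : s ∈ S)
    (h : Ham S ⊥ Set.univ s y) : ∃ a : Fin (Nat.card G) → G, (∀ i, a i ∈ S) ∧
      Function.Injective (fun k : Fin (Nat.card G) => ((List.ofFn a).take (k.val + 1)).prod) := by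
  classical
  have : Fintype G := Fintype.ofFinite G
  obtain ⟨p, p1, p2, -, p4, p5, -⟩ := h
  have hnd : p.Nodup := by
    refine p2.imp fun {a b} hab he => hab ?_
    rw [he]
    simp
  have hlen : p.length = Nat.card G := by
    rw [← List.toFinset_card_of_nodup hnd, Nat.card_eq_fintype_card, ← Finset.card_univ]
    congr 1
    ext g
    simp only [List.mem_toFinset, Finset.mem_univ, iff_true]
    obtain ⟨k, hk, hkg⟩ := p4 g trivial
    rw [Subgroup.mem_bot, inv_mul_eq_one] at hkg
    rwa [← hkg]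
  have h0 : p.getD 0 1 = s := by
    cases p with
    | nil => simp at p5
    | cons x p => simpa using p5
  let a : Fin (Nat.card G) → G := fun i =>
    if i.val = 0 then s else (p.getD (i.val - 1) 1)⁻¹ * p.getD i.val 1
  have hprod : ∀ k, k < Nat.card G → ((List.ofFn a).take (k + 1)).prod = p.getD k 1 := by
    intro k
    induction k with
    | zero =>
      intro hk
      have hk' : 0 < (List.ofFn a).length := by rw [List.length_ofFn]; omega
      rw [List.take_succ_eq_append_getElem hk', List.prod_append, h0]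
      simp [a]
    | succ k ih =>
      intro hk
      have hk' : k + 1 < (List.ofFn a).length := by rw [List.length_ofFn]; omega
      rw [List.take_succ_eq_append_getElem hk', List.prod_append, ih (by omega)]
      simp only [List.getElem_ofFn, List.prod_cons, List.prod_nil, mul_one, a]
      rw [if_neg (by omega), Nat.add_sub_cancel]
      group
  refine ⟨a, fun i => ?_, fun i j hij => ?_⟩
  · by_cases hi : i.val = 0
    · simp only [a, hi, if_true]
      exact hs
    · simp only [a, hi, if_false]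
      have hi2 : i.val < p.length := by rw [hlen]; exact i.isLt
      have h1 := List.isChain_iff_getElem.1 p1 (i.val - 1) (by omega)
      rw [List.getD_eq_getElem _ _ (by omega), List.getD_eq_getElem _ _ hi2]
      have e : i.val - 1 + 1 = i.val := by omega
      simpa [e] using h1
  · simp only [] at hij
    rw [hprod _ i.isLt, hprod _ j.isLt, List.getD_eq_getElem _ _ (by rw [hlen]; exact i.isLt),
      List.getD_eq_getElem _ _ (by rw [hlen]; exact j.isLt)] at hij
    exact Fin.ext ((List.Nodup.getElem_inj_iff hnd).1 hij)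

end Pool.Agent.N47.CG
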