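import Pool.Agent.N47.CG.Window

/-!
# Index three: paths between arbitrary layers
-/

set_option autoImplicit false

namespace Pool.Agent.N47.CG

variable {G : Type*} [Group G]

/-- the standing assumptions on `A`, `B` and `z` if `z ^ 3 ∈ A` -/
structure Stt (S : Set G) (z : G) (A B : Subgroup G) : Prop where
  hS : ∀ x ∈ S, x⁻¹ ∈ S
  hBA : B ≤ A
  hcom : ∀ a ∈ A, ∀ b ∈ A, a * b * a⁻¹ * b⁻¹ ∈ B
  hzB : ∀ k : ℤ, z ^ k ∈ A → z ^ k ∈ B
  hAz : ∀ j : ℤ, ∀ a ∈ A, z ^ j * a * z ^ (-j) ∈ A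
  hBz : ∀ j : ℤ, ∀ b ∈ B, z ^ j * b * z ^ (-j) ∈ B
  h3 : z ^ (3 : ℤ) ∈ A

/-- all pairs of layers -/
def Full (S : Set G) (z : G) (B : Subgroup G) : Prop := ∀ s e : ℤ, PP S z B s e

theorem PP.mod3 {S : Set G} {z : G} {U : Subgroup G} (h3 : z ^ (3 : ℤ) ∈ U) {s e : ℤ}
    (h : PP S z U s e) (k l : ℤ) : PP S z U (s + 3 * k) (e + 3 * l) := by
  obtain ⟨u, hu, hp⟩ := h
  have hk : z ^ (3 * k) ∈ U := by rw [zpow_mul]; exact U.zpow_mem h3 k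
  have hl : z ^ (3 * l) ∈ U := by rw [zpow_mul]; exact U.zpow_mem h3 l
  have h1 := hp.smul (z ^ (3 * k))
  have e1 : z ^ (3 * k) * z ^ s = z ^ (s + 3 * k) := by rw [← zpow_add, add_comm]
  have e2 : z ^ (3 * k) * (u * z ^ e) = (z ^ (3 * k) * u * (z ^ (3 * l))⁻¹) * z ^ (e + 3 * l) := by
    rw [add_comm e, zpow_add]; group
  rw [e1, e2] at h1
  refine ⟨_, U.mul_mem (U.mul_mem hk hu) (U.inv_mem hl), h1.congr fun v => ?_⟩
  show (z ^ (3 * k))⁻¹ * v ∈ Reg z U ↔ v ∈ Reg z U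
  exact Reg.smul (U.inv_mem hk) v

theorem full_of {S : Set G} (hS : ∀ x ∈ S, x⁻¹ ∈ S) {z : G} {B : Subgroup G}
    (hBz : ∀ j : ℤ, ∀ b ∈ B, z ^ j * b * z ^ (-j) ∈ B) (h3 : z ^ (3 : ℤ) ∈ B)
    (h1 : ∃ s k l : ℤ, PP S z B (s + 1 + 3 * k) (s + 3 * l))
    (h2 : ∃ s k l : ℤ, PP S z B (s + 3 * k) (s + 3 * l)) : Full S z B := by
  obtain ⟨s₁, k₁, l₁, p₁⟩ := h1
  obtain ⟨s₂, k₂, l₂, p₂⟩ := h2
  have q₁ : ∀ s, PP S z B (s + 1) s := by
    intro s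
    have h4 := (p₁.mod3 h3 (-k₁) (-l₁)).shift hBz (s - s₁)
    rwa [show s₁ + 1 + 3 * k₁ + 3 * -k₁ + (s - s₁) = s + 1 by ring,
      show s₁ + 3 * l₁ + 3 * -l₁ + (s - s₁) = s by ring] at h4
  have q₂ : ∀ s, PP S z B s s := by
    intro s
    have h4 := (p₂.mod3 h3 (-k₂) (-l₂)).shift hBz (s - s₂)
    rwa [show s₂ + 3 * k₂ + 3 * -k₂ + (s - s₂) = s by ring,
      show s₂ + 3 * l₂ + 3 * -l₂ + (s - s₂) = s by ring] at h4
  intro s e
  obtain ⟨k, hk⟩ : ∃ k : ℤ, e = s + 3 * k ∨ e = s + 1 + 3 * k ∨ e = s - 1 + 3 * k := by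
    refine ⟨(e - s + 1) / 3, ?_⟩
    omega
  rcases hk with rfl | rfl | rfl
  · have := (q₂ s).mod3 h3 0 k
    rwa [mul_zero, add_zero] at this
  · have := ((q₁ s).rev hS).mod3 h3 0 k
    rwa [mul_zero, add_zero] at this
  · have h4 := q₁ (s - 1)
    rw [sub_add_cancel] at h4
    have := h4.mod3 h3 0 k
    rwa [mul_zero, add_zero] at this

section
variable {S : Set G} {z : G} {A B : Subgroup G}

theorem Stt.h3B (h : Stt S z A B) : z ^ (3 : ℤ) ∈ B := h.hzB _ h.h3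

theorem Stt.norm (h : Stt S z A B) {U : Subgroup G} (hBU : B ≤ U) (hUA : U ≤ A) :
    ∀ a ∈ A, ∀ b ∈ U, a * b * a⁻¹ ∈ U := by
  intro a ha b hb
  have e : a * b * a⁻¹ = (a * b * a⁻¹ * b⁻¹) * b := by group
  rw [e]
  exact U.mul_mem (hBU (h.hcom a ha b (hUA hb))) hb

theorem Stt.mapB [Finite G] (h : Stt S z A B) : B.map (MulAut.conj z).toMonoidHom = B := by
  apply map_eq_of_le
  rintro _ ⟨b, hb, rfl⟩
  have := h.hBz 1 b hb
  rw [zpow_one, zpow_neg, zpow_one] at this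
  exact this

theorem Stt.cvA (h : Stt S z A B) {d : G} (hd : d ∈ A) (i : ℤ) : cv z d i ∈ A := h.hAz i d hd

/-- the third conjugate -/
theorem Stt.cv3 (h : Stt S z A B) {d : G} (hd : d ∈ A) {U : Subgroup G} (hBU : B ≤ U)
    (hdU : cv z d 0 ∈ U) : cv z d 3 ∈ U := by
  have h0 : cv z d 0 = d := by unfold cv; simp
  rw [h0] at hdU
  have h1 := h.hcom _ h.h3 _ hd
  have e : cv z d 3 = (z ^ (3 : ℤ) * d * (z ^ (3 : ℤ))⁻¹ * d⁻¹) * d := by
    unfold cv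
    rw [zpow_neg]; group
  rw [e]
  exact U.mul_mem (hBU h1) hdU

/-- the subgroup `B ⟨d, d^z, d^(z^2)⟩` -/
theorem Stt.U3map [Finite G] (h : Stt S z A B) {d : G} (hd : d ∈ A) :
    (U3 z B d 0).map (MulAut.conj z).toMonoidHom ≤ U3 z B d 0 := by
  have h0 : cv z d 0 ∈ U3 z B d 0 :=
    Subgroup.mem_sup_left (Subgroup.mem_sup_left (Subgroup.mem_sup_right (Subgroup.mem_zpowers _)))
  have hB : B ≤ U3 z B d 0 := le_sup_left.trans (le_sup_left.trans le_sup_left)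
  have h3 := h.cv3 hd hB h0
  unfold U3 U2 U1 at h3 ⊢
  rw [Subgroup.map_sup, Subgroup.map_sup, Subgroup.map_sup, h.mapB, map_zp, map_zp, map_zp]
  rw [show (0 : ℤ) + 1 + 1 = 0 + 2 by norm_num, show (0 : ℤ) + 2 + 1 = 3 by norm_num]
  rw [sup_le_iff, sup_le_iff, sup_le_iff, Subgroup.zpowers_le, Subgroup.zpowers_le,
    Subgroup.zpowers_le]
  exact ⟨⟨⟨le_sup_left.trans (le_sup_left.trans le_sup_left),
    Subgroup.mem_sup_left (Subgroup.mem_sup_right (Subgroup.mem_zpowers _))⟩,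
    Subgroup.mem_sup_right (Subgroup.mem_zpowers _)⟩, h3⟩

theorem Stt.U3le (h : Stt S z A B) {d : G} (hd : d ∈ A) : U3 z B d 0 ≤ A := by
  unfold U3 U2 U1
  rw [sup_le_iff, sup_le_iff, sup_le_iff, Subgroup.zpowers_le, Subgroup.zpowers_le,
    Subgroup.zpowers_le]
  exact ⟨⟨⟨h.hBA, h.cvA hd _⟩, h.cvA hd _⟩, h.cvA hd _⟩

/-- one more cyclic factor -/
theorem Stt.fullOuter [Finite G] (h : Stt S z A B) {U : Subgroup G} (hBU : B ≤ U) (hUA : U ≤ A)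
    (hU : Full S z U) {v : G} (hv : v ∈ A) {s e : ℤ} (hstep : (z ^ e)⁻¹ * (v * z ^ s) ∈ S) :
    Full S z (U ⊔ Subgroup.zpowers v) := by
  by_cases hvU : v ∈ U
  · have : U ⊔ Subgroup.zpowers v = U := by
      rw [sup_eq_left, Subgroup.zpowers_le]; exact hvU
    rw [this]
    exact hU
  · exact fun s₀ e₀ => PP.outer hUA (h.norm hBU hUA) (fun k hk => hBU (h.hzB k hk)) hv hvU hstep
      (hU _ _) (hU _ _) (hU _ _)

/-- adding an element if all pairs of layers are available -/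
theorem Stt.addFull [Finite G] (h : Stt S z A B) (hF : Full S z B) {d : G} (hd : d ∈ A)
    (hdS : d ∈ S ∨ d * z ∈ S) : ∃ B' : Subgroup G, B ≤ B' ∧ d ∈ B' ∧ B' ≤ A ∧
      (∀ j : ℤ, ∀ b ∈ B', z ^ j * b * z ^ (-j) ∈ B') ∧ Full S z B' := by
  have hstep : ∀ i : ℤ, ∃ s : ℤ, (z ^ i)⁻¹ * (cv z d i * z ^ s) ∈ S := by
    intro i
    rcases hdS with hdS | hdS
    · refine ⟨i, ?_⟩
      have e : (z ^ i)⁻¹ * (cv z d i * z ^ i) = d := by
        unfold cv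
        rw [zpow_neg]; group
      rw [e]; exact hdS
    · refine ⟨i + 1, ?_⟩
      have e : (z ^ i)⁻¹ * (cv z d i * z ^ (i + 1)) = d * z := by
        unfold cv
        rw [zpow_neg, zpow_add, zpow_one]; group
      rw [e]; exact hdS
  have hd0 : d ∈ U3 z B d 0 := by
    have h0 : cv z d 0 ∈ U3 z B d 0 :=
      Subgroup.mem_sup_left (Subgroup.mem_sup_left
        (Subgroup.mem_sup_right (Subgroup.mem_zpowers _)))
    have e : cv z d 0 = d := by unfold cv; simp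
    rwa [e] at h0
  have l1 : B ≤ U1 z B d 0 := le_sup_left
  have l2 : B ≤ U2 z B d 0 := l1.trans le_sup_left
  have l3 : B ≤ U3 z B d 0 := l2.trans le_sup_left
  have m3 : U3 z B d 0 ≤ A := h.U3le hd
  have m2 : U2 z B d 0 ≤ A := le_sup_left.trans m3
  have m1 : U1 z B d 0 ≤ A := le_sup_left.trans m2
  refine ⟨U3 z B d 0, l3, hd0, m3, inv_of_map (map_eq_of_le (h.U3map hd)), ?_⟩
  obtain ⟨s0, k0⟩ := hstep 0
  obtain ⟨s1, k1⟩ := hstep (0 + 1)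
  obtain ⟨s2, k2⟩ := hstep (0 + 2)
  exact h.fullOuter l2 m2 (h.fullOuter l1 m1 (h.fullOuter le_rfl h.hBA hF (h.cvA hd 0) k0)
    (h.cvA hd _) k1) (h.cvA hd _) k2

/-- the first element outside `A` -/
theorem Stt.first [Finite G] (h : Stt S z A B) (hP : ∀ s : ℤ, PP S z B (s + 1) s) {d : G}
    (hd : d ∈ A) (hdS : d * z ∈ S) (hdB : d ∉ B) : ∃ B' : Subgroup G, B ≤ B' ∧ d ∈ B' ∧ B' ≤ A ∧
      (∀ j : ℤ, ∀ b ∈ B', z ^ j * b * z ^ (-j) ∈ B') ∧ Full S z B' := by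
  have st : Stg S z A B d :=
    { hS := h.hS
      hBA := h.hBA
      hcom := h.hcom
      hzB := h.hzB
      hAz := h.hAz
      hBz := h.hBz
      hd := hd
      hdS := hdS
      hP := hP }
  have hc0 : cv z d 0 = d := by unfold cv; simp
  have k0 : cv z d 0 ∉ B := by rwa [hc0]
  have dU1 : d ∈ U1 z B d 0 := by
    have : cv z d 0 ∈ U1 z B d 0 := Subgroup.mem_sup_right (Subgroup.mem_zpowers _)
    rwa [hc0] at this
  have fin : ∀ B' : Subgroup G, B ≤ B' → d ∈ B' → B' ≤ A →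
      B'.map (MulAut.conj z).toMonoidHom ≤ B' →
      (∃ s k l : ℤ, PP S z B' (s + 1 + 3 * k) (s + 3 * l)) →
      (∃ s k l : ℤ, PP S z B' (s + 3 * k) (s + 3 * l)) →
      ∃ B' : Subgroup G, B ≤ B' ∧ d ∈ B' ∧ B' ≤ A ∧
        (∀ j : ℤ, ∀ b ∈ B', z ^ j * b * z ^ (-j) ∈ B') ∧ Full S z B' := by
    intro B' h1 h2 h4 h5 h6 h7
    have h8 := inv_of_map (map_eq_of_le h5)
    exact ⟨B', h1, h2, h4, h8, full_of h.hS h8 (h1 h.h3B) h6 h7⟩
  by_cases k1 : cv z d 1 ∈ U1 z B d 0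
  · refine fin (U1 z B d 0) (st.U1le 0).1 dU1 (st.U1le 0).2 ?_ ⟨0, 0, 0, ?_⟩ ⟨2, -1, 0, ?_⟩
    · rw [st.mapU1, show (0 : ℤ) + 1 = 1 by norm_num]
      exact sup_le (st.U1le 0).1 (by rw [Subgroup.zpowers_le]; exact k1)
    · exact st.P1 k0 (Or.inr (by norm_num)) (Or.inl (by norm_num))
    · exact st.P1 k0 (Or.inl (by norm_num)) (Or.inr (by norm_num))
  obtain ⟨n1, n2⟩ := st.notB k0
  obtain ⟨m1, m2⟩ := st.notU1 k1
  have dU2 : d ∈ U2 z B d 0 := Subgroup.mem_sup_left dU1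
  have k1' : cv z d (0 + 1) ∉ U1 z B d 0 := by
    rw [show (0 : ℤ) + 1 = 1 by norm_num]; exact k1
  by_cases k2 : cv z d 2 ∈ U2 z B d 0
  · refine fin (U2 z B d 0) (st.U2le 0).1 dU2 (st.U2le 0).2 ?_ ⟨1, 0, 0, ?_⟩ ⟨2, 0, -1, ?_⟩
    · rw [st.mapU2, show (0 : ℤ) + 1 = 1 by norm_num]
      refine sup_le (sup_le (st.U2le 0).1 ?_) ?_
      · rw [Subgroup.zpowers_le]
        exact Subgroup.mem_sup_right (Subgroup.mem_zpowers _)
      · rw [Subgroup.zpowers_le, show (1 : ℤ) + 1 = 2 by norm_num]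
        exact k2
    · exact st.P2r k0 k1' (Or.inr (by norm_num)) (Or.inr (by norm_num))
    · exact st.P2r k0 k1' (Or.inr (by norm_num)) (Or.inl (by norm_num))
  have l0 := st.notU2 k2
  have dU3 : d ∈ U3 z B d 0 := Subgroup.mem_sup_left dU2
  have hp3 : ∀ s e : ℤ, (s = 0 + 1 ∨ s = 0 + 3) → (e = 0 ∨ e = 0 + 2 ∨ e = 0 + 4) →
      PP S z (U3 z B d 0) s e := fun s e hs he =>
    st.P3 (i := 0) (by simpa using n1) (by simpa using n2) (by simpa using m1)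
      (by simpa using m2) (by simpa using l0) hs he
  exact fin (U3 z B d 0) (st.U3le 0).1 dU3 (st.U3le 0).2 (h.U3map hd)
    ⟨0, 0, 0, hp3 _ _ (Or.inl (by norm_num)) (Or.inl (by norm_num))⟩
    ⟨0, 1, 0, hp3 _ _ (Or.inr (by norm_num)) (Or.inl (by norm_num))⟩

end

end Pool.Agent.N47.CG
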