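import Mathlib

/-!
# Hamiltonian paths in cosets
-/

set_option autoImplicit false

namespace Pool.Agent.N47.CG

variable {G : Type*} [Group G]

/-- there is a path from `x` to `y` with steps in `S` which visits only points of `C`, at most once
in every left coset of `K`, and exactly once if the coset meets `C` -/
def Ham (S : Set G) (K : Subgroup G) (C : Set G) (x y : G) : Prop :=
  ∃ p : List G, p.IsChain (fun g h => g⁻¹ * h ∈ S) ∧ p.Pairwise (fun g h => g⁻¹ * h ∉ K) ∧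
    (∀ g ∈ p, g ∈ C) ∧ (∀ g ∈ C, ∃ h ∈ p, h⁻¹ * g ∈ K) ∧ p.head? = some x ∧ p.getLast? = some y

theorem Ham.congr {S : Set G} {K : Subgroup G} {C D : Set G} {x y : G} (h : Ham S K C x y)
    (hC : ∀ v, v ∈ C ↔ v ∈ D) : Ham S K D x y := by
  have : C = D := Set.ext hC
  rwa [this] at h

theorem Ham.mono {S T : Set G} {K : Subgroup G} {C : Set G} {x y : G} (h : Ham S K C x y)
    (hST : S ⊆ T) : Ham T K C x y := by
  obtain ⟨p, h1, h2, h3, h4, h5, h6⟩ := h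
  exact ⟨p, h1.imp fun _ _ h => hST h, h2, h3, h4, h5, h6⟩

theorem Ham.single (S : Set G) {K : Subgroup G} {C : Set G} {x : G} (hx : x ∈ C)
    (h : ∀ g ∈ C, x⁻¹ * g ∈ K) : Ham S K C x x :=
  ⟨[x], by simp, by simp, by simpa using hx, fun g hg => ⟨x, by simp, h g hg⟩, rfl, rfl⟩

theorem Ham.append {S : Set G} {K : Subgroup G} {C D : Set G} {x y z w : G}
    (h1 : Ham S K C x y) (h2 : Ham S K D z w) (hd : ∀ a ∈ C, ∀ b ∈ D, a⁻¹ * b ∉ K)
    (hs : y⁻¹ * z ∈ S) : Ham S K (C ∪ D) x w := by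
  obtain ⟨p, p1, p2, p3, p4, p5, p6⟩ := h1
  obtain ⟨q, q1, q2, q3, q4, q5, q6⟩ := h2
  refine ⟨p ++ q, ?_, ?_, ?_, ?_, ?_, ?_⟩
  · rw [List.isChain_append]
    refine ⟨p1, q1, ?_⟩
    rw [p6, q5]
    rintro a ha b hb
    simp only [Option.mem_def, Option.some.injEq] at ha hb
    rw [← ha, ← hb]
    exact hs
  · rw [List.pairwise_append]
    exact ⟨p2, q2, fun a ha b hb => hd a (p3 a ha) b (q3 b hb)⟩
  · intro g hg
    rcases List.mem_append.1 hg with h | h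
    · exact Or.inl (p3 g h)
    · exact Or.inr (q3 g h)
  · rintro g (hg | hg)
    · obtain ⟨h, h1, h2⟩ := p4 g hg
      exact ⟨h, List.mem_append.2 (Or.inl h1), h2⟩
    · obtain ⟨h, h1, h2⟩ := q4 g hg
      exact ⟨h, List.mem_append.2 (Or.inr h1), h2⟩
  · rw [List.head?_append, p5]; rfl
  · rw [List.getLast?_append, q6]; rfl

theorem Ham.smul {S : Set G} {K : Subgroup G} {C : Set G} {x y : G} (h : Ham S K C x y) (u : G) :
    Ham S K {v | u⁻¹ * v ∈ C} (u * x) (u * y) := by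
  obtain ⟨p, p1, p2, p3, p4, p5, p6⟩ := h
  have e : ∀ a b : G, (u * a)⁻¹ * (u * b) = a⁻¹ * b := fun a b => by group
  refine ⟨p.map (u * ·), ?_, ?_, ?_, ?_, ?_, ?_⟩
  · rw [List.isChain_map]
    exact p1.imp fun a b h => by rw [e]; exact h
  · rw [List.pairwise_map]
    exact p2.imp fun h => by rw [e]; exact h
  · intro g hg
    obtain ⟨a, ha, rfl⟩ := List.mem_map.1 hg
    show u⁻¹ * (u * a) ∈ C
    rw [inv_mul_cancel_left]
    exact p3 a ha
  · intro g hg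
    obtain ⟨a, ha, h1⟩ := p4 _ hg
    refine ⟨u * a, List.mem_map.2 ⟨a, ha, rfl⟩, ?_⟩
    rw [mul_inv_rev, mul_assoc]
    exact h1
  · rw [List.head?_map, p5]; rfl
  · rw [List.getLast?_map, p6]; rfl

theorem Ham.iterate {S : Set G} {K : Subgroup G} {C : Set G} {x y : G} (h : Ham S K C x y) (u : G)
    (hs : y⁻¹ * (u * x) ∈ S) (m : ℕ)
    (hd : ∀ i j, i < j → j ≤ m → ∀ a, (u ^ i)⁻¹ * a ∈ C → ∀ b, (u ^ j)⁻¹ * b ∈ C → a⁻¹ * b ∉ K) :
    Ham S K {v | ∃ i ≤ m, (u ^ i)⁻¹ * v ∈ C} x (u ^ m * y) := by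
  induction m with
  | zero =>
    have := h.congr (D := {v | ∃ i ≤ 0, (u ^ i)⁻¹ * v ∈ C}) (by
      intro v
      constructor
      · intro hv; exact ⟨0, le_rfl, by simpa using hv⟩
      · rintro ⟨i, hi, hv⟩
        obtain rfl : i = 0 := by omega
        simpa using hv)
    simpa using this
  | succ m ih =>
    have h1 := ih fun i j hij hj => hd i j hij (by omega)
    have h2 := h.smul (u ^ (m + 1))
    have h3 := h1.append h2 (by
      rintro a ⟨i, hi, ha⟩ b hb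
      exact hd i (m + 1) (by omega) le_rfl a ha b hb) (by
      have e : (u ^ m * y)⁻¹ * (u ^ (m + 1) * x) = y⁻¹ * (u * x) := by
        rw [pow_succ]; group
      rw [e]
      exact hs)
    refine h3.congr fun v => ⟨?_, ?_⟩
    · rintro (⟨i, hi, hv⟩ | hv)
      · exact ⟨i, by omega, hv⟩
      · exact ⟨m + 1, le_rfl, hv⟩
    · rintro ⟨i, hi, hv⟩
      rcases (show i ≤ m ∨ i = m + 1 by omega) with h | rfl
      · exact Or.inl ⟨i, h, hv⟩
      · exact Or.inr hv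

/-- the cosets of `B` in `B ⊔ ⟨d⟩` -/
theorem coset_union [Finite G] {A B : Subgroup G} (hN : ∀ a ∈ A, ∀ b ∈ B, a * b * a⁻¹ ∈ B) {d : G}
    (hd : d ∈ A) : ∃ n : ℕ, 0 < n ∧ (∀ i, 0 < i → i < n → d ^ i ∉ B) ∧
      ∀ v, v ∈ B ⊔ Subgroup.zpowers d ↔ ∃ i < n, (d ^ i)⁻¹ * v ∈ B := by
  classical
  have hex : ∃ n : ℕ, 0 < n ∧ d ^ n ∈ B :=
    ⟨orderOf d, orderOf_pos d, by rw [pow_orderOf_eq_one]; exact B.one_mem⟩
  obtain ⟨hn1, hn2⟩ := Nat.find_spec hex
  have hmin := fun j (hj : j < Nat.find hex) => Nat.find_min hex hj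
  set n := Nat.find hex
  refine ⟨n, hn1, fun i h1 h2 h3 => hmin i h2 ⟨h1, h3⟩, fun v => ⟨?_, ?_⟩⟩
  · intro hv
    -- the subgroup of the products
    let Q : Subgroup G :=
      { carrier := {v | ∃ k : ℤ, d ^ k * v ∈ B}
        one_mem' := ⟨0, by simp⟩
        mul_mem' := by
          rintro v w ⟨k, hk⟩ ⟨l, hl⟩
          refine ⟨l + k, ?_⟩
          have e : d ^ (l + k) * (v * w) = (d ^ l * (d ^ k * v) * (d ^ l)⁻¹) * (d ^ l * w) := by
            rw [zpow_add]; group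
          rw [e]
          exact B.mul_mem (hN _ (A.zpow_mem hd l) _ hk) hl
        inv_mem' := by
          rintro v ⟨k, hk⟩
          refine ⟨-k, ?_⟩
          have e : d ^ (-k) * v⁻¹ = d ^ (-k) * (d ^ k * v)⁻¹ * (d ^ (-k))⁻¹ := by group
          rw [e]
          exact hN _ (A.zpow_mem hd _) _ (B.inv_mem hk) }
    have hQ : B ⊔ Subgroup.zpowers d ≤ Q := by
      rw [sup_le_iff]
      constructor
      · intro b hb
        exact ⟨0, by simpa using hb⟩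
      · rw [Subgroup.zpowers_le]
        exact ⟨-1, by simp⟩
    obtain ⟨k, hk⟩ := hQ hv
    have hn0 : (n : ℤ) ≠ 0 := by exact_mod_cast hn1.ne'
    have hpos : (0 : ℤ) < n := by exact_mod_cast hn1
    refine ⟨((-k) % n).toNat, ?_, ?_⟩
    · have := Int.emod_lt_of_pos (-k) hpos
      omega
    · have h0 := Int.emod_nonneg (-k) hn0
      have h1 : (((-k) % n).toNat : ℤ) = (-k) % n := Int.toNat_of_nonneg h0
      rw [← zpow_natCast, h1]
      have h2 : (-k) % n = -k - n * ((-k) / n) := by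
        have := Int.emod_add_mul_ediv (-k) n
        omega
      have e : (d ^ ((-k) % n : ℤ))⁻¹ * v = (d ^ n) ^ ((-k) / n) * (d ^ k * v) := by
        rw [h2, ← zpow_natCast, ← zpow_mul, ← zpow_neg, ← mul_assoc, ← zpow_add]
        congr 2
        ring
      rw [e]
      exact B.mul_mem (B.zpow_mem hn2 _) hk
  · rintro ⟨i, hi, hv⟩
    have e : v = d ^ i * ((d ^ i)⁻¹ * v) := by group
    rw [e]
    exact Subgroup.mul_mem _ (Subgroup.pow_mem _ (Subgroup.mem_sup_right (Subgroup.mem_zpowers d)) i)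
      (Subgroup.mem_sup_left hv)

theorem shift_mem {A B : Subgroup G} (hN : ∀ a ∈ A, ∀ b ∈ B, a * b * a⁻¹ ∈ B) {d w : G}
    (hd : d ∈ A) (hw : w ∈ B) (i : ℕ) : ∃ b ∈ B, (w * d) ^ i = d ^ i * b := by
  induction i with
  | zero => exact ⟨1, B.one_mem, by simp⟩
  | succ i ih =>
    obtain ⟨b, hb, e⟩ := ih
    refine ⟨d⁻¹ * (b * w) * d⁻¹⁻¹, hN _ (A.inv_mem hd) _ (B.mul_mem hb hw), ?_⟩
    rw [pow_succ, e, pow_succ]
    group

theorem shift_iff {A B : Subgroup G} (hN : ∀ a ∈ A, ∀ b ∈ B, a * b * a⁻¹ ∈ B) {d w : G}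
    (hd : d ∈ A) (hw : w ∈ B) (i : ℕ) (v : G) :
    ((w * d) ^ i)⁻¹ * v ∈ B ↔ (d ^ i)⁻¹ * v ∈ B := by
  obtain ⟨b, hb, e⟩ := shift_mem hN hd hw i
  rw [e, mul_inv_rev, mul_assoc]
  exact Subgroup.mul_mem_cancel_left _ (B.inv_mem hb)

end Pool.Agent.N47.CG
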