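import Pool.Agent.N47.CG.Window

/-!
# Groups generated by two cosets of an abelian section
-/

set_option autoImplicit false

namespace Pool.Agent.N47.CG

variable {G : Type*} [Group G]

/-- Cayley–Hamilton: an endomorphism of an abelian group generated by four elements -/
theorem cayley_hamilton {M : Type*} [AddCommGroup M] (T : Finset M) (hT : AddSubgroup.closure (T : Set M) = ⊤)
    (h4 : T.card ≤ 4) (f : M →+ M) (v : M) :
    f (f (f (f v))) ∈ AddSubgroup.closure ({v, f v, f (f v), f (f (f v))} : Set M) := by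
  classical
  have hspan : Submodule.span ℤ (T : Set M) = ⊤ := by
    rw [← Submodule.toAddSubgroup_inj, Submodule.span_int_eq_addSubgroupClosure, hT]
    rfl
  have hfin : Module.Finite ℤ M := ⟨⟨T, hspan⟩⟩
  obtain ⟨p, hp, hdeg, hpf⟩ :=
    LinearMap.exists_monic_and_natDegree_eq_and_aeval_eq_zero ℤ (f.toIntLinearMap : Module.End ℤ M)
  have hle : p.natDegree ≤ 4 := by
    rw [hdeg]
    have h1 : (⊤ : Submodule ℤ M).spanFinrank ≤ T.card := by
      rw [← hspan]
      exact Submodule.spanFinrank_span_le_ncard_of_finite (Finset.finite_toSet T) |>.trans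
        (by rw [Set.ncard_coe_finset])
    exact h1.trans h4
  obtain ⟨F, hF⟩ : ∃ F : Module.End ℤ M, F = (f.toIntLinearMap : Module.End ℤ M) := ⟨_, rfl⟩
  rw [← hF] at hpf
  have hFf : ∀ x, F x = f x := fun x => by rw [hF]; rfl
  set C := AddSubgroup.closure ({v, f v, f (f v), f (f (f v))} : Set M) with hC
  have hmem : ∀ i, i < 4 → (F ^ i) v ∈ C := by
    intro i hi
    interval_cases i
    · simpa using AddSubgroup.subset_closure (by simp : v ∈ ({v, f v, f (f v), f (f (f v))} : Set M))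
    · simp only [pow_one, hFf]
      exact AddSubgroup.subset_closure (by simp)
    · simp only [pow_succ, pow_zero, one_mul, Module.End.mul_apply, hFf]
      exact AddSubgroup.subset_closure (by simp)
    · simp only [pow_succ, pow_zero, one_mul, Module.End.mul_apply, hFf]
      exact AddSubgroup.subset_closure (by simp)
  have e4 : f (f (f (f v))) = (F ^ 4) v := by
    simp only [pow_succ, pow_zero, one_mul, Module.End.mul_apply, hFf]
  rw [e4]
  -- the recurrence
  have hz : (F ^ (4 - p.natDegree) * Polynomial.aeval F p) v = 0 := by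
    rw [hpf, mul_zero]; rfl
  rw [Polynomial.aeval_eq_sum_range, Finset.sum_range_succ, hp.coeff_natDegree, one_smul, mul_add,
    ← pow_add, Nat.sub_add_cancel hle, LinearMap.add_apply, add_comm] at hz
  rw [eq_neg_of_add_eq_zero_left hz]
  refine C.neg_mem ?_
  rw [Finset.mul_sum, LinearMap.sum_apply]
  refine C.sum_mem fun i hi => ?_
  rw [mul_smul_comm, LinearMap.smul_apply, ← pow_add]
  refine C.zsmul_mem (hmem _ ?_) _
  rw [Finset.mem_range] at hi
  omega


theorem ch_mul {M : Type*} [Group M] (hc : ∀ a b : M, a * b = b * a) (T : Finset M)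
    (hT : Subgroup.closure (T : Set M) = ⊤) (h4 : T.card ≤ 4) (f : M →* M) (v : M) :
    f (f (f (f v))) ∈ Subgroup.closure ({v, f v, f (f v), f (f (f v))} : Set M) := by
  classical
  let inst : CommGroup M := { ‹Group M› with mul_comm := hc }
  have h1 := cayley_hamilton (M := Additive M) (T.map (Additive.ofMul : M ≃ Additive M).toEmbedding)
    (by
      rw [← Subgroup.toAddSubgroup.injective.eq_iff] at hT
      rw [Subgroup.toAddSubgroup_closure] at hT
      rw [Finset.coe_map]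
      have e1 : (Additive.ofMul : M ≃ Additive M).toEmbedding '' (T : Set M) =
          Additive.toMul ⁻¹' (T : Set M) :=
        (Additive.ofMul : M ≃ Additive M).image_eq_preimage_symm _
      rw [e1, hT]
      rfl) (by rw [Finset.card_map]; exact h4) (MonoidHom.toAdditive f) (Additive.ofMul v)
  have h2 : Subgroup.toAddSubgroup (Subgroup.closure ({v, f v, f (f v), f (f (f v))} : Set M)) =
      AddSubgroup.closure ({Additive.ofMul v, Additive.ofMul (f v), Additive.ofMul (f (f v)),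
        Additive.ofMul (f (f (f v)))} : Set (Additive M)) := by
    rw [Subgroup.toAddSubgroup_closure]
    congr 1
  have h3 : Additive.ofMul (f (f (f (f v)))) ∈
      Subgroup.toAddSubgroup (Subgroup.closure ({v, f v, f (f v), f (f (f v))} : Set M)) := by
    rw [h2]
    exact h1
  exact h3


theorem deg_of_gen {A N : Subgroup G} [A.Normal] [N.Normal] (hNA : N ≤ A)
    (hcom : ∀ a ∈ A, ∀ b ∈ A, a * b * a⁻¹ * b⁻¹ ∈ N) (T : Finset G) (h4 : T.card ≤ 4)
    (hT : A = N ⊔ Subgroup.closure (T : Set G)) {z d : G} (hd : d ∈ A) :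
    z ^ 4 * d * (z ^ 4)⁻¹ ∈ N ⊔ Subgroup.closure {x | ∃ i : ℕ, i < 4 ∧ x = z ^ i * d * (z ^ i)⁻¹} := by
  classical
  let N' : Subgroup A := N.subgroupOf A
  have hN' : N'.Normal := inferInstance
  let f₀ : A →* A := (MulAut.conjNormal z : A ≃* A).toMonoidHom
  have hf₀ : ∀ x : A, ((f₀ x : A) : G) = z * x * z⁻¹ := fun x => MulAut.conjNormal_apply z x
  let f : A ⧸ N' →* A ⧸ N' := QuotientGroup.map N' N' f₀ (by
    intro x hx
    rw [Subgroup.mem_comap, Subgroup.mem_subgroupOf, hf₀]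
    exact ‹N.Normal›.conj_mem _ hx z)
  have hf : ∀ x : A, f (x : A ⧸ N') = ((f₀ x : A) : A ⧸ N') := fun x => rfl
  have hc : ∀ a b : A ⧸ N', a * b = b * a := by
    intro a b
    induction a using QuotientGroup.induction_on with
    | H a =>
      induction b using QuotientGroup.induction_on with
      | H b =>
        rw [← QuotientGroup.mk_mul, ← QuotientGroup.mk_mul, QuotientGroup.eq, Subgroup.mem_subgroupOf]
        have := hcom _ (A.inv_mem b.2) _ (A.inv_mem a.2)
        have e : (((a * b)⁻¹ * (b * a) : A) : G) = (b : G)⁻¹ * (a : G)⁻¹ * (b : G)⁻¹⁻¹ * (a : G)⁻¹⁻¹ := by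
          push_cast
          group
        rw [e]
        exact this
  have hTA : ∀ t ∈ T, t ∈ A := fun t ht => by
    rw [hT]
    exact Subgroup.mem_sup_right (Subgroup.subset_closure ht)
  let T' : Finset (A ⧸ N') := T.attach.image fun t => ((⟨t.1, hTA t.1 t.2⟩ : A) : A ⧸ N')
  have hT'card : T'.card ≤ 4 := by
    refine Finset.card_image_le.trans ?_
    rw [Finset.card_attach]
    exact h4
  have hT' : Subgroup.closure (T' : Set (A ⧸ N')) = ⊤ := by
    rw [eq_top_iff]
    rintro x -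
    induction x using QuotientGroup.induction_on with
    | H a =>
      let P : Subgroup A := (Subgroup.closure (T' : Set (A ⧸ N'))).comap (QuotientGroup.mk' N')
      have hP : A ≤ P.map A.subtype := by
        intro y hy
        rw [hT] at hy
        refine (sup_le ?_ ?_ : N ⊔ Subgroup.closure (T : Set G) ≤ P.map A.subtype) hy
        · intro n hn
          refine ⟨⟨n, hNA hn⟩, ?_, rfl⟩
          show QuotientGroup.mk' N' ⟨n, hNA hn⟩ ∈ Subgroup.closure (T' : Set (A ⧸ N'))
          have : QuotientGroup.mk' N' ⟨n, hNA hn⟩ = 1 := by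
            rw [QuotientGroup.mk'_apply, QuotientGroup.eq_one_iff]
            exact hn
          rw [this]
          exact Subgroup.one_mem _
        · rw [Subgroup.closure_le]
          intro t ht
          refine ⟨⟨t, hTA t ht⟩, ?_, rfl⟩
          show QuotientGroup.mk' N' ⟨t, hTA t ht⟩ ∈ Subgroup.closure (T' : Set (A ⧸ N'))
          apply Subgroup.subset_closure
          rw [Finset.mem_coe, Finset.mem_image]
          exact ⟨⟨t, ht⟩, Finset.mem_attach _ _, rfl⟩
      obtain ⟨b, hb, hb'⟩ := hP a.2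
      have : b = a := Subtype.ext hb'
      rw [this] at hb
      exact hb
  have key := ch_mul hc T' hT' hT'card f ((⟨d, hd⟩ : A) : A ⧸ N')
  simp only [hf] at key
  set W : Subgroup G := N ⊔ Subgroup.closure {x | ∃ i : ℕ, i < 4 ∧ x = z ^ i * d * (z ^ i)⁻¹} with hW
  have hNW : N ≤ W := le_sup_left
  have hWm : ∀ i : ℕ, i < 4 → z ^ i * d * (z ^ i)⁻¹ ∈ W := fun i hi =>
    Subgroup.mem_sup_right (Subgroup.subset_closure ⟨i, hi, rfl⟩)
  let R : Subgroup (A ⧸ N') := (W.subgroupOf A).map (QuotientGroup.mk' N')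
  have hRm : ∀ x : A, (x : A ⧸ N') ∈ R → (x : G) ∈ W := by
    rintro x ⟨y, hy, hyx⟩
    rw [QuotientGroup.mk'_apply, QuotientGroup.eq, Subgroup.mem_subgroupOf] at hyx
    have hy' : (y : G) ∈ W := hy
    have e : (x : G) = y * ((y⁻¹ * x : A) : G) := by push_cast; group
    rw [e]
    exact W.mul_mem hy' (hNW hyx)
  have hRi : ∀ x : A, (x : G) ∈ W → (x : A ⧸ N') ∈ R := fun x hx => ⟨x, hx, rfl⟩
  have e4 := hRm _ ((Subgroup.closure_le R).2 (by
    rintro _ (rfl | rfl | rfl | rfl)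
    · apply hRi
      have := hWm 0 (by norm_num)
      simpa using this
    · apply hRi
      rw [hf₀]
      have := hWm 1 (by norm_num)
      simpa using this
    · apply hRi
      rw [hf₀, hf₀]
      have := hWm 2 (by norm_num)
      have e : z * (z * d * z⁻¹) * z⁻¹ = z ^ 2 * d * (z ^ 2)⁻¹ := by
        rw [pow_two, mul_inv_rev]; simp only [mul_assoc]
      rw [e]
      exact this
    · apply hRi
      rw [hf₀, hf₀, hf₀]
      have := hWm 3 (by norm_num)
      have e : z * (z * (z * d * z⁻¹) * z⁻¹) * z⁻¹ = z ^ 3 * d * (z ^ 3)⁻¹ := by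
        rw [pow_succ, pow_two, mul_inv_rev, mul_inv_rev]; simp only [mul_assoc]
      rw [e]
      exact this) key)
  rw [hf₀, hf₀, hf₀, hf₀] at e4
  have e : z ^ 4 * d * (z ^ 4)⁻¹ = z * (z * (z * (z * d * z⁻¹) * z⁻¹) * z⁻¹) * z⁻¹ := by
    rw [pow_succ, pow_succ, pow_two, mul_inv_rev, mul_inv_rev, mul_inv_rev]
    simp only [mul_assoc]
  rw [e]
  exact e4

theorem deg_of_index [Finite G] {A N : Subgroup G}
    (hcom : ∀ a ∈ A, ∀ b ∈ A, a * b * a⁻¹ * b⁻¹ ∈ N) (h4 : A.index ≤ 4) [A.Normal] {z d : G}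
    (hd : d ∈ A) :
    z ^ 4 * d * (z ^ 4)⁻¹ ∈ N ⊔ Subgroup.closure {x | ∃ i : ℕ, i < 4 ∧ x = z ^ i * d * (z ^ i)⁻¹} := by
  obtain ⟨k, hk0, hk, hkA⟩ := Subgroup.exists_pow_mem_of_index_ne_zero
    (Subgroup.index_ne_zero_of_finite (H := A)) z
  set W : Subgroup G := N ⊔ Subgroup.closure {x | ∃ i : ℕ, i < 4 ∧ x = z ^ i * d * (z ^ i)⁻¹} with hW
  have hWm : ∀ i : ℕ, i < 4 → z ^ i * d * (z ^ i)⁻¹ ∈ W := fun i hi =>
    Subgroup.mem_sup_right (Subgroup.subset_closure ⟨i, hi, rfl⟩)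
  have key : ∀ i j : ℕ, i + j = 4 → i < 4 → z ^ j ∈ A → z ^ 4 * d * (z ^ 4)⁻¹ ∈ W := by
    intro i j hij hi hj
    have hdi : z ^ i * d * (z ^ i)⁻¹ ∈ A := ‹A.Normal›.conj_mem d hd _
    have h1 := hcom _ hj _ hdi
    have e : z ^ 4 * d * (z ^ 4)⁻¹ =
        (z ^ j * (z ^ i * d * (z ^ i)⁻¹) * (z ^ j)⁻¹ * (z ^ i * d * (z ^ i)⁻¹)⁻¹) *
          (z ^ i * d * (z ^ i)⁻¹) := by
      have : z ^ 4 = z ^ j * z ^ i := by rw [← pow_add]; congr 1; omega
      rw [this]
      group
    rw [e]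
    exact W.mul_mem (Subgroup.mem_sup_left h1) (hWm i hi)
  have hk4 : k ≤ 4 := hk.trans h4
  interval_cases k
  · refine key 0 4 rfl (by norm_num) ?_
    have := A.pow_mem hkA 4
    rwa [← pow_mul] at this
  · refine key 0 4 rfl (by norm_num) ?_
    have := A.pow_mem hkA 2
    rwa [← pow_mul] at this
  · exact key 1 3 rfl (by norm_num) hkA
  · exact key 0 4 rfl (by norm_num) hkA


theorem U4_mono {z d : G} {B C : Subgroup G} (h : B ≤ C) (i : ℤ) : U4 z B d i ≤ U4 z C d i := by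
  unfold U4 U3 U2 U1
  exact sup_le_sup_right (sup_le_sup_right (sup_le_sup_right (sup_le_sup_right h _) _) _) _

theorem cv_nat (z d : G) (i : ℕ) : cv z d (i : ℤ) = z ^ i * d * (z ^ i)⁻¹ := by
  unfold cv
  rw [zpow_neg, zpow_natCast]

theorem deg_U4 {z d : G} {N : Subgroup G} (h : z ^ 4 * d * (z ^ 4)⁻¹ ∈
    N ⊔ Subgroup.closure {x | ∃ i : ℕ, i < 4 ∧ x = z ^ i * d * (z ^ i)⁻¹}) :
    cv z d 4 ∈ U4 z N d 0 := by
  have h1 : cv z d 4 = z ^ 4 * d * (z ^ 4)⁻¹ := cv_nat z d 4
  rw [h1]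
  refine (sup_le ?_ ?_ : N ⊔ Subgroup.closure {x | ∃ i : ℕ, i < 4 ∧ x = z ^ i * d * (z ^ i)⁻¹} ≤
    U4 z N d 0) h
  · exact le_sup_left.trans (le_sup_left.trans (le_sup_left.trans le_sup_left))
  · rw [Subgroup.closure_le]
    rintro x ⟨i, hi, rfl⟩
    rw [← cv_nat]
    interval_cases i
    · exact Subgroup.mem_sup_left (Subgroup.mem_sup_left (Subgroup.mem_sup_left
        (Subgroup.mem_sup_right (Subgroup.mem_zpowers _))))
    · exact Subgroup.mem_sup_left (Subgroup.mem_sup_left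
        (Subgroup.mem_sup_right (Subgroup.mem_zpowers _)))
    · exact Subgroup.mem_sup_left (Subgroup.mem_sup_right (Subgroup.mem_zpowers _))
    · exact Subgroup.mem_sup_right (Subgroup.mem_zpowers _)

/-- the first path -/
theorem base [Finite G] {S : Set G} {A N : Subgroup G} [A.Normal] [N.Normal] (hNA : N ≤ A)
    {z y : G} (hz : z ∈ S) (hy : y ∈ N) (hp : Ham S ⊥ N 1 y) :
    PP S z ((N ⊔ Subgroup.zpowers z) ⊓ A) 0 (-1) := by
  obtain ⟨n, hn0, hn1, hn2⟩ := coset_union (A := ⊤) (B := N)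
    (fun a _ b hb => ‹N.Normal›.conj_mem b hb a) (d := z) trivial
  have hsh : ∀ (i : ℕ) (v : G), ((y * z) ^ i)⁻¹ * v ∈ N ↔ (z ^ i)⁻¹ * v ∈ N :=
    fun i v => shift_iff (A := ⊤) (fun a _ b hb => ‹N.Normal›.conj_mem b hb a) trivial hy i v
  have h1 := hp.iterate (y * z) (by simpa using hz) (n - 1) (by
    intro i j hij hj a ha b hb hab
    rw [Subgroup.mem_bot, inv_mul_eq_one] at hab
    subst hab
    have ha' := (hsh i a).1 ha
    have hb' := (hsh j a).1 hb
    apply hn1 (j - i) (by omega) (by omega)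
    have e : z ^ (j - i) = ((z ^ i)⁻¹ * a) * ((z ^ j)⁻¹ * a)⁻¹ := by
      have : z ^ (j - i) = (z ^ i)⁻¹ * z ^ j := by
        rw [eq_inv_mul_iff_mul_eq, ← pow_add]
        congr 1
        omega
      rw [this]
      group
    rw [e]
    exact N.mul_mem ha' (N.inv_mem hb'))
  -- the order of `z` modulo `N`
  have hzn : z ^ n ∈ N := by
    have hmem : z ^ n ∈ N ⊔ Subgroup.zpowers z :=
      Subgroup.mem_sup_right (Subgroup.pow_mem _ (Subgroup.mem_zpowers z) _)
    obtain ⟨i, hi, hi'⟩ := (hn2 _).1 hmem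
    have e : (z ^ i)⁻¹ * z ^ n = z ^ (n - i) := by
      rw [inv_mul_eq_iff_eq_mul, ← pow_add]
      congr 1
      omega
    rw [e] at hi'
    rcases Nat.eq_zero_or_pos i with rfl | hi0
    · simpa using hi'
    · exact absurd hi' (hn1 (n - i) (by omega) (by omega))
  have hend : (y * z) ^ (n - 1) * y * z ∈ N := by
    have h2 : ((y * z) ^ n)⁻¹ * 1 ∈ N := by
      rw [hsh n 1, mul_one]
      exact N.inv_mem hzn
    rw [mul_one] at h2
    have h3 := N.inv_mem h2
    rw [inv_inv] at h3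
    have e : (y * z) ^ (n - 1) * y * z = (y * z) ^ n := by
      rw [mul_assoc, ← pow_succ]
      congr 1
      omega
    rw [e]
    exact h3
  refine ⟨(y * z) ^ (n - 1) * y * z, ⟨Subgroup.mem_sup_left hend, hNA hend⟩, ?_⟩
  have e0 : (y * z) ^ (n - 1) * y * z * z ^ (-1 : ℤ) = (y * z) ^ (n - 1) * y := by
    rw [zpow_neg, zpow_one, mul_inv_cancel_right]
  rw [zpow_zero, e0]
  refine h1.congr fun g => ?_
  have hzs : ∀ k : ℤ, z ^ k ∈ N ⊔ Subgroup.zpowers z := fun k =>
    Subgroup.mem_sup_right (Subgroup.zpow_mem _ (Subgroup.mem_zpowers z) k)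
  constructor
  · rintro ⟨i, hi, hg⟩
    have hg' := (hsh i g).1 hg
    refine ⟨i, ?_, ?_⟩
    · have e : g * z ^ (-(i : ℤ)) = z ^ (i : ℤ) * ((z ^ i)⁻¹ * g) * z ^ (-(i : ℤ)) := by
        rw [zpow_natCast]; group
      rw [e]
      exact Subgroup.mul_mem _ (Subgroup.mul_mem _ (hzs _) (Subgroup.mem_sup_left hg')) (hzs _)
    · have e : g * z ^ (-(i : ℤ)) = z ^ i * ((z ^ i)⁻¹ * g) * (z ^ i)⁻¹ := by
        rw [zpow_neg, zpow_natCast]; group
      rw [e]
      exact hNA (‹N.Normal›.conj_mem _ hg' _)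
  · rintro ⟨k, hk, -⟩
    have h2 : g ∈ N ⊔ Subgroup.zpowers z := by
      have := Subgroup.mul_mem _ hk (hzs k)
      have e : g * z ^ (-k) * z ^ k = g := by rw [zpow_neg]; group
      rwa [e] at this
    obtain ⟨i, hi, hg⟩ := (hn2 g).1 h2
    exact ⟨i, by omega, (hsh i g).2 hg⟩

end Pool.Agent.N47.CG
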