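import Pool.Agent.N47.CG.StageTwo

/-!
# Adding an element of `A` commuting with `z`
-/

set_option autoImplicit false

namespace Pool.Agent.N47.CG

variable {G : Type*} [Group G]

theorem adj_of {S : Set G} (hS : ∀ x ∈ S, x⁻¹ ∈ S) {z : G} {B : Subgroup G}
    (h3 : z ^ (3 : ℤ) ∈ B) (hP : ∀ s : ℤ, PP S z B (s + 1) s) (s e : ℤ) (h : ¬ (3 : ℤ) ∣ e - s) :
    PP S z B s e := by
  obtain ⟨k, hk⟩ : ∃ k : ℤ, e = s + 1 + 3 * k ∨ e = s - 1 + 3 * k := by
    rcases (show (e - s) % 3 = 1 ∨ (e - s) % 3 = 2 by omega) with h1 | h1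
    · exact ⟨(e - s) / 3, by omega⟩
    · exact ⟨(e - s) / 3 + 1, by omega⟩
  rcases hk with rfl | rfl
  · have := ((hP s).rev hS).mod3 h3 0 k
    rwa [mul_zero, add_zero] at this
  · have h4 := hP (s - 1)
    rw [sub_add_cancel] at h4
    have := h4.mod3 h3 0 k
    rwa [mul_zero, add_zero] at this

theorem conj_all {z : G} {B : Subgroup G} (hBz : ∀ j : ℤ, ∀ b ∈ B, z ^ j * b * z ^ (-j) ∈ B)
    {a : G} (hc : a⁻¹ * (z * a * z⁻¹) ∈ B) (i : ℤ) : a⁻¹ * (z ^ i * a * z ^ (-i)) ∈ B := by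
  have hz1 : ∀ b ∈ B, z * b * z⁻¹ ∈ B := fun b hb => by
    have := hBz 1 b hb
    rwa [zpow_one, zpow_neg, zpow_one] at this
  have hz2 : ∀ b ∈ B, z⁻¹ * b * z ∈ B := fun b hb => by
    have := hBz (-1) b hb
    rwa [neg_neg, zpow_one, zpow_neg, zpow_one] at this
  induction i using Int.induction_on with
  | zero => simp [B.one_mem]
  | succ i ih =>
    have h1 := B.mul_mem hc (hz1 _ ih)
    have e : a⁻¹ * (z ^ ((i : ℤ) + 1) * a * z ^ (-((i : ℤ) + 1))) =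
        a⁻¹ * (z * a * z⁻¹) * (z * (a⁻¹ * (z ^ (i : ℤ) * a * z ^ (-(i : ℤ)))) * z⁻¹) := by
      rw [zpow_neg, zpow_neg, zpow_add, zpow_one]
      rw [show z ^ (i : ℤ) * z = z * z ^ (i : ℤ) from ((Commute.refl z).zpow_left (i : ℤ)).eq]
      group
    rw [e]
    exact h1
  | pred i ih =>
    have h0 : a⁻¹ * (z⁻¹ * a * z) ∈ B := by
      have := B.inv_mem (hz2 _ hc)
      have e : (z⁻¹ * (a⁻¹ * (z * a * z⁻¹)) * z)⁻¹ = a⁻¹ * (z⁻¹ * a * z) := by group
      rwa [e] at this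
    have h1 := B.mul_mem h0 (hz2 _ ih)
    have e : a⁻¹ * (z ^ (-(i : ℤ) - 1) * a * z ^ (-(-(i : ℤ) - 1))) =
        a⁻¹ * (z⁻¹ * a * z) * (z⁻¹ * (a⁻¹ * (z ^ (-(i : ℤ)) * a * z ^ (-(-(i : ℤ))))) * z) := by
      have e1 : z ^ (-(i : ℤ) - 1) = z⁻¹ * z ^ (-(i : ℤ)) := by
        rw [← zpow_neg_one, ← zpow_add]; congr 1; ring
      have e2 : z ^ (-(-(i : ℤ) - 1)) = z ^ (-(-(i : ℤ))) * z := by
        rw [← zpow_add_one]; congr 1; ring
      rw [e1, e2]
      group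
    rw [e]
    exact h1

theorem stage_comm [Finite G] {S : Set G} {z : G} {A B : Subgroup G} (hst : Stt S z A B) {a : G}
    (ha : a ∈ A) (haS : a ∈ S) (haB : a ∉ B) (hP : ∀ s : ℤ, PP S z B (s + 1) s)
    (hc : a⁻¹ * (z * a * z⁻¹) ∈ B) :
    ∃ B' : Subgroup G, B ≤ B' ∧ a ∈ B' ∧ B' ≤ A ∧ (∀ j : ℤ, ∀ b ∈ B', z ^ j * b * z ^ (-j) ∈ B') ∧
      Full S z B' := by
  have hS := hst.hS
  have hBA := hst.hBA
  have h3 := hst.h3B
  have hca := conj_all hst.hBz hc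
  have hN := hst.norm le_rfl hBA
  have hadj := adj_of hS h3 hP
  obtain ⟨n, hn0, hn1, hn2⟩ := coset_union' hN ha
  have hn : 2 ≤ n := by
    by_contra hcon
    have hn' : n = 1 := by omega
    subst hn'
    apply haB
    have := (hn1 1).2 dvd_rfl
    rwa [pow_one] at this
  -- the cosets are disjoint
  have hdis : ∀ i j : ℕ, i < j → j < n → ∀ g, (a ^ i)⁻¹ * g ∈ Reg z B → (a ^ j)⁻¹ * g ∈ Reg z B →
      False := by
    rintro i j hij hj g ⟨k, hk⟩ ⟨l, hl⟩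
    have hA1 := A.mul_mem (A.pow_mem ha i) (hBA hk)
    have hA2 := A.mul_mem (A.pow_mem ha j) (hBA hl)
    have e1 : a ^ i * ((a ^ i)⁻¹ * g * z ^ (-k)) = g * z ^ (-k) := by group
    have e2 : a ^ j * ((a ^ j)⁻¹ * g * z ^ (-l)) = g * z ^ (-l) := by group
    rw [e1] at hA1
    rw [e2] at hA2
    have hz1 : z ^ (k - l) ∈ A := by
      have := A.mul_mem (A.inv_mem hA1) hA2
      have e3 : (g * z ^ (-k))⁻¹ * (g * z ^ (-l)) = z ^ (k - l) := by
        rw [mul_inv_rev, zpow_neg, zpow_neg, inv_inv, zpow_sub]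
        group
      rwa [e3] at this
    have hz2 := hst.hzB _ hz1
    have h5 : a ^ (j - i) ∈ B := by
      have e4 : a ^ (j - i) =
          ((a ^ i)⁻¹ * g * z ^ (-k)) * z ^ (k - l) * ((a ^ j)⁻¹ * g * z ^ (-l))⁻¹ := by
        have e5 : a ^ (j - i) = (a ^ i)⁻¹ * a ^ j := by
          rw [eq_inv_mul_iff_mul_eq, ← pow_add]
          congr 1
          omega
        rw [e5, zpow_sub, zpow_neg, zpow_neg]
        group
      rw [e4]
      exact B.mul_mem (B.mul_mem hk hz2) (B.inv_mem hl)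
    have := Nat.le_of_dvd (by omega) ((hn1 _).1 h5)
    omega
  -- translates
  have htr : ∀ (i : ℕ) (c : G), (a ^ i)⁻¹ * c ∈ B → ∀ g, c⁻¹ * g ∈ Reg z B ↔
      (a ^ i)⁻¹ * g ∈ Reg z B := by
    intro i c hc g
    have e1 : (a ^ i)⁻¹ * g = ((a ^ i)⁻¹ * c) * (c⁻¹ * g) := by group
    rw [e1]
    exact (Reg.smul hc _).symm
  have key : ∀ s₀ : ℤ, ∀ i : ℕ, i < n → ∀ e : ℤ, (i = 0 → ¬ (3 : ℤ) ∣ e - s₀) →
      ∃ c, (a ^ i)⁻¹ * c ∈ B ∧
      Ham S ⊥ {g | ∃ j ≤ i, (a ^ j)⁻¹ * g ∈ Reg z B} (z ^ s₀) (c * z ^ e) := by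
    intro s₀ i
    induction i with
    | zero =>
      intro _ e he
      obtain ⟨u₁, hu₁, p₁⟩ := hadj s₀ e (he rfl)
      refine ⟨u₁, by simpa using hu₁, p₁.congr fun g => ?_⟩
      constructor
      · intro hg; exact ⟨0, le_rfl, by simpa using hg⟩
      · rintro ⟨j, hj, hg⟩
        obtain rfl : j = 0 := by omega
        simpa using hg
    | succ i ih =>
      intro hi e _
      obtain ⟨f, hf1, hf2⟩ : ∃ f : ℤ, ¬ (3 : ℤ) ∣ e - f ∧ ¬ (3 : ℤ) ∣ f - s₀ := by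
        by_cases h : (3 : ℤ) ∣ (e + 1) - s₀
        · exact ⟨e + 2, by omega, by omega⟩
        · exact ⟨e + 1, by omega, h⟩
      obtain ⟨c, hc, hp⟩ := ih (by omega) f (fun _ => hf2)
      obtain ⟨u, hu, q⟩ := hadj f e hf1
      -- the element `z ^ f a z ^ (-f)`
      obtain ⟨v, hv⟩ : ∃ v, v = z ^ f * a * z ^ (-f) := ⟨_, rfl⟩
      have hav : a⁻¹ * v ∈ B := by rw [hv]; exact hca f
      have hc' : (a ^ (i + 1))⁻¹ * (c * v) ∈ B := by
        have e1 : (a ^ (i + 1))⁻¹ * (c * v) = (a⁻¹ * ((a ^ i)⁻¹ * c) * a⁻¹⁻¹) * (a⁻¹ * v) := by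
          rw [pow_succ]; group
        rw [e1]
        exact B.mul_mem (hN _ (A.inv_mem ha) _ hc) hav
      have q' := q.smul (c * v)
      have e2 : c * v * (u * z ^ e) = (c * v * u) * z ^ e := by group
      rw [e2] at q'
      refine ⟨c * v * u, ?_, ?_⟩
      · rw [← mul_assoc]
        exact B.mul_mem hc' hu
      · refine (hp.append q' ?_ ?_).congr fun g => ?_
        · rintro x ⟨j, hj, hx⟩ y hy hxy
          rw [Subgroup.mem_bot, inv_mul_eq_one] at hxy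
          subst hxy
          exact hdis j (i + 1) (by omega) (by omega) x hx ((htr (i + 1) (c * v) hc' x).1 hy)
        · have e3 : (c * z ^ f)⁻¹ * (c * v * z ^ f) = a := by
            rw [hv, zpow_neg]; group
          rw [e3]
          exact haS
        · simp only [Set.mem_union, Set.mem_ofPred_eq]
          constructor
          · rintro (⟨j, hj, hg⟩ | hg)
            · exact ⟨j, by omega, hg⟩
            · exact ⟨i + 1, le_rfl, (htr (i + 1) (c * v) hc' g).1 hg⟩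
          · rintro ⟨j, hj, hg⟩
            rcases (show j ≤ i ∨ j = i + 1 by omega) with h | rfl
            · exact Or.inl ⟨j, h, hg⟩
            · exact Or.inr ((htr (i + 1) (c * v) hc' g).2 hg)
  refine ⟨B ⊔ Subgroup.zpowers a, le_sup_left, Subgroup.mem_sup_right (Subgroup.mem_zpowers a),
    ?_, ?_, ?_⟩
  · rw [sup_le_iff, Subgroup.zpowers_le]
    exact ⟨hBA, ha⟩
  · apply inv_of_map
    apply map_eq_of_le
    rw [Subgroup.map_sup, hst.mapB, MonoidHom.map_zpowers, sup_le_iff, Subgroup.zpowers_le]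
    refine ⟨le_sup_left, ?_⟩
    show z * a * z⁻¹ ∈ _
    have e : z * a * z⁻¹ = a * (a⁻¹ * (z * a * z⁻¹)) := by group
    rw [e]
    exact Subgroup.mul_mem _ (Subgroup.mem_sup_right (Subgroup.mem_zpowers a))
      (Subgroup.mem_sup_left hc)
  · intro s₀ e₀
    obtain ⟨c, hc', hp⟩ := key s₀ (n - 1) (by omega) e₀ (fun h => absurd h (by omega))
    refine ⟨c, ?_, hp.congr fun g => ?_⟩
    · rw [hn2]
      exact ⟨n - 1, by omega, hc'⟩
    · constructor
      · rintro ⟨j, hj, k, hk⟩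
        refine ⟨k, ?_⟩
        rw [hn2]
        exact ⟨j, by omega, by rwa [← mul_assoc]⟩
      · rintro ⟨k, hk⟩
        rw [hn2] at hk
        obtain ⟨j, hj, hk⟩ := hk
        exact ⟨j, by omega, k, by rwa [mul_assoc]⟩

end Pool.Agent.N47.CG
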