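import Pool.Agent.N47.CG.LMain
import Pool.Agent.N47.CG.StageComm

/-!
# The main theorem for index three
-/

set_option autoImplicit false

namespace Pool.Agent.N47.CG

variable {G : Type*} [Group G]

theorem reg_all {S : Set G} (hS : ∀ x ∈ S, x⁻¹ ∈ S) (hgen : Subgroup.closure S = ⊤) {z : G}
    {B : Subgroup G} (hBz : ∀ j : ℤ, ∀ b ∈ B, z ^ j * b * z ^ (-j) ∈ B)
    (h : ∀ s ∈ S, s ∈ B ∨ s * z⁻¹ ∈ B ∨ s * z ∈ B) (g : G) : g ∈ Reg z B := by
  have hstep : ∀ g : G, ∀ t ∈ S, g ∈ Reg z B → g * t ∈ Reg z B := by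
    rintro g t ht ⟨i, hi⟩
    rcases h t ht with h | h | h
    · refine ⟨i, ?_⟩
      have e : g * t * z ^ (-i) = (g * z ^ (-i)) * (z ^ i * t * z ^ (-i)) := by
        rw [zpow_neg]; group
      rw [e]
      exact B.mul_mem hi (hBz i _ h)
    · refine ⟨i + 1, ?_⟩
      have e : g * t * z ^ (-(i + 1)) = (g * z ^ (-i)) * (z ^ i * (t * z⁻¹) * z ^ (-i)) := by
        have : z ^ (-(i + 1)) = z⁻¹ * z ^ (-i) := by
          rw [← zpow_neg_one, ← zpow_add]; congr 1; ring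
        rw [this, zpow_neg]
        group
      rw [e]
      exact B.mul_mem hi (hBz i _ h)
    · refine ⟨i - 1, ?_⟩
      have e : g * t * z ^ (-(i - 1)) = (g * z ^ (-i)) * (z ^ i * (t * z) * z ^ (-i)) := by
        have : z ^ (-(i - 1)) = z * z ^ (-i) := by
          rw [← zpow_one_add]; congr 1; ring
        rw [this, zpow_neg]
        group
      rw [e]
      exact B.mul_mem hi (hBz i _ h)
  have hg : g ∈ Subgroup.closure S := by rw [hgen]; trivial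
  induction hg using Subgroup.closure_induction_right with
  | one => exact ⟨0, by simp [B.one_mem]⟩
  | mul_right x _ y hy ih => exact hstep x y hy ih
  | mul_inv_cancel x _ y hy ih => exact hstep x y⁻¹ (hS y hy) ih

/-- if one has paths between all pairs of layers then one can add everything -/
theorem main_full [Finite G] {S : Set G} (hgen : Subgroup.closure S = ⊤) {z : G} (hz : z ∈ S)
    {A B₁ : Subgroup G} (hcos : ∀ s ∈ S, s ∈ A ∨ s * z⁻¹ ∈ A ∨ s * z ∈ A) (hst : Stt S z A B₁)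
    (hF : Full S z B₁) : ∃ s ∈ S, ∃ y, Ham S ⊥ Set.univ s y := by
  classical
  let Inv : Subgroup G → Prop := fun B => B₁ ≤ B ∧ B ≤ A ∧
    (∀ j : ℤ, ∀ b ∈ B, z ^ j * b * z ^ (-j) ∈ B) ∧ Full S z B
  let D : Set G := {d | ∀ B, Inv B → ∃ B', B ≤ B' ∧ d ∈ B' ∧ Inv B'}
  have key : ∀ F : Finset G, (F : Set G) ⊆ D → ∃ B : Subgroup G, (F : Set G) ⊆ B ∧ Inv B := by
    intro F
    induction F using Finset.induction_on with
    | empty =>
      intro _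
      exact ⟨B₁, by simp, le_rfl, hst.hBA, hst.hBz, hF⟩
    | insert d F _ ih =>
      intro hF
      rw [Finset.coe_insert] at hF ⊢
      have hdD : d ∈ D := hF (Set.mem_insert _ _)
      obtain ⟨B, h1, h2⟩ := ih fun x hx => hF (Set.mem_insert_of_mem _ hx)
      obtain ⟨B', k1, k2, k3⟩ := hdD B h2
      refine ⟨B', ?_, k3⟩
      rw [Set.insert_subset_iff]
      exact ⟨k2, fun x hx => k1 (h1 hx)⟩
  obtain ⟨B, h2, h1, h3, h4, h5⟩ := key (Set.toFinite D).toFinset (by simp)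
  rw [Set.Finite.coe_toFinset] at h2
  have hD : ∀ d ∈ A, (d ∈ S ∨ d * z ∈ S) → d ∈ D := by
    rintro d hd hdS B ⟨h1, h3, h4, h5⟩
    have st : Stt S z A B :=
      { hS := hst.hS
        hBA := h3
        hcom := fun a ha b hb => h1 (hst.hcom a ha b hb)
        hzB := fun k hk => h1 (hst.hzB k hk)
        hAz := hst.hAz
        hBz := h4
        h3 := hst.h3 }
    obtain ⟨B', k1, k2, k3, k4, k5⟩ := st.addFull h5 hd hdS
    exact ⟨B', k1, k2, h1.trans k1, k3, k4, k5⟩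
  have hall : ∀ g, g ∈ Reg z B := reg_all hst.hS hgen h4 fun s hs => by
    rcases hcos s hs with h | h | h
    · exact Or.inl (h2 (hD s h (Or.inl hs)))
    · exact Or.inr (Or.inl (h2 (hD _ h (Or.inr (by simpa using hs)))))
    · right; right
      have hd' : s⁻¹ * z⁻¹ ∈ B := by
        refine h2 (hD _ ?_ (Or.inr (by simpa using hst.hS s hs)))
        have h6 := hst.hAz 1 _ (A.inv_mem h)
        rw [zpow_one, zpow_neg, zpow_one] at h6
        have e : z * (s * z)⁻¹ * z⁻¹ = s⁻¹ * z⁻¹ := by group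
        rwa [e] at h6
      have h7 := h4 (-1) _ (B.inv_mem hd')
      rw [neg_neg, zpow_one, zpow_neg, zpow_one] at h7
      have e : z⁻¹ * (s⁻¹ * z⁻¹)⁻¹ * z = s * z := by group
      rwa [e] at h7
  obtain ⟨u, -, hfin⟩ := h5 1 0
  refine ⟨z, hz, u * z ^ (0 : ℤ), ?_⟩
  rw [zpow_one] at hfin
  exact hfin.congr fun v => ⟨fun _ => trivial, fun _ => hall v⟩

theorem main4 [Finite G] {S : Set G} (hS : ∀ x ∈ S, x⁻¹ ∈ S) (hgen : Subgroup.closure S = ⊤)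
    {A N : Subgroup G} [hAn : A.Normal] [hNn : N.Normal] (hNA : N ≤ A)
    (hcom : ∀ a ∈ A, ∀ b ∈ A, a * b * a⁻¹ * b⁻¹ ∈ N) {x₀ y₀ : G} (hp : Ham S ⊥ N x₀ y₀)
    {z : G} (hz : z ∈ S) (h3A : z ^ (3 : ℤ) ∈ A) (hcos : ∀ s ∈ S, s ∈ A ∨ s * z⁻¹ ∈ A ∨ s * z ∈ A)
    (hex : S ⊆ (N ⊔ Subgroup.zpowers z : Subgroup G) ∨
      (∃ s ∈ S, s ∉ A ∧ s ∉ N ⊔ Subgroup.zpowers z) ∨
      (∃ s ∈ S, s ∈ A ∧ ∀ m : ℕ, s ^ m ∈ N ⊔ Subgroup.zpowers z → Even m) ∨
      (∃ s ∈ S, s ∈ A ∧ s ∉ N ⊔ Subgroup.zpowers z ∧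
        z * s * z⁻¹ * s⁻¹ ∈ N ⊔ Subgroup.zpowers z)) :
    ∃ s ∈ S, ∃ y, Ham S ⊥ Set.univ s y := by
  -- a path of `N` from `1`
  have hx₀ : x₀ ∈ N := by
    obtain ⟨p, p1, p2, p3, p4, p5, p6⟩ := hp
    exact p3 _ (List.mem_of_head? p5)
  have hy₀ : y₀ ∈ N := by
    obtain ⟨p, p1, p2, p3, p4, p5, p6⟩ := hp
    exact p3 _ (List.mem_of_getLast? p6)
  have hp1 : Ham S ⊥ N 1 (x₀⁻¹ * y₀) := by
    have := hp.smul x₀⁻¹
    rw [inv_mul_cancel] at this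
    refine this.congr fun v => ?_
    show x₀⁻¹⁻¹ * v ∈ N ↔ v ∈ N
    rw [inv_inv]
    exact Subgroup.mul_mem_cancel_left _ hx₀
  have hbase := base (A := A) hNA hz (N.mul_mem (N.inv_mem hx₀) hy₀) hp1
  obtain ⟨B₀, hB₀⟩ : ∃ B₀, B₀ = (N ⊔ Subgroup.zpowers z) ⊓ A := ⟨_, rfl⟩
  rw [← hB₀] at hbase
  have hB₀A : B₀ ≤ A := by rw [hB₀]; exact inf_le_right
  have hNB₀ : N ≤ B₀ := by rw [hB₀]; exact le_inf le_sup_left hNA
  have hzs : ∀ k : ℤ, z ^ k ∈ N ⊔ Subgroup.zpowers z := fun k =>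
    Subgroup.mem_sup_right (Subgroup.zpow_mem _ (Subgroup.mem_zpowers z) k)
  have hz1 : z ∈ N ⊔ Subgroup.zpowers z := by simpa using hzs 1
  have hAz : ∀ j : ℤ, ∀ a ∈ A, z ^ j * a * z ^ (-j) ∈ A := fun j a ha => by
    rw [zpow_neg]
    exact hAn.conj_mem a ha _
  have hB₀z : ∀ j : ℤ, ∀ b ∈ B₀, z ^ j * b * z ^ (-j) ∈ B₀ := by
    intro j b hb
    rw [hB₀] at hb ⊢
    exact ⟨Subgroup.mul_mem _ (Subgroup.mul_mem _ (hzs _) hb.1) (hzs _), hAz j b hb.2⟩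
  have hzB₀ : ∀ k : ℤ, z ^ k ∈ A → z ^ k ∈ B₀ := fun k hk => by
    rw [hB₀]
    exact ⟨hzs k, hk⟩
  have hP₀ : ∀ s : ℤ, PP S z B₀ (s + 1) s := by
    intro s
    have := hbase.shift hB₀z (s + 1)
    rwa [show (0 : ℤ) + (s + 1) = s + 1 by ring, show (-1 : ℤ) + (s + 1) = s by ring] at this
  have st : Stt S z A B₀ :=
    { hS := hS
      hBA := hB₀A
      hcom := fun a ha b hb => hNB₀ (hcom a ha b hb)
      hzB := hzB₀
      hAz := hAz
      hBz := hB₀z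
      h3 := h3A }
  have fin : (∃ (d : G) (B' : Subgroup G), B₀ ≤ B' ∧ d ∈ B' ∧ B' ≤ A ∧
      (∀ j : ℤ, ∀ b ∈ B', z ^ j * b * z ^ (-j) ∈ B') ∧ Full S z B') →
      ∃ s ∈ S, ∃ y, Ham S ⊥ Set.univ s y := by
    rintro ⟨-, B', k1, -, k3, k4, k5⟩
    exact main_full hgen hz hcos
      { hS := hS
        hBA := k3
        hcom := fun a ha b hb => k1 (st.hcom a ha b hb)
        hzB := fun k hk => k1 (hzB₀ k hk)
        hAz := hAz
        hBz := k4
        h3 := h3A } k5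
  rcases hex with h | ⟨s, hs, hsA, hsN⟩ | ⟨s, hs, hsA, hev⟩ | ⟨s, hs, hsA, hsN, hsc⟩
  · -- `G = N ⟨z⟩`
    have hall : ∀ g, g ∈ Reg z B₀ := reg_all hS hgen hB₀z fun s hs => by
      have hsN : s ∈ N ⊔ Subgroup.zpowers z := h hs
      rw [hB₀]
      rcases hcos s hs with h | h | h
      · exact Or.inl ⟨hsN, h⟩
      · exact Or.inr (Or.inl ⟨Subgroup.mul_mem _ hsN (Subgroup.inv_mem _ hz1), h⟩)
      · exact Or.inr (Or.inr ⟨Subgroup.mul_mem _ hsN hz1, h⟩)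
    obtain ⟨u, -, hfin⟩ := hP₀ 0
    refine ⟨z, hz, u * z ^ (0 : ℤ), ?_⟩
    rw [zero_add, zpow_one] at hfin
    exact hfin.congr fun v => ⟨fun _ => trivial, fun _ => hall v⟩
  · apply fin
    rcases hcos s hs with h | h | h
    · exact absurd h hsA
    · refine ⟨_, st.first hP₀ h (by simpa using hs) fun hB => hsN ?_⟩
      rw [hB₀] at hB
      have := Subgroup.mul_mem _ hB.1 hz1
      simpa using this
    · have h6 := hAz 1 _ (A.inv_mem h)
      rw [zpow_one, zpow_neg, zpow_one] at h6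
      have e : z * (s * z)⁻¹ * z⁻¹ = s⁻¹ * z⁻¹ := by group
      rw [e] at h6
      refine ⟨_, st.first hP₀ h6 (by simpa using hS s hs) fun hB => hsN ?_⟩
      rw [hB₀] at hB
      have := Subgroup.inv_mem _ (Subgroup.mul_mem _ hB.1 hz1)
      simpa using this
  · apply fin
    refine ⟨_, stage_even st hsA hs hP₀ fun q hq => hev q ?_⟩
    rw [hB₀] at hq
    exact hq.1
  · apply fin
    refine ⟨_, stage_comm st hsA hs (fun hB => hsN ?_) hP₀ ?_⟩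
    · rw [hB₀] at hB
      exact hB.1
    · have h6 : z * s * z⁻¹ * s⁻¹ ∈ B₀ := by
        rw [hB₀]
        refine ⟨hsc, A.mul_mem ?_ (A.inv_mem hsA)⟩
        exact hAn.conj_mem s hsA z
      have h7 := st.norm le_rfl hB₀A _ (A.inv_mem hsA) _ h6
      have e : s⁻¹ * (z * s * z⁻¹ * s⁻¹) * s⁻¹⁻¹ = s⁻¹ * (z * s * z⁻¹) := by group
      rwa [e] at h7

end Pool.Agent.N47.CG
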