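import Pool.Agent.N47.CG.LMain
import Pool.Agent.N47.CG.LMain4

/-!
# The main theorem for two cosets
-/

set_option autoImplicit false

namespace Pool.Agent.N47.CG

variable {G : Type*} [Group G]

theorem main3 [Finite G] {S : Set G} (hS : ∀ x ∈ S, x⁻¹ ∈ S) (hgen : Subgroup.closure S = ⊤)
    {A N : Subgroup G} [hAn : A.Normal] [hNn : N.Normal] (hNA : N ≤ A)
    (hcom : ∀ a ∈ A, ∀ b ∈ A, a * b * a⁻¹ * b⁻¹ ∈ N) {x₀ y₀ : G} (hp : Ham S ⊥ N x₀ y₀)
    {z : G} (hz : z ∈ S) (hcos : ∀ s ∈ S, s ∈ N ∨ s * z⁻¹ ∈ A ∨ s * z ∈ A)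
    (hdeg : ∀ d ∈ A, d * z ∈ S → cv z d 4 ∈ U4 z N d 0) :
    ∃ s ∈ S, ∃ y, Ham S ⊥ Set.univ s y := by
  classical
  -- a path of `N` from `1`
  have hx₀ : x₀ ∈ N := by
    obtain ⟨p, p1, p2, p3, p4, p5, p6⟩ := hp
    exact p3 _ (List.mem_of_head? p5)
  have hy₀ : y₀ ∈ N := by
    obtain ⟨p, p1, p2, p3, p4, p5, p6⟩ := hp
    exact p3 _ (List.mem_of_getLast? p6)
  have hp1 : Ham S ⊥ N 1 (x₀⁻¹ * y₀) := by
    have := hp.smul x₀⁻¹
    rw [inv_mul_cancel] at this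
    refine this.congr fun v => ?_
    show x₀⁻¹⁻¹ * v ∈ N ↔ v ∈ N
    rw [inv_inv]
    exact Subgroup.mul_mem_cancel_left _ hx₀
  have hbase := base (A := A) hNA hz (N.mul_mem (N.inv_mem hx₀) hy₀) hp1
  obtain ⟨B₀, hB₀⟩ : ∃ B₀, B₀ = (N ⊔ Subgroup.zpowers z) ⊓ A := ⟨_, rfl⟩
  rw [← hB₀] at hbase
  have hB₀A : B₀ ≤ A := by rw [hB₀]; exact inf_le_right
  have hNB₀ : N ≤ B₀ := by rw [hB₀]; exact le_inf le_sup_left hNA
  have hzs : ∀ k : ℤ, z ^ k ∈ N ⊔ Subgroup.zpowers z := fun k =>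
    Subgroup.mem_sup_right (Subgroup.zpow_mem _ (Subgroup.mem_zpowers z) k)
  have hAz : ∀ j : ℤ, ∀ a ∈ A, z ^ j * a * z ^ (-j) ∈ A := fun j a ha => by
    rw [zpow_neg]
    exact hAn.conj_mem a ha _
  have hB₀z : ∀ j : ℤ, ∀ b ∈ B₀, z ^ j * b * z ^ (-j) ∈ B₀ := by
    intro j b hb
    rw [hB₀] at hb ⊢
    exact ⟨Subgroup.mul_mem _ (Subgroup.mul_mem _ (hzs _) hb.1) (hzs _), hAz j b hb.2⟩
  have hzB₀ : ∀ k : ℤ, z ^ k ∈ A → z ^ k ∈ B₀ := fun k hk => by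
    rw [hB₀]
    exact ⟨hzs k, hk⟩
  have hP₀ : ∀ s : ℤ, PP S z B₀ (s + 1) s := by
    intro s
    have := hbase.shift hB₀z (s + 1)
    rwa [show (0 : ℤ) + (s + 1) = s + 1 by ring, show (-1 : ℤ) + (s + 1) = s by ring] at this
  -- adding elements
  let Inv : Subgroup G → Prop := fun B => B₀ ≤ B ∧ B ≤ A ∧
    (∀ j : ℤ, ∀ b ∈ B, z ^ j * b * z ^ (-j) ∈ B) ∧ ∀ s : ℤ, PP S z B (s + 1) s
  let D : Set G := {d | ∀ B, Inv B → ∃ B', B ≤ B' ∧ d ∈ B' ∧ Inv B'}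
  have key : ∀ F : Finset G, (F : Set G) ⊆ D → ∃ B : Subgroup G, (F : Set G) ⊆ B ∧ Inv B := by
    intro F
    induction F using Finset.induction_on with
    | empty =>
      intro _
      exact ⟨B₀, by simp, le_rfl, hB₀A, hB₀z, hP₀⟩
    | insert d F _ ih =>
      intro hF
      rw [Finset.coe_insert] at hF ⊢
      have hdD : d ∈ D := hF (Set.mem_insert _ _)
      obtain ⟨B, h1, h2⟩ := ih fun x hx => hF (Set.mem_insert_of_mem _ hx)
      obtain ⟨B', k1, k2, k3⟩ := hdD B h2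
      refine ⟨B', ?_, k3⟩
      rw [Set.insert_subset_iff]
      exact ⟨k2, fun x hx => k1 (h1 hx)⟩
  obtain ⟨B, h2, h1, h3, h4, h5⟩ := key (Set.toFinite D).toFinset (by simp)
  rw [Set.Finite.coe_toFinset] at h2
  -- the elements of `S` in `A z`
  have hD1 : ∀ d ∈ A, d * z ∈ S → d ∈ D := by
    rintro d hd hdS B ⟨h1, h3, h4, h5⟩
    have st : Stg S z A B d :=
      { hS := hS
        hBA := h3
        hcom := fun a ha b hb => h1 (hNB₀ (hcom a ha b hb))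
        hzB := fun k hk => h1 (hzB₀ k hk)
        hAz := hAz
        hBz := h4
        hd := hd
        hdS := hdS
        hP := h5 }
    obtain ⟨B', k1, k2, k3, k4, k5⟩ := st.stage (U4_mono (hNB₀.trans h1) 0 (hdeg d hd hdS))
    exact ⟨B', k1, k2, h1.trans k1, k3, k4, k5⟩
  have hall : ∀ g : G, g ∈ Reg z B := by
    have hstep : ∀ g : G, ∀ t ∈ S, g ∈ Reg z B → g * t ∈ Reg z B := by
      rintro g t ht ⟨i, hi⟩
      have hz1 : ∀ a b : ℤ, z ^ a * z ^ b = z ^ (a + b) := fun a b => (zpow_add z a b).symm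
      rcases hcos t ht with h | h | h
      · refine ⟨i, ?_⟩
        have e : g * t * z ^ (-i) = (g * z ^ (-i)) * (z ^ i * t * (z ^ i)⁻¹) := by
          rw [zpow_neg]; group
        rw [e]
        exact B.mul_mem hi (h1 (hNB₀ (hNn.conj_mem t h _)))
      · have hd : t * z⁻¹ ∈ B := h2 (hD1 _ h (by simpa using ht))
        refine ⟨i + 1, ?_⟩
        have e : g * t * z ^ (-(i + 1)) = (g * z ^ (-i)) * (z ^ i * (t * z⁻¹) * z ^ (-i)) := by
          have : z ^ (-(i + 1)) = z⁻¹ * z ^ (-i) := by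
            rw [← zpow_neg_one, hz1]; congr 1; ring
          rw [this, zpow_neg]
          group
        rw [e]
        exact B.mul_mem hi (h4 i _ hd)
      · have hd' : t⁻¹ * z⁻¹ ∈ B := by
          refine h2 (hD1 _ ?_ (by simpa using hS t ht))
          have h6 := hAn.conj_mem _ (A.inv_mem h) z
          have e : z * (t * z)⁻¹ * z⁻¹ = t⁻¹ * z⁻¹ := by group
          rwa [e] at h6
        refine ⟨i - 1, ?_⟩
        have e : g * t * z ^ (-(i - 1)) =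
            (g * z ^ (-i)) * (z ^ (i - 1) * (t⁻¹ * z⁻¹)⁻¹ * z ^ (-(i - 1))) := by
          have : z ^ (-i) * z ^ (i - 1) = z⁻¹ := by
            rw [← zpow_neg_one, hz1]; congr 1; ring
          calc g * t * z ^ (-(i - 1)) = g * z⁻¹ * (z * t) * z ^ (-(i - 1)) := by group
            _ = g * (z ^ (-i) * z ^ (i - 1)) * (z * t) * z ^ (-(i - 1)) := by rw [this]
            _ = (g * z ^ (-i)) * (z ^ (i - 1) * (t⁻¹ * z⁻¹)⁻¹ * z ^ (-(i - 1))) := by
              rw [mul_inv_rev, inv_inv, inv_inv]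
              simp only [mul_assoc]
        rw [e]
        exact B.mul_mem hi (h4 (i - 1) _ (B.inv_mem hd'))
    intro g
    have hg : g ∈ Subgroup.closure S := by rw [hgen]; trivial
    induction hg using Subgroup.closure_induction_right with
    | one => exact ⟨0, by simp [B.one_mem]⟩
    | mul_right x _ y hy ih => exact hstep x y hy ih
    | mul_inv_cancel x _ y hy ih => exact hstep x y⁻¹ (hS y hy) ih
  obtain ⟨u, -, hfin⟩ := h5 0
  refine ⟨z, hz, u * z ^ (0 : ℤ), ?_⟩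
  rw [zero_add, zpow_one] at hfin
  exact hfin.congr fun v => ⟨fun _ => trivial, fun _ => hall v⟩

end Pool.Agent.N47.CG
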