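import Pool.Agent.N47.CG.Final

/-!
# Hamiltonian paths of the sets `U ⟨z⟩`
-/

set_option autoImplicit false

namespace Pool.Agent.N47.CG

variable {G : Type*} [Group G]

theorem Ham.rev {S : Set G} (hS : ∀ x ∈ S, x⁻¹ ∈ S) {K : Subgroup G} {C : Set G} {x y : G}
    (h : Ham S K C x y) : Ham S K C y x := by
  obtain ⟨p, p1, p2, p3, p4, p5, p6⟩ := h
  refine ⟨p.reverse, ?_, ?_, ?_, ?_, ?_, ?_⟩
  · rw [List.isChain_reverse]
    refine p1.imp fun a b hab => ?_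
    have := hS _ hab
    rwa [mul_inv_rev, inv_inv] at this
  · rw [List.pairwise_reverse]
    refine p2.imp fun {a b} hab hba => hab ?_
    have := K.inv_mem hba
    rwa [mul_inv_rev, inv_inv] at this
  · intro g hg
    exact p3 g (List.mem_reverse.1 hg)
  · intro g hg
    obtain ⟨h, h1, h2⟩ := p4 g hg
    exact ⟨h, List.mem_reverse.2 h1, h2⟩
  · rw [List.head?_reverse]; exact p6
  · rw [List.getLast?_reverse]; exact p5

/-- the set `U ⟨z⟩` -/
def Reg (z : G) (U : Subgroup G) : Set G := {g | ∃ i : ℤ, g * z ^ (-i) ∈ U}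

theorem Reg.smul {z : G} {U : Subgroup G} {u : G} (hu : u ∈ U) (g : G) :
    u * g ∈ Reg z U ↔ g ∈ Reg z U := by
  constructor
  · rintro ⟨i, hi⟩
    rw [mul_assoc] at hi
    exact ⟨i, (Subgroup.mul_mem_cancel_left U hu).1 hi⟩
  · rintro ⟨i, hi⟩
    refine ⟨i, ?_⟩
    rw [mul_assoc]
    exact U.mul_mem hu hi

/-- there is a Hamiltonian path of `U ⟨z⟩` from `z ^ s` to a point of `U z ^ e` -/
def PP (S : Set G) (z : G) (U : Subgroup G) (s e : ℤ) : Prop :=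
  ∃ u ∈ U, Ham S ⊥ (Reg z U) (z ^ s) (u * z ^ e)

theorem PP.rev {S : Set G} (hS : ∀ x ∈ S, x⁻¹ ∈ S) {z : G} {U : Subgroup G} {s e : ℤ}
    (h : PP S z U s e) : PP S z U e s := by
  obtain ⟨u, hu, hp⟩ := h
  have h1 := (hp.rev hS).smul u⁻¹
  rw [inv_mul_cancel_left] at h1
  refine ⟨u⁻¹, U.inv_mem hu, h1.congr fun v => ?_⟩
  show u⁻¹⁻¹ * v ∈ Reg z U ↔ v ∈ Reg z U
  rw [inv_inv]
  exact Reg.smul hu v

/-- shift of the layers -/
theorem PP.shift {S : Set G} {z : G} {B : Subgroup G} (hB : ∀ j : ℤ, ∀ b ∈ B, z ^ j * b * z ^ (-j) ∈ B)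
    {s e : ℤ} (h : PP S z B s e) (j : ℤ) : PP S z B (s + j) (e + j) := by
  obtain ⟨u, hu, hp⟩ := h
  have h1 := hp.smul (z ^ j)
  have e1 : z ^ j * z ^ s = z ^ (s + j) := by rw [← zpow_add, add_comm]
  have e2 : z ^ j * (u * z ^ e) = (z ^ j * u * z ^ (-j)) * z ^ (e + j) := by
    rw [zpow_add, zpow_neg]
    group
  rw [e1, e2] at h1
  refine ⟨_, hB j u hu, h1.congr fun v => ?_⟩
  show (∃ i : ℤ, (z ^ j)⁻¹ * v * z ^ (-i) ∈ B) ↔ ∃ i : ℤ, v * z ^ (-i) ∈ B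
  constructor
  · rintro ⟨i, hi⟩
    refine ⟨i + j, ?_⟩
    have h2 := hB j _ hi
    have e3 : z ^ j * ((z ^ j)⁻¹ * v * z ^ (-i)) * z ^ (-j) = v * z ^ (-(i + j)) := by
      rw [neg_add, zpow_add]
      group
    rwa [e3] at h2
  · rintro ⟨i, hi⟩
    refine ⟨i - j, ?_⟩
    have h2 := hB (-j) _ hi
    have e3 : z ^ (-j) * (v * z ^ (-i)) * z ^ (-(-j)) = (z ^ j)⁻¹ * v * z ^ (-(i - j)) := by
      rw [neg_neg, neg_sub, zpow_sub, zpow_neg, zpow_neg]
      group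
    rwa [e3] at h2

/-- going through the cosets of `U` in `U ⟨v⟩` -/
theorem PP.outer [Finite G] {S : Set G} {z : G} {A U : Subgroup G} (hUA : U ≤ A)
    (hN : ∀ a ∈ A, ∀ b ∈ U, a * b * a⁻¹ ∈ U) (hz : ∀ k : ℤ, z ^ k ∈ A → z ^ k ∈ U) {v : G}
    (hv : v ∈ A) (hvU : v ∉ U) {s₀ e s e₀ : ℤ} (hstep : (z ^ e)⁻¹ * (v * z ^ s) ∈ S)
    (h1 : PP S z U s₀ e) (h2 : PP S z U s e) (h3 : PP S z U s e₀) :
    PP S z (U ⊔ Subgroup.zpowers v) s₀ e₀ := by
  obtain ⟨n, hn0, hn1, hn2⟩ := coset_union hN hv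
  obtain ⟨u₁, hu₁, p₁⟩ := h1
  obtain ⟨u₂, hu₂, p₂⟩ := h2
  obtain ⟨u₃, hu₃, p₃⟩ := h3
  have hn : 2 ≤ n := by
    by_contra hcon
    have hn' : n = 1 := by omega
    subst hn'
    have : v ∈ U ⊔ Subgroup.zpowers v := Subgroup.mem_sup_right (Subgroup.mem_zpowers v)
    rw [hn2] at this
    obtain ⟨i, hi, hi'⟩ := this
    have hi0 : i = 0 := by omega
    subst hi0
    apply hvU
    simpa using hi'
  -- the cosets are disjoint
  have hdis : ∀ i j : ℕ, i < j → j < n → ∀ g, (v ^ i)⁻¹ * g ∈ Reg z U → (v ^ j)⁻¹ * g ∈ Reg z U →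
      False := by
    rintro i j hij hj g ⟨k, hk⟩ ⟨l, hl⟩
    have hA1 := A.mul_mem (A.pow_mem hv i) (hUA hk)
    have hA2 := A.mul_mem (A.pow_mem hv j) (hUA hl)
    have e1 : v ^ i * ((v ^ i)⁻¹ * g * z ^ (-k)) = g * z ^ (-k) := by group
    have e2 : v ^ j * ((v ^ j)⁻¹ * g * z ^ (-l)) = g * z ^ (-l) := by group
    rw [e1] at hA1
    rw [e2] at hA2
    have hz1 : z ^ (k - l) ∈ A := by
      have := A.mul_mem (A.inv_mem hA1) hA2
      have e3 : (g * z ^ (-k))⁻¹ * (g * z ^ (-l)) = z ^ (k - l) := by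
        rw [mul_inv_rev, zpow_neg, zpow_neg, inv_inv, zpow_sub]
        group
      rwa [e3] at this
    have hz2 := hz _ hz1
    apply hn1 (j - i) (by omega) (by omega)
    have e4 : v ^ (j - i) = ((v ^ i)⁻¹ * g * z ^ (-k)) * z ^ (k - l) * ((v ^ j)⁻¹ * g * z ^ (-l))⁻¹ := by
      have e5 : v ^ (j - i) = (v ^ i)⁻¹ * v ^ j := by
        rw [eq_inv_mul_iff_mul_eq, ← pow_add]
        congr 1
        omega
      rw [e5, zpow_sub, zpow_neg, zpow_neg]
      group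
    rw [e4]
    exact U.mul_mem (U.mul_mem hk hz2) (U.inv_mem hl)
  -- translates
  have htr : ∀ (i : ℕ) (c : G), (v ^ i)⁻¹ * c ∈ U → ∀ g, c⁻¹ * g ∈ Reg z U ↔
      (v ^ i)⁻¹ * g ∈ Reg z U := by
    intro i c hc g
    have e1 : (v ^ i)⁻¹ * g = ((v ^ i)⁻¹ * c) * (c⁻¹ * g) := by group
    rw [e1]
    exact (Reg.smul hc _).symm
  -- the first cosets
  have key : ∀ i : ℕ, i + 2 ≤ n → ∃ c, (v ^ i)⁻¹ * c ∈ U ∧
      Ham S ⊥ {g | ∃ j ≤ i, (v ^ j)⁻¹ * g ∈ Reg z U} (z ^ s₀) (c * z ^ e) := by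
    intro i
    induction i with
    | zero =>
      intro _
      refine ⟨u₁, by simpa using hu₁, p₁.congr fun g => ?_⟩
      constructor
      · intro hg; exact ⟨0, le_rfl, by simpa using hg⟩
      · rintro ⟨j, hj, hg⟩
        obtain rfl : j = 0 := by omega
        simpa using hg
    | succ i ih =>
      intro hi
      obtain ⟨c, hc, hp⟩ := ih (by omega)
      have hc' : (v ^ (i + 1))⁻¹ * (c * v) ∈ U := by
        have e1 : (v ^ (i + 1))⁻¹ * (c * v) = v⁻¹ * ((v ^ i)⁻¹ * c) * v⁻¹⁻¹ := by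
          rw [pow_succ]; group
        rw [e1]
        exact hN _ (A.inv_mem hv) _ hc
      have q := p₂.smul (c * v)
      have e2 : c * v * (u₂ * z ^ e) = (c * v * u₂) * z ^ e := by group
      rw [e2] at q
      refine ⟨c * v * u₂, ?_, ?_⟩
      · rw [← mul_assoc]
        exact U.mul_mem hc' hu₂
      · refine (hp.append q ?_ ?_).congr fun g => ?_
        · rintro a ⟨j, hj, ha⟩ b hb hab
          rw [Subgroup.mem_bot, inv_mul_eq_one] at hab
          subst hab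
          exact hdis j (i + 1) (by omega) (by omega) a ha ((htr (i + 1) (c * v) hc' a).1 hb)
        · have e3 : (c * z ^ e)⁻¹ * (c * v * z ^ s) = (z ^ e)⁻¹ * (v * z ^ s) := by group
          rw [e3]
          exact hstep
        · simp only [Set.mem_union, Set.mem_ofPred_eq]
          constructor
          · rintro (⟨j, hj, hg⟩ | hg)
            · exact ⟨j, by omega, hg⟩
            · exact ⟨i + 1, le_rfl, (htr (i + 1) (c * v) hc' g).1 hg⟩
          · rintro ⟨j, hj, hg⟩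
            rcases (show j ≤ i ∨ j = i + 1 by omega) with h | rfl
            · exact Or.inl ⟨j, h, hg⟩
            · exact Or.inr ((htr (i + 1) (c * v) hc' g).2 hg)
  obtain ⟨i, hi⟩ : ∃ i, n = i + 2 := ⟨n - 2, by omega⟩
  obtain ⟨c, hc, hp⟩ := key i (by omega)
  have hc' : (v ^ (i + 1))⁻¹ * (c * v) ∈ U := by
    have e1 : (v ^ (i + 1))⁻¹ * (c * v) = v⁻¹ * ((v ^ i)⁻¹ * c) * v⁻¹⁻¹ := by
      rw [pow_succ]; group
    rw [e1]
    exact hN _ (A.inv_mem hv) _ hc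
  have q := p₃.smul (c * v)
  have e2 : c * v * (u₃ * z ^ e₀) = (c * v * u₃) * z ^ e₀ := by group
  rw [e2] at q
  refine ⟨c * v * u₃, ?_, ?_⟩
  · rw [hn2]
    refine ⟨i + 1, by omega, ?_⟩
    rw [← mul_assoc]
    exact U.mul_mem hc' hu₃
  · refine (hp.append q ?_ ?_).congr fun g => ?_
    · rintro a ⟨j, hj, ha⟩ b hb hab
      rw [Subgroup.mem_bot, inv_mul_eq_one] at hab
      subst hab
      exact hdis j (i + 1) (by omega) (by omega) a ha ((htr (i + 1) (c * v) hc' a).1 hb)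
    · have e3 : (c * z ^ e)⁻¹ * (c * v * z ^ s) = (z ^ e)⁻¹ * (v * z ^ s) := by group
      rw [e3]
      exact hstep
    · have hfin : g ∈ Reg z (U ⊔ Subgroup.zpowers v) ↔ ∃ j < n, (v ^ j)⁻¹ * g ∈ Reg z U := by
        show (∃ k : ℤ, g * z ^ (-k) ∈ U ⊔ Subgroup.zpowers v) ↔ _
        constructor
        · rintro ⟨k, hk⟩
          rw [hn2] at hk
          obtain ⟨j, hj, hk⟩ := hk
          exact ⟨j, hj, k, by rwa [mul_assoc]⟩
        · rintro ⟨j, hj, k, hk⟩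
          refine ⟨k, ?_⟩
          rw [hn2]
          exact ⟨j, hj, by rwa [← mul_assoc]⟩
      rw [hfin]
      simp only [Set.mem_union, Set.mem_ofPred_eq]
      constructor
      · rintro (⟨j, hj, hg⟩ | hg)
        · exact ⟨j, by omega, hg⟩
        · exact ⟨i + 1, by omega, (htr (i + 1) (c * v) hc' g).1 hg⟩
      · rintro ⟨j, hj, hg⟩
        rcases (show j ≤ i ∨ j = i + 1 by omega) with h | rfl
        · exact Or.inl ⟨j, h, hg⟩
        · exact Or.inr ((htr (i + 1) (c * v) hc' g).2 hg)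

end Pool.Agent.N47.CG
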