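import Pool.Agent.N47.CG.LMain3
import Pool.Agent.N47.CG.DualFull
import Pool.Agent.N47.CG.Final

/-!
# From the quotient by `N` to the group
-/

set_option autoImplicit false

namespace Pool.Agent.N47.CG

variable {G : Type*} [Group G]

/-- lifting a walk of the quotient -/
theorem lift_chain {N : Subgroup G} [N.Normal] {S : Set G} {e : G} (he : e ∈ N) :
    ∀ (l : List (G ⧸ N)) (g : G), l.IsChain (fun x y => x⁻¹ * y ∈ (QuotientGroup.mk' N) '' S) →
      l.head? = some (QuotientGroup.mk' N g) →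
      ∃ p : List G, p.map (QuotientGroup.mk' N) = l ∧ p.head? = some g ∧
        p.IsChain (fun x y => x⁻¹ * y ∈ {s | ∃ t ∈ S, s = e * t}) := by
  intro l
  induction l with
  | nil => intro g _ h; simp at h
  | cons a l ih =>
    intro g h1 h2
    have ha : a = QuotientGroup.mk' N g := by simpa using h2
    cases l with
    | nil => exact ⟨[g], by simp [ha], rfl, by simp⟩
    | cons b l =>
      rw [List.isChain_cons_cons] at h1
      obtain ⟨⟨t, ht, htb⟩, h3⟩ := h1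
      have hb : QuotientGroup.mk' N (g * (e * t)) = b := by
        have he1 : QuotientGroup.mk' N e = 1 := (QuotientGroup.eq_one_iff e).2 he
        rw [map_mul, map_mul, he1, one_mul, htb, ← ha, mul_inv_cancel_left]
      obtain ⟨p, p1, p2, p3⟩ := ih (g * (e * t)) h3 (by rw [hb]; rfl)
      refine ⟨g :: p, by rw [List.map_cons, p1, ha], rfl, ?_⟩
      cases p with
      | nil => simp at p2
      | cons c p =>
        have hc : c = g * (e * t) := by simpa using p2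
        rw [List.isChain_cons_cons]
        refine ⟨⟨t, ht, ?_⟩, p3⟩
        rw [hc, inv_mul_cancel_left]

theorem ham_quot [Finite G] {N : Subgroup G} [N.Normal] {S : Set G} {e : G}
    (he : e ∈ Ends S N) {x y : G ⧸ N} (hx : x ∈ (QuotientGroup.mk' N) '' S)
    (h : Ham ((QuotientGroup.mk' N) '' S) ⊥ Set.univ x y) :
    ∃ s ∈ S, ∃ w, Ham S ⊥ Set.univ s w := by
  obtain ⟨s, hs, rfl⟩ := hx
  obtain ⟨l, l1, l2, -, l4, l5, l6⟩ := h
  have heN : e ∈ N := Ends.sub he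
  obtain ⟨p, p1, p2, p3⟩ := lift_chain heN l s l1 l5
  have hp0 : p ≠ [] := by
    rintro rfl
    simp at p2
  refine ⟨s, hs, p.getLast hp0 * e, ?_⟩
  have hH : Ham {s | ∃ t ∈ S, s = e * t} N Set.univ s (p.getLast hp0) := by
    refine ⟨p, p3, ?_, fun _ _ => trivial, fun g _ => ?_, p2, List.getLast?_eq_some_getLast hp0⟩
    · rw [← p1, List.pairwise_map] at l2
      refine l2.imp fun {a b} hab hN => hab ?_
      rw [Subgroup.mem_bot, ← map_inv, ← map_mul]
      exact (QuotientGroup.eq_one_iff _).2 hN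
    · obtain ⟨h, h1, h2⟩ := l4 (QuotientGroup.mk' N g) trivial
      rw [← p1] at h1
      obtain ⟨q, hq, rfl⟩ := List.mem_map.1 h1
      refine ⟨q, hq, ?_⟩
      rw [Subgroup.mem_bot, ← map_inv, ← map_mul] at h2
      exact (QuotientGroup.eq_one_iff _).1 h2
  exact Ham.lift (C := Set.univ) (fun _ _ _ _ => Set.mem_univ _) (by
    rintro s ⟨t, ht, rfl⟩
    exact ⟨e, he, t, ht, rfl⟩) hH he

/-- the first point of a path can be moved to `1` -/
theorem ham_one {S : Set G} {N : Subgroup G} {x₀ y₀ : G} (hp : Ham S ⊥ N x₀ y₀) :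
    x₀⁻¹ * y₀ ∈ Ends S N := by
  have hx₀ : x₀ ∈ N := by
    obtain ⟨p, p1, p2, p3, p4, p5, p6⟩ := hp
    exact p3 _ (List.mem_of_head? p5)
  show Ham S ⊥ N 1 (x₀⁻¹ * y₀)
  have := hp.smul x₀⁻¹
  rw [inv_mul_cancel] at this
  refine this.congr fun v => ?_
  show x₀⁻¹⁻¹ * v ∈ N ↔ v ∈ N
  rw [inv_inv]
  exact Subgroup.mul_mem_cancel_left _ hx₀

theorem ham_of_list {S : Set G} {N : Subgroup G} (h : ∃ p : List G, p.Nodup ∧ (∀ g, g ∈ p ↔ g ∈ N) ∧
    p.IsChain (fun g h => g⁻¹ * h ∈ S)) : ∃ x₀ y₀, Ham S ⊥ N x₀ y₀ := by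
  obtain ⟨p, h1, h2, h3⟩ := h
  have hp0 : p ≠ [] := by
    rintro rfl
    exact absurd ((h2 1).2 N.one_mem) (by simp)
  refine ⟨p.head hp0, p.getLast hp0, p, h3, ?_, fun g hg => (h2 g).1 hg,
    fun g hg => ⟨g, (h2 g).2 hg, by simp⟩, List.head?_eq_some_head hp0,
    List.getLast?_eq_some_getLast hp0⟩
  refine h1.imp fun {a b} hab hbot => hab ?_
  rwa [Subgroup.mem_bot, inv_mul_eq_one] at hbot

section Quot

variable {N A : Subgroup G} [hNn : N.Normal]

theorem mem_map_mk (hNA : N ≤ A) (g : G) :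
    QuotientGroup.mk' N g ∈ A.map (QuotientGroup.mk' N) ↔ g ∈ A := by
  constructor
  · rintro ⟨x, hx, hxg⟩
    have h1 : x⁻¹ * g ∈ N := QuotientGroup.eq.1 hxg
    have := A.mul_mem hx (hNA h1)
    rwa [mul_inv_cancel_left] at this
  · exact fun h => ⟨g, h, rfl⟩

theorem comm_map (hcom : ∀ a ∈ A, ∀ b ∈ A, a * b * a⁻¹ * b⁻¹ ∈ N) :
    ∀ x ∈ A.map (QuotientGroup.mk' N), ∀ y ∈ A.map (QuotientGroup.mk' N), x * y = y * x := by
  rintro _ ⟨a, ha, rfl⟩ _ ⟨b, hb, rfl⟩
  have h1 : QuotientGroup.mk' N (a * b * a⁻¹ * b⁻¹) = 1 := (QuotientGroup.eq_one_iff _).2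
    (hcom a ha b hb)
  rw [map_mul, map_mul, map_mul, map_inv, map_inv, mul_inv_eq_one, mul_inv_eq_iff_eq_mul] at h1
  exact h1

theorem gen_map {S : Set G} (hgen : Subgroup.closure S = ⊤) :
    Subgroup.closure ((QuotientGroup.mk' N) '' S) = ⊤ := by
  rw [← MonoidHom.map_closure, hgen, ← MonoidHom.range_eq_map, MonoidHom.range_eq_top]
  exact QuotientGroup.mk'_surjective N

theorem symm_map {S : Set G} (hS : ∀ x ∈ S, x⁻¹ ∈ S) :
    ∀ x ∈ (QuotientGroup.mk' N) '' S, x⁻¹ ∈ (QuotientGroup.mk' N) '' S := by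
  rintro _ ⟨s, hs, rfl⟩
  exact ⟨s⁻¹, hS s hs, map_inv _ _⟩

theorem sup_zp_iff {z g : G} : g ∈ N ⊔ Subgroup.zpowers z ↔
    QuotientGroup.mk' N g ∈ Subgroup.zpowers (QuotientGroup.mk' N z) := by
  rw [← MonoidHom.map_zpowers, ← Subgroup.mem_comap, Subgroup.comap_map_eq, QuotientGroup.ker_mk',
    sup_comm]

end Quot

/-- index two -/
theorem quot_two [Finite G] {S : Set G} (hS : ∀ x ∈ S, x⁻¹ ∈ S) (hgen : Subgroup.closure S = ⊤)
    {A N : Subgroup G} [hNn : N.Normal] (hNA : N ≤ A)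
    (hcom : ∀ a ∈ A, ∀ b ∈ A, a * b * a⁻¹ * b⁻¹ ∈ N) {x₀ y₀ : G} (hp : Ham S ⊥ N x₀ y₀)
    (h2 : A.index = 2) : ∃ s ∈ S, ∃ y, Ham S ⊥ Set.univ s y := by
  have hi : (A.map (QuotientGroup.mk' N)).index = 2 := by
    rw [Subgroup.index_map_eq _ (QuotientGroup.mk'_surjective N) (by rwa [QuotientGroup.ker_mk']), h2]
  have hc := comm_map (N := N) hcom
  have hAn : (A.map (QuotientGroup.mk' N)).Normal := Subgroup.normal_of_index_eq_two hi
  obtain ⟨s, hs, y, hy⟩ := main (symm_map (N := N) hS) (gen_map hgen) hi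
    (fun a ha b hb => by
      rw [hc a ha b hb.2, mul_inv_cancel_right]
      exact Subgroup.subset_closure hb)
    (fun g a ha b hb => hc a ha.2 _ (hAn.conj_mem b hb.2 g))
    (fun a ha b hb => by
      rw [hc a ha b hb, mul_inv_cancel_right, mul_inv_cancel]
      exact Subgroup.one_mem _)
  exact ham_quot (ham_one hp) hs hy

/-- the three cosets of a normal subgroup of index three -/
theorem cosets_three {A : Subgroup G} [hAn : A.Normal] (h3 : A.index = 3) {z : G} (hzA : z ∉ A)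
    (s : G) : s ∈ A ∨ s * z⁻¹ ∈ A ∨ s * z ∈ A := by
  have hz3 : z ^ 3 ∈ A := by
    rw [← h3]
    exact Subgroup.pow_index_mem A z
  have hcard : Nat.card (G ⧸ A) = 3 := by rw [← h3]; rfl
  have hprime : Fact (Nat.Prime 3) := ⟨by norm_num⟩
  have hz1 : QuotientGroup.mk' A z ≠ 1 := fun h => hzA ((QuotientGroup.eq_one_iff _).1 h)
  have htop := zpowers_eq_top_of_prime_card (p := 3) hcard hz1
  have hs : QuotientGroup.mk' A s ∈ Subgroup.zpowers (QuotientGroup.mk' A z) := by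
    rw [htop]; trivial
  obtain ⟨k, hk⟩ := Subgroup.mem_zpowers_iff.1 hs
  have hmem : ∀ g : G, QuotientGroup.mk' A g = 1 ↔ g ∈ A := fun g => QuotientGroup.eq_one_iff g
  have h1 : QuotientGroup.mk' A z ^ (3 : ℤ) = 1 := by
    rw [show (3 : ℤ) = ((3 : ℕ) : ℤ) by norm_num, zpow_natCast, ← map_pow, hmem]
    exact hz3
  rcases (show k % 3 = 0 ∨ k % 3 = 1 ∨ k % 3 = 2 by omega) with h | h | h
  · left
    rw [← hmem, ← hk]
    have : k = 3 * (k / 3) := by omega
    rw [this, zpow_mul, h1, one_zpow]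
  · right; left
    rw [← hmem, map_mul, map_inv, ← hk]
    have : k = 3 * (k / 3) + 1 := by omega
    rw [this, zpow_add, zpow_mul, h1, one_zpow, one_mul, zpow_one, mul_inv_cancel]
  · right; right
    rw [← hmem, map_mul, ← hk]
    have : k = 3 * (k / 3 + 1) + -1 := by omega
    rw [this, zpow_add, zpow_mul, h1, one_zpow, one_mul, zpow_neg_one, inv_mul_cancel]

/-- index three -/
theorem quot_three [Finite G] {S : Set G} (hS : ∀ x ∈ S, x⁻¹ ∈ S) (hgen : Subgroup.closure S = ⊤)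
    {A N : Subgroup G} [hAn : A.Normal] [hNn : N.Normal] (hNA : N ≤ A)
    (hcom : ∀ a ∈ A, ∀ b ∈ A, a * b * a⁻¹ * b⁻¹ ∈ N) {x₀ y₀ : G} (hp : Ham S ⊥ N x₀ y₀)
    {z : G} (hz : z ∈ S) (hzA : z ∉ A) (h3 : A.index = 3)
    (hex : S ⊆ (N ⊔ Subgroup.zpowers z : Subgroup G) ∨ ∃ s ∈ S, s ∉ N ⊔ Subgroup.zpowers z ∧
      (s ∉ A ∨ (∀ m : ℕ, s ^ m ∈ N ⊔ Subgroup.zpowers z → Even m) ∨
        z * s * z⁻¹ * s⁻¹ ∈ N ⊔ Subgroup.zpowers z ∨
        ∃ i j : ℤ, (z ^ 3)⁻¹ * (s ^ i * (s * (z * s * z⁻¹) * (z ^ 2 * s * (z ^ 2)⁻¹) * z ^ 3) ^ j) ∈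
          N)) : ∃ s ∈ S, ∃ y, Ham S ⊥ Set.univ s y := by
  have hz3 : z ^ 3 ∈ A := by
    rw [← h3]
    exact Subgroup.pow_index_mem A z
  have hz3' : z ^ (3 : ℤ) ∈ A := by
    rw [show (3 : ℤ) = ((3 : ℕ) : ℤ) by norm_num, zpow_natCast]
    exact hz3
  have hcos : ∀ s ∈ S, s ∈ A ∨ s * z⁻¹ ∈ A ∨ s * z ∈ A := fun s _ => cosets_three h3 hzA s
  have m4 := main4 hS hgen hNA hcom hp hz hz3' hcos
  rcases hex with h | ⟨s, hs, hsN, hc⟩
  · exact m4 (Or.inl h)
  · by_cases hsA : s ∈ A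
    swap
    · exact m4 (Or.inr (Or.inl ⟨s, hs, hsA, hsN⟩))
    by_cases hev : ∀ m : ℕ, s ^ m ∈ N ⊔ Subgroup.zpowers z → Even m
    · exact m4 (Or.inr (Or.inr (Or.inl ⟨s, hs, hsA, hev⟩)))
    by_cases hzs : z * s * z⁻¹ * s⁻¹ ∈ N ⊔ Subgroup.zpowers z
    · exact m4 (Or.inr (Or.inr (Or.inr ⟨s, hs, hsA, hsN, hzs⟩)))
    rcases hc with h | h | h | ⟨i, j, hij⟩
    · exact absurd hsA h
    · exact absurd h hev
    · exact absurd h hzs
    -- the dual construction in the quotient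
    have hc := comm_map (N := N) hcom
    have hAn' : (A.map (QuotientGroup.mk' N)).Normal :=
      Subgroup.Normal.map hAn _ (QuotientGroup.mk'_surjective N)
    have hm := mem_map_mk hNA
    have hone : ∀ g : G, g ∈ N → QuotientGroup.mk' N g = 1 := fun g hg =>
      (QuotientGroup.eq_one_iff g).2 hg
    obtain ⟨t, x, y, ht, hx, hy⟩ : ∃ t x y : G ⧸ N, t = QuotientGroup.mk' N s ∧
        x = QuotientGroup.mk' N (z * s * z⁻¹) ∧ y = QuotientGroup.mk' N (z * (z * s * z⁻¹) * z⁻¹) :=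
      ⟨_, _, _, rfl, rfl, rfl⟩
    have hxA : z * s * z⁻¹ ∈ A := hAn.conj_mem s hsA z
    have hyA : z * (z * s * z⁻¹) * z⁻¹ ∈ A := hAn.conj_mem _ hxA z
    have ht' : t ∈ A.map (QuotientGroup.mk' N) := by rw [ht, hm]; exact hsA
    have hx' : x ∈ A.map (QuotientGroup.mk' N) := by rw [hx, hm]; exact hxA
    have hyM : y ∈ A.map (QuotientGroup.mk' N) := by rw [hy, hm]; exact hyA
    have hxt : QuotientGroup.mk' N z * t * (QuotientGroup.mk' N z)⁻¹ = x := by
      rw [hx, ht, map_mul, map_mul, map_inv]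
    have hyx : QuotientGroup.mk' N z * x * (QuotientGroup.mk' N z)⁻¹ = y := by
      rw [hy, hx]
      simp only [map_mul, map_inv]
    obtain ⟨s', hs', y', hy'⟩ := dual_main (symm_map (N := N) hS) (gen_map hgen) hc
      (z := QuotientGroup.mk' N z) ⟨z, hz, rfl⟩ (fun h => hzA ((hm z).1 h))
      (by rw [← map_zpow, hm]; exact hz3')
      (by
        rintro _ ⟨u, hu, rfl⟩
        rw [← map_inv, ← map_mul, ← map_mul, hm, hm, hm]
        exact hcos u hu)
      (a := t⁻¹) (Subgroup.inv_mem _ ht') ⟨s⁻¹, hS s hs, by rw [map_inv, ht]⟩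
      (by
        intro h
        apply hzs
        rw [sup_zp_iff]
        have e : QuotientGroup.mk' N (z * s * z⁻¹ * s⁻¹) =
            (QuotientGroup.mk' N z * t⁻¹ * (QuotientGroup.mk' N z)⁻¹)⁻¹ * t⁻¹ := by
          rw [ht, map_mul, map_mul, map_mul, map_inv, map_inv]
          group
        rw [e, h, inv_inv, mul_inv_cancel]
        exact Subgroup.one_mem _)
      (by
        push Not at hev
        obtain ⟨m, hm1, hm2⟩ := hev
        refine ⟨m, Nat.not_even_iff_odd.1 hm2, ?_⟩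
        rw [inv_pow, ht, ← map_pow]
        exact Subgroup.inv_mem _ (sup_zp_iff.1 hm1))
      (by
        refine ⟨-i, j, ?_⟩
        have h1 := hone _ hij
        rw [map_mul, map_inv, inv_mul_eq_one, map_mul, map_zpow, map_zpow, map_mul, map_mul, map_mul,
          ← ht, ← hx] at h1
        have h2 : QuotientGroup.mk' N (z ^ 2 * s * (z ^ 2)⁻¹) = y := by
          rw [hy]
          congr 1
          rw [pow_two]
          group
        have h3 : QuotientGroup.mk' N (z ^ 3) = QuotientGroup.mk' N z ^ (3 : ℤ) := by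
          rw [show (3 : ℤ) = ((3 : ℕ) : ℤ) by norm_num, zpow_natCast, map_pow]
        rw [h2, h3] at h1
        have e1 : QuotientGroup.mk' N z * t⁻¹ * (QuotientGroup.mk' N z)⁻¹ = x⁻¹ := by
          rw [← hxt]; group
        have e2 : QuotientGroup.mk' N z * x⁻¹ * (QuotientGroup.mk' N z)⁻¹ = y⁻¹ := by
          rw [← hyx]; group
        have e3 : (t⁻¹ * x⁻¹ * y⁻¹)⁻¹ = t * x * y := by
          rw [mul_inv_rev, mul_inv_rev, inv_inv, inv_inv, inv_inv, hc x hx' t ht',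
            hc y hyM (t * x) (Subgroup.mul_mem _ ht' hx')]
        rw [e1, e2, e3, inv_zpow, zpow_neg, inv_inv]
        exact h1)
    exact ham_quot (ham_one hp) hs' hy'

/-- abelian quotient -/
theorem quot_one [Finite G] {S : Set G} (hS : ∀ x ∈ S, x⁻¹ ∈ S) (hgen : Subgroup.closure S = ⊤)
    (hne : S.Nonempty) {N : Subgroup G} [hNn : N.Normal]
    (hcom : ∀ a b : G, a * b * a⁻¹ * b⁻¹ ∈ N) {x₀ y₀ : G} (hp : Ham S ⊥ N x₀ y₀) :
    ∃ s ∈ S, ∃ y, Ham S ⊥ Set.univ s y := by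
  obtain ⟨s, hs⟩ := hne
  have hc : ∀ x y : G ⧸ N, x * y = y * x := by
    intro x y
    have h1 := comm_map (N := N) (A := (⊤ : Subgroup G)) (fun a _ b _ => hcom a b)
    have ht : ∀ x : G ⧸ N, x ∈ (⊤ : Subgroup G).map (QuotientGroup.mk' N) := fun x => by
      obtain ⟨g, rfl⟩ := QuotientGroup.mk'_surjective N x
      exact ⟨g, trivial, rfl⟩
    exact h1 x (ht x) y (ht y)
  have hgen' := gen_map (N := N) hgen
  have hpath : ∃ e, Ham ((QuotientGroup.mk' N) '' S) ⊥ (Set.univ : Set (G ⧸ N)) 1 e := by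
    by_cases htriv : ∀ x : G ⧸ N, x = 1
    · exact ⟨1, Ham.single _ trivial fun g _ => by rw [htriv g]; simp⟩
    · push Not at htriv
      obtain ⟨x, hx⟩ := htriv
      have h1 := ends_gen (S := (QuotientGroup.mk' N) '' S) (B := (QuotientGroup.mk' N) '' S)
        (fun _ h => h) (symm_map hS) (fun h _ s hs => by rw [hc h s, mul_inv_cancel_right]; exact hs)
      rw [hgen'] at h1
      by_contra hcon
      push Not at hcon
      have h2 : Ends ((QuotientGroup.mk' N) '' S) (⊤ : Subgroup (G ⧸ N)) = ∅ := by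
        ext e
        simp only [Set.mem_empty_iff_false, iff_false]
        exact hcon e
      rw [h2, Subgroup.closure_empty] at h1
      exact hx ((Subgroup.mem_bot).1 (h1 (Subgroup.mem_top x)))
  obtain ⟨e, he⟩ := hpath
  have h1 := he.smul (QuotientGroup.mk' N s)
  rw [mul_one] at h1
  exact ham_quot (ham_one hp) ⟨s, hs, rfl⟩ (h1.congr fun v => ⟨fun _ => trivial, fun _ => trivial⟩)

end Pool.Agent.N47.CG
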