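import Pool.Agent.N47.CG.Ham
import Pool.Agent.R759.HCPair

/-!
# Hamiltonian paths in groups with an abelian subgroup of index two
-/

set_option autoImplicit false

namespace Pool.Agent.N47.CG

variable {G : Type*} [Group G]

theorem sup_insert (N : Subgroup G) (d : G) (F : Set G) :
    N ⊔ Subgroup.closure (insert d F) = (N ⊔ Subgroup.closure F) ⊔ Subgroup.zpowers d := by
  rw [Set.insert_eq, Subgroup.closure_union, Subgroup.zpowers_eq_closure, sup_assoc,
    sup_comm (Subgroup.closure {d})]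

/-- in abelian groups there are paths through the cosets of a subgroup -/
theorem transversal [Finite G] {H K : Subgroup G} (hc : ∀ a ∈ H, ∀ b ∈ H, a * b = b * a)
    (hK : K ≤ H) {E : Set G} (hE : E ⊆ H) (hgen : H ≤ Subgroup.closure E) :
    ∃ y ∈ H, Ham E K H 1 y := by
  classical
  have key : ∀ F : Finset G, (F : Set G) ⊆ E → ∃ y ∈ K ⊔ Subgroup.closure (F : Set G),
      Ham E K (K ⊔ Subgroup.closure (F : Set G) : Subgroup G) 1 y := by
    intro F
    induction F using Finset.induction_on with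
    | empty =>
      intro _
      refine ⟨1, Subgroup.one_mem _, Ham.single E (Subgroup.one_mem _) fun g hg => ?_⟩
      simpa using hg
    | insert d F _ ih =>
      intro hF
      rw [Finset.coe_insert] at hF ⊢
      have hdE : d ∈ E := hF (Set.mem_insert _ _)
      have hFE : (F : Set G) ⊆ E := fun x hx => hF (Set.mem_insert_of_mem _ hx)
      obtain ⟨y, hy, hp⟩ := ih hFE
      have hBH : K ⊔ Subgroup.closure (F : Set G) ≤ H := by
        rw [sup_le_iff, Subgroup.closure_le]
        exact ⟨hK, fun x hx => hE (hFE hx)⟩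
      rw [sup_insert]
      set B := K ⊔ Subgroup.closure (F : Set G) with hB
      have hN : ∀ a ∈ H, ∀ b ∈ B, a * b * a⁻¹ ∈ B := fun a ha b hb => by
        rw [hc a ha b (hBH hb), mul_assoc, mul_inv_cancel, mul_one]
        exact hb
      obtain ⟨n, hn0, hn1, hn2⟩ := coset_union hN (hE hdE)
      have h1 := hp.iterate (y * d) (by simpa using hdE) (n - 1) (by
        intro i j hij hj a ha b hb hab
        have ha' := (shift_iff hN (hE hdE) hy i a).1 ha
        have hb' := (shift_iff hN (hE hdE) hy j b).1 hb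
        have hab' : a⁻¹ * b ∈ B := Subgroup.mem_sup_left hab
        apply hn1 (j - i) (by omega) (by omega)
        have e : d ^ (j - i) = ((d ^ i)⁻¹ * a) * (a⁻¹ * b) * ((d ^ j)⁻¹ * b)⁻¹ := by
          have : d ^ (j - i) = (d ^ i)⁻¹ * d ^ j := by
            rw [eq_inv_mul_iff_mul_eq, ← pow_add]
            congr 1
            omega
          rw [this]
          group
        rw [e]
        exact B.mul_mem (B.mul_mem ha' hab') (B.inv_mem hb'))
      refine ⟨(y * d) ^ (n - 1) * y, ?_, h1.congr fun v => ?_⟩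
      · exact Subgroup.mul_mem _ (Subgroup.pow_mem _ (Subgroup.mul_mem _
          (Subgroup.mem_sup_left hy) (Subgroup.mem_sup_right (Subgroup.mem_zpowers d))) _)
          (Subgroup.mem_sup_left hy)
      · show (∃ i ≤ n - 1, ((y * d) ^ i)⁻¹ * v ∈ B) ↔ v ∈ B ⊔ Subgroup.zpowers d
        rw [hn2]
        constructor
        · rintro ⟨i, hi, hv⟩
          exact ⟨i, by omega, (shift_iff hN (hE hdE) hy i v).1 hv⟩
        · rintro ⟨i, hi, hv⟩
          exact ⟨i, by omega, (shift_iff hN (hE hdE) hy i v).2 hv⟩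
  have hfin : E.Finite := Set.toFinite E
  obtain ⟨y, hy, hp⟩ := key hfin.toFinset (by simp)
  rw [Set.Finite.coe_toFinset] at hy hp
  have e : K ⊔ Subgroup.closure E = H := by
    apply le_antisymm
    · rw [sup_le_iff, Subgroup.closure_le]
      exact ⟨hK, hE⟩
    · exact hgen.trans le_sup_right
  rw [e] at hy hp
  exact ⟨y, hy, hp⟩

/-- extension of a path by the elements outside `A` -/
theorem stage2 [Finite G] {S : Set G} {A B : Subgroup G} (hBA : B ≤ A)
    (hN : ∀ a ∈ A, ∀ b ∈ B, a * b * a⁻¹ ∈ B) {z w d : G} (hz : z ∉ A) (hw : w ∈ B) (hd : d ∈ A)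
    (hdS : (d * z)⁻¹ ∈ S) (h : Ham S ⊥ {v | v ∈ B ∨ v * z⁻¹ ∈ B} 1 (w * z)) :
    ∃ w' ∈ B ⊔ Subgroup.zpowers d,
      Ham S ⊥ {v | v ∈ B ⊔ Subgroup.zpowers d ∨ v * z⁻¹ ∈ B ⊔ Subgroup.zpowers d} 1 (w' * z) := by
  have hd' : d⁻¹ ∈ A := A.inv_mem hd
  obtain ⟨n, hn0, hn1, hn2⟩ := coset_union hN hd'
  rw [Subgroup.zpowers_inv] at hn2
  have hsh : ∀ (i : ℕ) (v : G), ((w * d⁻¹) ^ i)⁻¹ * v ∈ B ↔ ((d⁻¹) ^ i)⁻¹ * v ∈ B :=
    fun i v => shift_iff hN hd' hw i v
  have hmem : ∀ (i : ℕ) (v : G), ((w * d⁻¹) ^ i)⁻¹ * v ∈ B → v ∈ A := fun i v hv => by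
    have h1 := hBA ((hsh i v).1 hv)
    have h2 := A.mul_mem (A.pow_mem hd' i) h1
    simpa using h2
  have hcoset : ∀ i j : ℕ, i < j → j ≤ n - 1 → ∀ v, ((w * d⁻¹) ^ i)⁻¹ * v ∈ B →
      ((w * d⁻¹) ^ j)⁻¹ * v ∈ B → False := by
    intro i j hij hj v hvi hvj
    have ha' := (hsh i v).1 hvi
    have hb' := (hsh j v).1 hvj
    apply hn1 (j - i) (by omega) (by omega)
    have e : (d⁻¹) ^ (j - i) = (((d⁻¹) ^ i)⁻¹ * v) * (((d⁻¹) ^ j)⁻¹ * v)⁻¹ := by
      have : (d⁻¹) ^ (j - i) = ((d⁻¹) ^ i)⁻¹ * (d⁻¹) ^ j := by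
        rw [eq_inv_mul_iff_mul_eq, ← pow_add]
        congr 1
        omega
      rw [this]
      group
    rw [e]
    exact B.mul_mem ha' (B.inv_mem hb')
  have h1 := h.iterate (w * d⁻¹) (by
    have e : (w * z)⁻¹ * (w * d⁻¹ * 1) = (d * z)⁻¹ := by group
    rw [e]
    exact hdS) (n - 1) (by
    intro i j hij hj a ha b hb hab
    rw [Subgroup.mem_bot, inv_mul_eq_one] at hab
    subst hab
    rcases ha with ha | ha
    · rcases hb with hb | hb
      · exact hcoset i j hij hj a ha hb
      · rw [mul_assoc] at hb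
        have h2 := hmem i a ha
        have h3 := hmem j _ hb
        apply hz
        have h4 := A.mul_mem (A.inv_mem h3) h2
        simpa using h4
    · rcases hb with hb | hb
      · rw [mul_assoc] at ha
        have h2 := hmem j a hb
        have h3 := hmem i _ ha
        apply hz
        have h4 := A.mul_mem (A.inv_mem h3) h2
        simpa using h4
      · rw [mul_assoc] at ha hb
        exact hcoset i j hij hj _ ha hb)
  refine ⟨(w * d⁻¹) ^ (n - 1) * w, ?_, ?_⟩
  · exact Subgroup.mul_mem _ (Subgroup.pow_mem _ (Subgroup.mul_mem _ (Subgroup.mem_sup_left hw)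
      (Subgroup.inv_mem _ (Subgroup.mem_sup_right (Subgroup.mem_zpowers d)))) _)
      (Subgroup.mem_sup_left hw)
  · rw [mul_assoc]
    refine h1.congr fun v => ?_
    show (∃ i ≤ n - 1, ((w * d⁻¹) ^ i)⁻¹ * v ∈ B ∨ ((w * d⁻¹) ^ i)⁻¹ * v * z⁻¹ ∈ B) ↔
      (v ∈ B ⊔ Subgroup.zpowers d ∨ v * z⁻¹ ∈ B ⊔ Subgroup.zpowers d)
    rw [hn2, hn2]
    constructor
    · rintro ⟨i, hi, hv | hv⟩
      · exact Or.inl ⟨i, by omega, (hsh i v).1 hv⟩
      · rw [mul_assoc] at hv
        exact Or.inr ⟨i, by omega, (hsh i _).1 hv⟩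
    · rintro (⟨i, hi, hv⟩ | ⟨i, hi, hv⟩)
      · exact ⟨i, by omega, Or.inl ((hsh i v).2 hv)⟩
      · refine ⟨i, by omega, Or.inr ?_⟩
        rw [mul_assoc]
        exact (hsh i _).2 hv

/-- the end points of the Hamiltonian paths of `H` from `1` -/
def Ends (S : Set G) (H : Subgroup G) : Set G := {e | Ham S ⊥ H 1 e}

theorem Ends.sub {S : Set G} {H : Subgroup G} : Ends S H ⊆ H := by
  rintro e ⟨p, p1, p2, p3, p4, p5, p6⟩
  apply p3
  exact List.mem_of_getLast? p6

/-- extension of a path by the elements in `A` -/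
theorem stage1 [Finite G] {S : Set G} {A H : Subgroup G} (hHA : H ≤ A)
    (hHn : ∀ a ∈ A, ∀ h ∈ H, a * h * a⁻¹ ∈ H) {z : G} (hz : z ∉ A) (hzz : z * z ∈ A)
    (hAz : ∀ a ∈ A, z * a * z⁻¹ ∈ A)
    (hc : ∀ a ∈ H, ∀ b ∈ H, a * b = b * a)
    (hc' : ∀ a ∈ H, ∀ b ∈ H, a * (z * b * z⁻¹) = (z * b * z⁻¹) * a)
    (hzS : z ∈ S) (hzS' : z⁻¹ ∈ S) (hE : H ≤ Subgroup.closure (Ends S H)) :
    ∃ w, (∃ h ∈ H, ∃ k ∈ H, w = (z * h * z⁻¹) * k) ∧
      Ham S ⊥ {v | (∃ h ∈ H, ∃ k ∈ H, v = (z * h * z⁻¹) * k) ∨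
        ∃ h ∈ H, ∃ k ∈ H, v * z⁻¹ = (z * h * z⁻¹) * k} 1 (w * z) := by
  -- conjugation by `z ^ 2`
  have c1 : ∀ h, h ∈ H → z * z * h * (z * z)⁻¹ ∈ H := fun h hh => hHn _ hzz h hh
  have c2 : ∀ h, h ∈ H → (z * z)⁻¹ * h * (z * z) ∈ H := fun h hh => by
    have := hHn _ (A.inv_mem hzz) h hh
    rwa [inv_inv] at this
  -- the subgroup `K`
  let K : Subgroup G :=
    { carrier := {k | k ∈ H ∧ z * k * z⁻¹ ∈ H}
      one_mem' := ⟨H.one_mem, by simp [H.one_mem]⟩
      mul_mem' := by
        rintro a b ⟨ha, ha'⟩ ⟨hb, hb'⟩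
        refine ⟨H.mul_mem ha hb, ?_⟩
        have e : z * (a * b) * z⁻¹ = (z * a * z⁻¹) * (z * b * z⁻¹) := by group
        rw [e]
        exact H.mul_mem ha' hb'
      inv_mem' := by
        rintro a ⟨ha, ha'⟩
        refine ⟨H.inv_mem ha, ?_⟩
        have e : z * a⁻¹ * z⁻¹ = (z * a * z⁻¹)⁻¹ := by group
        rw [e]
        exact H.inv_mem ha' }
  have hKmem : ∀ k, k ∈ K ↔ k ∈ H ∧ z * k * z⁻¹ ∈ H := fun k => Iff.rfl
  have hKmem' : ∀ k, k ∈ K ↔ k ∈ H ∧ z⁻¹ * k * z ∈ H := by
    intro k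
    rw [hKmem]
    constructor
    · rintro ⟨h1, h2⟩
      refine ⟨h1, ?_⟩
      have := c2 _ h2
      have e : (z * z)⁻¹ * (z * k * z⁻¹) * (z * z) = z⁻¹ * k * z := by group
      rwa [e] at this
    · rintro ⟨h1, h2⟩
      refine ⟨h1, ?_⟩
      have := c1 _ h2
      have e : z * z * (z⁻¹ * k * z) * (z * z)⁻¹ = z * k * z⁻¹ := by group
      rwa [e] at this
  obtain ⟨y, hy, p, p1, p2, p3, p4, p5, p6⟩ := transversal hc (fun k hk => hk.1) Ends.sub hE (K := K)
  have hEne : ∃ f, f ∈ Ends S H := by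
    by_contra hcon
    push Not at hcon
    have h0 : Ends S H = ∅ := Set.eq_empty_iff_forall_notMem.2 hcon
    rw [h0, Subgroup.closure_empty] at hE
    apply hcon 1
    exact Ham.single S H.one_mem fun g hg => by simpa using hE hg
  obtain ⟨f, hf⟩ := hEne
  have hfH : f ∈ H := Ends.sub hf
  have hin : ∀ h, h ∈ H → z * h * z⁻¹ ∈ A := fun h hh => hAz h (hHA hh)
  have key : ∀ p : List G, ∀ q : G, p.IsChain (fun g h => g⁻¹ * h ∈ Ends S H) →
      p.Pairwise (fun g h => g⁻¹ * h ∉ K) → (∀ g ∈ p, g ∈ H) → p.head? = some 1 →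
      p.getLast? = some q → ∀ e ∈ Ends S H,
      Ham S ⊥ {v | ∃ a ∈ p, (∃ h ∈ H, v = z * a * z⁻¹ * h) ∨
        ∃ h ∈ H, v = f * a * (z * h * z⁻¹) * z} 1 (f * q * (z * q * z⁻¹) * z * e) := by
    intro p
    induction p using List.reverseRecOn with
    | nil => intro q _ _ _ h; simp at h
    | append_singleton p' a ih =>
      intro q h1 h2 h3 h4 h5 e he
      have hqa : q = a := by simpa using h5.symm
      subst hqa
      have hqH : q ∈ H := h3 q (by simp)
      have heH : e ∈ H := Ends.sub he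
      have he' : Ham S ⊥ H 1 e := he
      rcases List.eq_nil_or_concat p' with rfl | ⟨p'', q', rfl⟩
      · have hq1 : q = 1 := by simpa using h4
        subst hq1
        have hf' : Ham S ⊥ H 1 f := hf
        have b2 := he'.smul (f * z)
        have b3 := hf'.append b2 (by
          intro v hv u hu hvu
          rw [Subgroup.mem_bot, inv_mul_eq_one] at hvu
          subst hvu
          apply hz
          have hu' : (f * z)⁻¹ * v ∈ H := hu
          have : z = f⁻¹ * v * ((f * z)⁻¹ * v)⁻¹ := by group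
          rw [this]
          exact hHA (H.mul_mem (H.mul_mem (H.inv_mem hfH) hv) (H.inv_mem hu'))) (by
          simpa using hzS)
        have e1 : f * 1 * (z * 1 * z⁻¹) * z * e = f * z * e := by group
        rw [e1]
        refine b3.congr fun v => ?_
        simp only [Set.mem_union, SetLike.mem_coe, Set.mem_ofPred_eq, List.nil_append,
          List.mem_singleton, exists_eq_left]
        constructor
        · rintro (hv | hv)
          · exact Or.inl ⟨v, hv, by group⟩
          · exact Or.inr ⟨(f * z)⁻¹ * v, hv, by group⟩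
        · rintro (⟨h, hh, rfl⟩ | ⟨h, hh, rfl⟩)
          · left
            have e2 : z * 1 * z⁻¹ * h = h := by group
            rw [e2]
            exact hh
          · right
            have e2 : (f * z)⁻¹ * (f * 1 * (z * h * z⁻¹) * z) = h := by group
            rw [e2]
            exact hh
      · simp only [List.concat_eq_append] at ih h1 h2 h3 h4 ⊢
        have hq'H : q' ∈ H := h3 q' (by simp)
        rw [List.isChain_append] at h1
        obtain ⟨h1a, _, h1c⟩ := h1
        have hstep : q'⁻¹ * q ∈ Ends S H := h1c q' (by simp) q (by simp)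
        rw [List.pairwise_append] at h2
        obtain ⟨h2a, _, h2c⟩ := h2
        have hprev := ih q' h1a h2a (fun g hg => h3 g (List.mem_append.2 (Or.inl hg)))
          (by
            rw [List.head?_append] at h4
            cases h : (p'' ++ [q']).head? with
            | none => simp at h
            | some x =>
              rw [h] at h4
              simpa using h4) (by simp) _ hstep
        have hstepH : q'⁻¹ * q ∈ H := Ends.sub hstep
        -- the two new cosets
        obtain ⟨v₀, hv₀⟩ : ∃ v₀, v₀ = f * q' * (z * q * z⁻¹) := ⟨_, rfl⟩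
        have hs' : Ham S ⊥ H 1 (q'⁻¹ * q) := hstep
        have b1 := hs'.smul v₀
        have b2 := he'.smul (v₀ * (q'⁻¹ * q) * z)
        have hzq : z * q * z⁻¹ ∈ A := hin q hqH
        have hv₀A : v₀ ∈ A := by
          rw [hv₀]
          exact A.mul_mem (A.mul_mem (hHA hfH) (hHA hq'H)) hzq
        have comm1 : ∀ h ∈ H, (z * q * z⁻¹) * h = h * (z * q * z⁻¹) := fun h hh =>
          (hc' h hh q hqH).symm
        have b3 := b1.append b2 (by
          intro v hv u hu hvu
          rw [Subgroup.mem_bot, inv_mul_eq_one] at hvu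
          subst hvu
          have hv' : v₀⁻¹ * v ∈ H := hv
          have hu' : (v₀ * (q'⁻¹ * q) * z)⁻¹ * v ∈ H := hu
          apply hz
          have : z = (v₀ * (q'⁻¹ * q))⁻¹ * v * ((v₀ * (q'⁻¹ * q) * z)⁻¹ * v)⁻¹ := by group
          rw [this]
          refine A.mul_mem (A.mul_mem (A.inv_mem (A.mul_mem hv₀A (hHA hstepH))) ?_)
            (A.inv_mem (hHA hu'))
          have e3 : v = v₀ * (v₀⁻¹ * v) := by group
          rw [e3]
          exact A.mul_mem hv₀A (hHA hv')) (by
          have e3 : (v₀ * (q'⁻¹ * q))⁻¹ * (v₀ * (q'⁻¹ * q) * z * 1) = z := by group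
          rw [e3]
          exact hzS)
        -- description of the new points
        have desc1 : ∀ v, v₀⁻¹ * v ∈ H → ∃ h ∈ H, v = z * q * z⁻¹ * h := by
          intro v hv
          refine ⟨f * q' * (v₀⁻¹ * v), H.mul_mem (H.mul_mem hfH hq'H) hv, ?_⟩
          have e3 : v₀ = (z * q * z⁻¹) * (f * q') := by
            rw [hv₀, comm1 _ (H.mul_mem hfH hq'H)]
          have e4 : v = v₀ * (v₀⁻¹ * v) := by group
          calc v = v₀ * (v₀⁻¹ * v) := e4
            _ = (z * q * z⁻¹) * (f * q') * (v₀⁻¹ * v) := by rw [← e3]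
            _ = z * q * z⁻¹ * (f * q' * (v₀⁻¹ * v)) := by simp only [mul_assoc]
        have desc1' : ∀ h ∈ H, v₀⁻¹ * (z * q * z⁻¹ * h) ∈ H := by
          intro h hh
          have e3 : v₀ = (z * q * z⁻¹) * (f * q') := by
            rw [hv₀, comm1 _ (H.mul_mem hfH hq'H)]
          rw [e3]
          have e4 : (z * q * z⁻¹ * (f * q'))⁻¹ * (z * q * z⁻¹ * h) = (f * q')⁻¹ * h := by group
          rw [e4]
          exact H.mul_mem (H.inv_mem (H.mul_mem hfH hq'H)) hh
        have e5 : v₀ * (q'⁻¹ * q) = f * q * (z * q * z⁻¹) := by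
          rw [hv₀, mul_assoc, comm1 _ hstepH]
          have : f * q' * (q'⁻¹ * q * (z * q * z⁻¹)) = f * q * (z * q * z⁻¹) := by group
          exact this
        have desc2 : ∀ v, (v₀ * (q'⁻¹ * q) * z)⁻¹ * v ∈ H →
            ∃ h ∈ H, v = f * q * (z * h * z⁻¹) * z := by
          intro v hv
          refine ⟨q * ((v₀ * (q'⁻¹ * q) * z)⁻¹ * v), H.mul_mem hqH hv, ?_⟩
          rw [e5]
          group
        have desc2' : ∀ h ∈ H, (v₀ * (q'⁻¹ * q) * z)⁻¹ * (f * q * (z * h * z⁻¹) * z) ∈ H := by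
          intro h hh
          rw [e5]
          have e6 : (f * q * (z * q * z⁻¹) * z)⁻¹ * (f * q * (z * h * z⁻¹) * z) = q⁻¹ * h := by
            group
          rw [e6]
          exact H.mul_mem (H.inv_mem hqH) hh
        have b4 := hprev.append b3 (by
          rintro v ⟨b, hb, hv⟩ u hu hvu
          rw [Subgroup.mem_bot, inv_mul_eq_one] at hvu
          subst hvu
          have hbH : b ∈ H := h3 b (List.mem_append.2 (Or.inl hb))
          have hbq : b⁻¹ * q ∉ K := h2c b hb q (by simp)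
          rcases hv with ⟨h, hh, hv⟩ | ⟨h, hh, hv⟩
          · rcases hu with hu | hu
            · obtain ⟨k, hk, hu⟩ := desc1 v hu
              apply hbq
              refine ⟨H.mul_mem (H.inv_mem hbH) hqH, ?_⟩
              have e7 : z * (b⁻¹ * q) * z⁻¹ = h * k⁻¹ := by
                have e8 : z * b * z⁻¹ * h = z * q * z⁻¹ * k := hv.symm.trans hu
                have e9 : h = (z * b * z⁻¹)⁻¹ * (z * q * z⁻¹ * k) := by
                  rw [← e8]; group
                rw [e9]
                group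
              rw [e7]
              exact H.mul_mem hh (H.inv_mem hk)
            · obtain ⟨k, hk, hu⟩ := desc2 v hu
              apply hz
              have e8 : z * b * z⁻¹ * h = f * q * (z * k * z⁻¹) * z := hv.symm.trans hu
              have e9 : z = (f * q * (z * k * z⁻¹))⁻¹ * (z * b * z⁻¹ * h) := by
                rw [e8]; group
              rw [e9]
              exact A.mul_mem (A.inv_mem (A.mul_mem (A.mul_mem (hHA hfH) (hHA hqH)) (hin k hk)))
                (A.mul_mem (hin b hbH) (hHA hh))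
          · rcases hu with hu | hu
            · obtain ⟨k, hk, hu⟩ := desc1 v hu
              apply hz
              have e8 : f * b * (z * h * z⁻¹) * z = z * q * z⁻¹ * k := hv.symm.trans hu
              have e9 : z = (f * b * (z * h * z⁻¹))⁻¹ * (z * q * z⁻¹ * k) := by
                rw [← e8]; group
              rw [e9]
              exact A.mul_mem (A.inv_mem (A.mul_mem (A.mul_mem (hHA hfH) (hHA hbH)) (hin h hh)))
                (A.mul_mem (hin q hqH) (hHA hk))
            · obtain ⟨k, hk, hu⟩ := desc2 v hu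
              apply hbq
              rw [hKmem']
              refine ⟨H.mul_mem (H.inv_mem hbH) hqH, ?_⟩
              have e8 : f * b * (z * h * z⁻¹) * z = f * q * (z * k * z⁻¹) * z := hv.symm.trans hu
              have e9 : z⁻¹ * (b⁻¹ * q) * z = h * k⁻¹ := by
                have e10 : h = z⁻¹ * (f * b)⁻¹ * (f * q * (z * k * z⁻¹) * z) := by
                  rw [← e8]; group
                rw [e10]
                group
              rw [e9]
              exact H.mul_mem hh (H.inv_mem hk)) (by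
          have e11 : (f * q' * (z * q' * z⁻¹) * z * (q'⁻¹ * q))⁻¹ * (v₀ * 1) = z⁻¹ := by
            rw [hv₀]
            group
          rw [e11]
          exact hzS')
        have e12 : v₀ * (q'⁻¹ * q) * z * e = f * q * (z * q * z⁻¹) * z * e := by rw [e5]
        rw [e12] at b4
        refine b4.congr fun v => ?_
        simp only [Set.mem_union, Set.mem_ofPred_eq]
        constructor
        · rintro (⟨b, hb, hv⟩ | hv | hv)
          · exact ⟨b, List.mem_append.2 (Or.inl hb), hv⟩
          · exact ⟨q, by simp, Or.inl (desc1 v hv)⟩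
          · exact ⟨q, by simp, Or.inr (desc2 v hv)⟩
        · rintro ⟨b, hb, hv⟩
          rcases List.mem_append.1 hb with hb' | hb'
          · exact Or.inl ⟨b, hb', hv⟩
          · right
            rw [List.mem_singleton] at hb'
            subst hb'
            rcases hv with ⟨h, hh, rfl⟩ | ⟨h, hh, rfl⟩
            · exact Or.inl (desc1' h hh)
            · exact Or.inr (desc2' h hh)
  have hfin := key p y p1 p2 p3 p5 p6 f hf
  have hend : f * y * (z * y * z⁻¹) * z * f = (f * y * (z * (y * f) * z⁻¹)) * z := by group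
  rw [hend] at hfin
  refine ⟨f * y * (z * (y * f) * z⁻¹), ⟨y * f, H.mul_mem hy hfH, f * y, H.mul_mem hfH hy,
    hc' _ (H.mul_mem hfH hy) _ (H.mul_mem hy hfH)⟩, hfin.congr fun v => ?_⟩
  simp only [Set.mem_ofPred_eq]
  constructor
  · rintro ⟨a, ha, ⟨h, hh, rfl⟩ | ⟨h, hh, rfl⟩⟩
    · exact Or.inl ⟨a, p3 a ha, h, hh, rfl⟩
    · right
      have haH : a ∈ H := p3 a ha
      refine ⟨h, hh, f * a, H.mul_mem hfH haH, ?_⟩
      rw [mul_inv_cancel_right]
      exact hc' _ (H.mul_mem hfH haH) h hh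
  · rintro (⟨g, hg, h, hh, rfl⟩ | ⟨g, hg, h, hh, hv⟩)
    · obtain ⟨a, ha, hk⟩ := p4 g hg
      refine ⟨a, ha, Or.inl ⟨z * (a⁻¹ * g) * z⁻¹ * h, H.mul_mem hk.2 hh, ?_⟩⟩
      group
    · obtain ⟨a, ha, hk⟩ := p4 (f⁻¹ * h) (H.mul_mem (H.inv_mem hfH) hh)
      have hk' := ((hKmem' _).1 hk).2
      refine ⟨a, ha, Or.inr ⟨z⁻¹ * (a⁻¹ * (f⁻¹ * h)) * z * g, H.mul_mem hk' hg, ?_⟩⟩
      have e1 : v = h * (z * g * z⁻¹) * z := by
        have : v = (v * z⁻¹) * z := by group
        rw [this, hv, hc' h hh g hg]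
      rw [e1]
      group

end Pool.Agent.N47.CG
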