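import Pool.Agent.N47.CG.TwoPow
import Pool.Agent.N47.CG.Full

/-!
# Adding an element of `A` of even order: the stage
-/

set_option autoImplicit false

namespace Pool.Agent.N47.CG

variable {G : Type*} [Group G]

theorem norm_of {A B U : Subgroup G} (hcom : ∀ a ∈ A, ∀ b ∈ A, a * b * a⁻¹ * b⁻¹ ∈ B) (hBU : B ≤ U)
    (hUA : U ≤ A) : ∀ a ∈ A, ∀ b ∈ U, a * b * a⁻¹ ∈ U := by
  intro a ha b hb
  have e : a * b * a⁻¹ = (a * b * a⁻¹ * b⁻¹) * b := by group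
  rw [e]
  exact U.mul_mem (hBU (hcom a ha b (hUA hb))) hb

theorem PP.start3 {S : Set G} {z : G} {U : Subgroup G} (h3 : z ^ (3 : ℤ) ∈ U) {s e : ℤ}
    (h : PP S z U s e) : PP S z U (s + 3) e := by
  obtain ⟨u, hu, hp⟩ := h
  have h1 := hp.smul (z ^ (3 : ℤ))
  have e1 : z ^ (3 : ℤ) * z ^ s = z ^ (s + 3) := by rw [← zpow_add, add_comm]
  rw [e1, ← mul_assoc] at h1
  refine ⟨_, U.mul_mem h3 hu, h1.congr fun v => ?_⟩
  show (z ^ (3 : ℤ))⁻¹ * v ∈ Reg z U ↔ v ∈ Reg z U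
  exact Reg.smul (U.inv_mem h3) v

theorem PP.end3 {S : Set G} {z : G} {U : Subgroup G} (h3 : z ^ (3 : ℤ) ∈ U) {s e : ℤ}
    (h : PP S z U s e) : PP S z U s (e + 3) := by
  obtain ⟨u, hu, hp⟩ := h
  refine ⟨u * (z ^ (3 : ℤ))⁻¹, U.mul_mem hu (U.inv_mem h3), ?_⟩
  have e1 : u * (z ^ (3 : ℤ))⁻¹ * z ^ (e + 3) = u * z ^ e := by
    rw [add_comm, zpow_add]; group
  rw [e1]
  exact hp

/-- a region of two cosets -/
theorem block1 {S : Set G} {z : G} {A B : Subgroup G} (hBA : B ≤ A)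
    (hN : ∀ x ∈ A, ∀ b ∈ B, x * b * x⁻¹ ∈ B) (hzB : ∀ k : ℤ, z ^ k ∈ A → z ^ k ∈ B) {a : G}
    (ha : a ∈ A) (haS : a ∈ S) (haB : a ∉ B) {s e : ℤ} (h1 : PP S z B s 0) (h2 : PP S z B 0 e) :
    BP S z B {g | g ∈ Reg z B ∨ a⁻¹ * g ∈ Reg z B} a s e := by
  obtain ⟨u, hu, hp⟩ := h1
  obtain ⟨u', hu', hq⟩ := h2
  have q := hq.smul (u * a)
  have hau : a⁻¹ * (u * a) ∈ B := by
    have := hN _ (A.inv_mem ha) _ hu
    have e : a⁻¹ * (u * a) = a⁻¹ * u * a⁻¹⁻¹ := by group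
    rw [e]; exact this
  have htr : ∀ g, (u * a)⁻¹ * g ∈ Reg z B ↔ a⁻¹ * g ∈ Reg z B := fun g => by
    have e : a⁻¹ * g = (a⁻¹ * (u * a)) * ((u * a)⁻¹ * g) := by group
    rw [e]
    exact (Reg.smul hau _).symm
  refine ⟨u * a * u', ?_, ?_⟩
  · rw [← mul_assoc]
    exact B.mul_mem hau hu'
  · have e2 : u * a * (u' * z ^ e) = u * a * u' * z ^ e := by group
    rw [e2] at q
    refine (hp.append q ?_ ?_).congr fun g => ?_
    · rintro x ⟨i, hi⟩ y hy hxy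
      rw [Subgroup.mem_bot, inv_mul_eq_one] at hxy
      subst hxy
      obtain ⟨j, hj⟩ := (htr x).1 hy
      apply haB
      have hxA : x * z ^ (-i) ∈ A := hBA hi
      have hyA : x * z ^ (-j) ∈ A := by
        have := A.mul_mem ha (hBA hj)
        have e3 : a * (a⁻¹ * x * z ^ (-j)) = x * z ^ (-j) := by group
        rwa [e3] at this
      have hz1 : z ^ (i - j) ∈ A := by
        have := A.mul_mem (A.inv_mem hxA) hyA
        have e3 : (x * z ^ (-i))⁻¹ * (x * z ^ (-j)) = z ^ (i - j) := by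
          rw [mul_inv_rev, zpow_neg, zpow_neg, inv_inv, zpow_sub]
          group
        rwa [e3] at this
      have e4 : a = (x * z ^ (-i)) * z ^ (i - j) * (a⁻¹ * x * z ^ (-j))⁻¹ := by
        rw [zpow_sub, zpow_neg, zpow_neg]
        group
      rw [e4]
      exact B.mul_mem (B.mul_mem hi (hzB _ hz1)) (B.inv_mem hj)
    · have e3 : (u * z ^ (0 : ℤ))⁻¹ * (u * a * z ^ (0 : ℤ)) = a := by
        rw [zpow_zero]; group
      rw [e3]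
      exact haS
    · simp only [Set.mem_union, Set.mem_ofPred_eq]
      rw [htr]

theorem stage_even [Finite G] {S : Set G} {z : G} {A B : Subgroup G} (hst : Stt S z A B) {a : G}
    (ha : a ∈ A) (haS : a ∈ S) (hP : ∀ s : ℤ, PP S z B (s + 1) s)
    (hev : ∀ q : ℕ, a ^ q ∈ B → Even q) :
    ∃ B' : Subgroup G, B ≤ B' ∧ a ∈ B' ∧ B' ≤ A ∧ (∀ j : ℤ, ∀ b ∈ B', z ^ j * b * z ^ (-j) ∈ B') ∧
      Full S z B' := by
  have hS := hst.hS
  have hBA := hst.hBA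
  have hcom := hst.hcom
  have hzB := hst.hzB
  have hAz := hst.hAz
  have hBz := hst.hBz
  have h3A := hst.h3
  have h3 : z ^ (3 : ℤ) ∈ B := hzB _ h3A
  have haB : a ∉ B := fun h => by
    have := hev 1 (by rwa [pow_one])
    exact absurd this (by decide)
  have fin : ∀ B' : Subgroup G, B ≤ B' → a ∈ B' → B' ≤ A →
      B'.map (MulAut.conj z).toMonoidHom ≤ B' →
      (∃ s k l : ℤ, PP S z B' (s + 1 + 3 * k) (s + 3 * l)) →
      (∃ s k l : ℤ, PP S z B' (s + 3 * k) (s + 3 * l)) →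
      ∃ B' : Subgroup G, B ≤ B' ∧ a ∈ B' ∧ B' ≤ A ∧
        (∀ j : ℤ, ∀ b ∈ B', z ^ j * b * z ^ (-j) ∈ B') ∧ Full S z B' := by
    intro B' h1 h2 h4 h5 h6 h7
    have h8 := inv_of_map (map_eq_of_le h5)
    exact ⟨B', h1, h2, h4, h8, full_of hS h8 (h1 h3) h6 h7⟩
  have hmapB : B.map (MulAut.conj z).toMonoidHom = B := hst.mapB
  have hN := norm_of hcom le_rfl hBA
  -- the conjugates
  obtain ⟨v, hv⟩ : ∃ v, v = z * a * z⁻¹ := ⟨_, rfl⟩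
  have hconj : ∀ x ∈ A, z * x * z⁻¹ ∈ A := fun x hx => by
    have := hAz 1 x hx
    rwa [zpow_one, zpow_neg, zpow_one] at this
  have hvA : v ∈ A := by rw [hv]; exact hconj a ha
  have hBconj : ∀ x, x ∈ B ↔ z * x * z⁻¹ ∈ B := fun x => by
    constructor
    · intro hx
      have := hBz 1 x hx
      rwa [zpow_one, zpow_neg, zpow_one] at this
    · intro hx
      have := hBz (-1) _ hx
      rw [neg_neg, zpow_one, zpow_neg, zpow_one] at this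
      have e : z⁻¹ * (z * x * z⁻¹) * z = x := by group
      rwa [e] at this
  have hpow : ∀ q : ℕ, a ^ q ∈ B ↔ v ^ q ∈ B := fun q => by
    rw [hBconj (a ^ q), hv]
    have e : z * a ^ q * z⁻¹ = (z * a * z⁻¹) ^ q := by rw [conj_pow]
    rw [e]
  -- `W = B ⟨a v⟩`
  obtain ⟨W, hW⟩ : ∃ W, W = B ⊔ Subgroup.zpowers (a * v) := ⟨_, rfl⟩
  have hBW : B ≤ W := by rw [hW]; exact le_sup_left
  have hwW : a * v ∈ W := by rw [hW]; exact Subgroup.mem_sup_right (Subgroup.mem_zpowers _)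
  have hWA : W ≤ A := by
    rw [hW, sup_le_iff, Subgroup.zpowers_le]
    exact ⟨hBA, A.mul_mem ha hvA⟩
  have hNW := norm_of hcom hBW hWA
  have hevW : ∀ q : ℕ, a ^ q ∈ W → Even q := by
    have hBn : (B.subgroupOf A).Normal := by
      refine ⟨fun n hn g => ?_⟩
      rw [Subgroup.mem_subgroupOf] at hn ⊢
      exact hN g g.2 n hn
    rw [hW]
    exact fun q hq => even_notin hBA hcom ha hvA hev hpow hq
  have haW : a ∉ W := fun h => by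
    have := hevW 1 (by rwa [pow_one])
    exact absurd this (by decide)
  obtain ⟨m, hm0, hm1, hm2⟩ := coset_union' hN (A.mul_mem ha hvA)
  rw [← hW] at hm2
  obtain ⟨l, hl0, hl1, hl2⟩ := coset_union' hNW ha
  -- `l` is even
  obtain ⟨l', hl'⟩ : ∃ l', l = 2 * l' := by
    obtain ⟨r, hr⟩ := hevW l ((hl1 l).2 dvd_rfl)
    exact ⟨r, by omega⟩
  have hl'0 : 0 < l' := by omega
  -- paths of `B ⟨z⟩`
  have p10 : PP S z B 1 0 := hP 0
  have p20 : PP S z B 2 0 := by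
    have := ((hP (-1)).rev hS).start3 h3
    simpa using this
  have p01 : PP S z B 0 1 := p10.rev hS
  have p02 : PP S z B 0 2 := p20.rev hS
  -- the cosets of `B ⟨z⟩`: a general separation lemma
  have hsep : ∀ (U : Subgroup G), B ≤ U → U ≤ A → ∀ x ∈ A, ∀ y ∈ A, ∀ g,
      x⁻¹ * g ∈ Reg z U → y⁻¹ * g ∈ Reg z U → x⁻¹ * y ∈ U := by
    rintro U hBU hUA x hx y hy g ⟨i, hi⟩ ⟨j, hj⟩
    have h1 : g * z ^ (-i) ∈ A := by
      have := A.mul_mem hx (hUA hi)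
      have e : x * (x⁻¹ * g * z ^ (-i)) = g * z ^ (-i) := by group
      rwa [e] at this
    have h2 : g * z ^ (-j) ∈ A := by
      have := A.mul_mem hy (hUA hj)
      have e : y * (y⁻¹ * g * z ^ (-j)) = g * z ^ (-j) := by group
      rwa [e] at this
    have h4 : z ^ (i - j) ∈ A := by
      have := A.mul_mem (A.inv_mem h1) h2
      have e3 : (g * z ^ (-i))⁻¹ * (g * z ^ (-j)) = z ^ (i - j) := by
        rw [mul_inv_rev, zpow_neg, zpow_neg, inv_inv, zpow_sub]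
        group
      rwa [e3] at this
    have e4 : x⁻¹ * y = (x⁻¹ * g * z ^ (-i)) * z ^ (i - j) * (y⁻¹ * g * z ^ (-j))⁻¹ := by
      rw [zpow_sub, zpow_neg, zpow_neg]
      group
    rw [e4]
    exact U.mul_mem (U.mul_mem hi (hBU (hzB _ h4))) (U.inv_mem hj)
  -- the first region
  obtain ⟨C₁, hC₁⟩ : ∃ C₁ : Set G, C₁ = {g | g ∈ Reg z B ∨ a⁻¹ * g ∈ Reg z B} := ⟨_, rfl⟩
  have hC₁B : ∀ w ∈ B, ∀ g, w * g ∈ C₁ ↔ g ∈ C₁ := by
    intro w hw g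
    have h1 : a⁻¹ * (w * g) ∈ Reg z B ↔ a⁻¹ * g ∈ Reg z B := by
      have e : a⁻¹ * (w * g) = (a⁻¹ * w * a⁻¹⁻¹) * (a⁻¹ * g) := by group
      rw [e]
      exact Reg.smul (hN _ (A.inv_mem ha) _ hw) _
    rw [hC₁]
    show (w * g ∈ Reg z B ∨ a⁻¹ * (w * g) ∈ Reg z B) ↔ (g ∈ Reg z B ∨ a⁻¹ * g ∈ Reg z B)
    rw [h1, Reg.smul hw]
  have hb1 : ∀ {s e : ℤ}, PP S z B s 0 → PP S z B 0 e → BP S z B C₁ a s e := fun h1 h2 => by
    rw [hC₁]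
    exact block1 hBA hN hzB ha haS haB h1 h2
  have hpA : ∀ i : ℕ, (a * v) ^ i ∈ A := fun i => A.pow_mem (A.mul_mem ha hvA) i
  have hdis1 : ∀ i j : ℕ, i < j → j ≤ m - 1 → ∀ g, ((a * v) ^ i)⁻¹ * g ∈ C₁ →
      ((a * v) ^ j)⁻¹ * g ∈ C₁ → False := by
    intro i j hij hj g hi hj'
    have hw : ∀ x y : G, x ∈ A → y ∈ A → x⁻¹ * g ∈ Reg z B → y⁻¹ * g ∈ Reg z B → x⁻¹ * y ∈ B :=
      fun x y hx hy h1 h2 => hsep B le_rfl hBA x hx y hy g h1 h2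
    have hij' : ((a * v) ^ i)⁻¹ * (a * v) ^ j = (a * v) ^ (j - i) := by
      rw [inv_mul_eq_iff_eq_mul, ← pow_add]
      congr 1
      omega
    have hnot : (a * v) ^ (j - i) ∉ B := fun h => by
      have := Nat.le_of_dvd (by omega) ((hm1 _).1 h)
      omega
    have hwi : ∀ i : ℕ, (a * v) ^ i ∈ W := fun i => W.pow_mem hwW i
    rw [hC₁] at hi hj'
    rcases hi with hi | hi <;> rcases hj' with hj' | hj'
    · apply hnot
      rw [← hij']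
      exact hw _ _ (hpA i) (hpA j) hi hj'
    · -- `w ^ i` and `w ^ j a`
      have e : a⁻¹ * (((a * v) ^ j)⁻¹ * g) = ((a * v) ^ j * a)⁻¹ * g := by group
      rw [e] at hj'
      have h1 := hBW (hw _ _ (hpA i) (A.mul_mem (hpA j) ha) hi hj')
      apply haW
      have e2 : a = ((a * v) ^ j)⁻¹ * ((a * v) ^ i * (((a * v) ^ i)⁻¹ * ((a * v) ^ j * a))) := by
        group
      rw [e2]
      exact W.mul_mem (W.inv_mem (hwi j)) (W.mul_mem (hwi i) h1)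
    · have e : a⁻¹ * (((a * v) ^ i)⁻¹ * g) = ((a * v) ^ i * a)⁻¹ * g := by group
      rw [e] at hi
      have h1 := hBW (hw _ _ (A.mul_mem (hpA i) ha) (hpA j) hi hj')
      apply haW
      have e2 : a = ((a * v) ^ i)⁻¹ * ((a * v) ^ j *
          (((a * v) ^ i * a)⁻¹ * (a * v) ^ j)⁻¹) := by
        group
      rw [e2]
      exact W.mul_mem (W.inv_mem (hwi i)) (W.mul_mem (hwi j) (W.inv_mem h1))
    · have e : a⁻¹ * (((a * v) ^ i)⁻¹ * g) = ((a * v) ^ i * a)⁻¹ * g := by group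
      have e' : a⁻¹ * (((a * v) ^ j)⁻¹ * g) = ((a * v) ^ j * a)⁻¹ * g := by group
      rw [e] at hi
      rw [e'] at hj'
      have h1 := hw _ _ (A.mul_mem (hpA i) ha) (A.mul_mem (hpA j) ha) hi hj'
      apply hnot
      have h2 := hN a ha _ h1
      have e2 : a * (((a * v) ^ i * a)⁻¹ * ((a * v) ^ j * a)) * a⁻¹ =
          ((a * v) ^ i)⁻¹ * (a * v) ^ j := by group
      rw [e2, hij'] at h2
      exact h2
  have hstep1 : (z ^ (1 : ℤ))⁻¹ * (v * z ^ (1 : ℤ)) ∈ S := by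
    have e : (z ^ (1 : ℤ))⁻¹ * (v * z ^ (1 : ℤ)) = a := by
      rw [hv, zpow_one]; group
    rw [e]
    exact haS
  -- the second region
  obtain ⟨C₂, hC₂⟩ : ∃ C₂ : Set G, C₂ = {g | g ∈ Reg z W ∨ a⁻¹ * g ∈ Reg z W} := ⟨_, rfl⟩
  have hRegW : ∀ g, g ∈ Reg z W ↔ ∃ i ≤ m - 1, ((a * v) ^ i)⁻¹ * g ∈ Reg z B := by
    intro g
    constructor
    · rintro ⟨j, hj⟩
      obtain ⟨i, hi, hi'⟩ := (hm2 _).1 hj
      exact ⟨i, by omega, j, by rwa [mul_assoc]⟩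
    · rintro ⟨i, hi, j, hj⟩
      refine ⟨j, (hm2 _).2 ⟨i, by omega, by rwa [← mul_assoc]⟩⟩
  have hRegaW : ∀ g, a⁻¹ * g ∈ Reg z W ↔
      ∃ i ≤ m - 1, a⁻¹ * (((a * v) ^ i)⁻¹ * g) ∈ Reg z B := by
    intro g
    rw [hRegW]
    have hkey : ∀ i : ℕ, ((a * v) ^ i)⁻¹ * (a⁻¹ * g) ∈ Reg z B ↔
        a⁻¹ * (((a * v) ^ i)⁻¹ * g) ∈ Reg z B := by
      intro i
      have hb : a⁻¹ * ((a * v) ^ i)⁻¹ * a⁻¹⁻¹ * ((a * v) ^ i)⁻¹⁻¹ ∈ B :=
        hcom _ (A.inv_mem ha) _ (A.inv_mem (hpA i))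
      have e : a⁻¹ * (((a * v) ^ i)⁻¹ * g) =
          (a⁻¹ * ((a * v) ^ i)⁻¹ * a⁻¹⁻¹ * ((a * v) ^ i)⁻¹⁻¹) * (((a * v) ^ i)⁻¹ * (a⁻¹ * g)) := by
        group
      rw [e]
      exact (Reg.smul hb _).symm
    constructor
    · rintro ⟨i, hi, h⟩; exact ⟨i, hi, (hkey i).1 h⟩
    · rintro ⟨i, hi, h⟩; exact ⟨i, hi, (hkey i).2 h⟩
  have hC₂eq : ∀ g, g ∈ {g | ∃ i ≤ m - 1, ((a * v) ^ i)⁻¹ * g ∈ C₁} ↔ g ∈ C₂ := by
    intro g
    rw [hC₁, hC₂]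
    show (∃ i ≤ m - 1, ((a * v) ^ i)⁻¹ * g ∈ Reg z B ∨ a⁻¹ * (((a * v) ^ i)⁻¹ * g) ∈ Reg z B) ↔
      (g ∈ Reg z W ∨ a⁻¹ * g ∈ Reg z W)
    rw [hRegW, hRegaW]
    constructor
    · rintro ⟨i, hi, h | h⟩
      · exact Or.inl ⟨i, hi, h⟩
      · exact Or.inr ⟨i, hi, h⟩
    · rintro (⟨i, hi, h⟩ | ⟨i, hi, h⟩)
      · exact ⟨i, hi, Or.inl h⟩
      · exact ⟨i, hi, Or.inr h⟩
  have hb2 : ∀ {s e : ℤ}, PP S z B s 0 → PP S z B 0 e → BP S z W C₂ a s e := by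
    intro s e h1 h2
    obtain ⟨x, hx, hp⟩ := BP.chain hN hC₁B ha hvA (m - 1) hdis1 hstep1 (hb1 h1 p01) (hb1 p10 p01)
      (hb1 p10 h2) (hb1 h1 h2)
    refine ⟨x, ?_, hp.congr hC₂eq⟩
    have h4 := hNW _ (A.inv_mem ha) _ (W.pow_mem hwW (m - 1))
    have e : a⁻¹ * x = (a⁻¹ * (a * v) ^ (m - 1) * a⁻¹⁻¹) * (((a * v) ^ (m - 1) * a)⁻¹ * x) := by
      group
    rw [e]
    exact W.mul_mem h4 (hBW hx)
  have hC₂W : ∀ w ∈ W, ∀ g, w * g ∈ C₂ ↔ g ∈ C₂ := by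
    intro w hw g
    have h1 : a⁻¹ * (w * g) ∈ Reg z W ↔ a⁻¹ * g ∈ Reg z W := by
      have e : a⁻¹ * (w * g) = (a⁻¹ * w * a⁻¹⁻¹) * (a⁻¹ * g) := by group
      rw [e]
      exact Reg.smul (hNW _ (A.inv_mem ha) _ hw) _
    rw [hC₂]
    show (w * g ∈ Reg z W ∨ a⁻¹ * (w * g) ∈ Reg z W) ↔ (g ∈ Reg z W ∨ a⁻¹ * g ∈ Reg z W)
    rw [h1, Reg.smul hw]
  -- `a v⁻¹ = a ^ 2` modulo `W`
  obtain ⟨y, hy⟩ : ∃ y, y = a * v⁻¹ := ⟨_, rfl⟩
  have hyA : y ∈ A := by rw [hy]; exact A.mul_mem ha (A.inv_mem hvA)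
  have hyW : ∀ i : ℕ, (a ^ (2 * i))⁻¹ * y ^ i ∈ W := by
    intro i
    induction i with
    | zero => simp [W.one_mem]
    | succ i ih =>
      have h1 : (a ^ 2)⁻¹ * y ∈ W := by
        have e : (a ^ 2)⁻¹ * y = (v * a)⁻¹ := by
          rw [hy, pow_two]; group
        have h2 : v * a ∈ W := by
          have h4 := hcom v hvA a ha
          have e2 : v * a = (v * a * v⁻¹ * a⁻¹) * (a * v) := by group
          rw [e2]
          exact W.mul_mem (hBW h4) hwW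
        rw [e]
        exact W.inv_mem h2
      have e : (a ^ (2 * (i + 1)))⁻¹ * y ^ (i + 1) =
          ((a ^ 2)⁻¹ * ((a ^ (2 * i))⁻¹ * y ^ i) * (a ^ 2)⁻¹⁻¹) * ((a ^ 2)⁻¹ * y) := by
        have e1 : a ^ (2 * (i + 1)) = a ^ (2 * i) * a ^ 2 := by rw [← pow_add]; congr 1
        rw [e1, pow_succ]
        group
      rw [e]
      exact W.mul_mem (hNW _ (A.inv_mem (A.pow_mem ha 2)) _ ih) h1
  have hyReg : ∀ (i : ℕ) g, (y ^ i)⁻¹ * g ∈ C₂ ↔ (a ^ (2 * i))⁻¹ * g ∈ C₂ := by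
    intro i g
    have e : (a ^ (2 * i))⁻¹ * g = ((a ^ (2 * i))⁻¹ * y ^ i) * ((y ^ i)⁻¹ * g) := by group
    rw [e]
    exact (hC₂W _ (hyW i) _).symm
  have hC₂' : ∀ (i : ℕ) g, (a ^ (2 * i))⁻¹ * g ∈ C₂ ↔
      ((a ^ (2 * i))⁻¹ * g ∈ Reg z W ∨ (a ^ (2 * i + 1))⁻¹ * g ∈ Reg z W) := by
    intro i g
    rw [hC₂]
    show ((a ^ (2 * i))⁻¹ * g ∈ Reg z W ∨ a⁻¹ * ((a ^ (2 * i))⁻¹ * g) ∈ Reg z W) ↔ _
    have e : a⁻¹ * ((a ^ (2 * i))⁻¹ * g) = (a ^ (2 * i + 1))⁻¹ * g := by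
      rw [pow_succ]; group
    rw [e]
  have hpaA : ∀ i : ℕ, a ^ i ∈ A := fun i => A.pow_mem ha i
  have hsepW : ∀ i j : ℕ, i < j → j < l → ∀ g, (a ^ i)⁻¹ * g ∈ Reg z W →
      (a ^ j)⁻¹ * g ∈ Reg z W → False := by
    intro i j hij hj g h1 h2
    have h4 := hsep W hBW hWA _ (hpaA i) _ (hpaA j) g h1 h2
    have e : (a ^ i)⁻¹ * a ^ j = a ^ (j - i) := by
      rw [inv_mul_eq_iff_eq_mul, ← pow_add]
      congr 1
      omega
    rw [e] at h4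
    have := Nat.le_of_dvd (by omega) ((hl1 _).1 h4)
    omega
  have hdis2 : ∀ i j : ℕ, i < j → j ≤ l' - 1 → ∀ g, ((a * v⁻¹) ^ i)⁻¹ * g ∈ C₂ →
      ((a * v⁻¹) ^ j)⁻¹ * g ∈ C₂ → False := by
    intro i j hij hj g h1 h2
    rw [← hy, hyReg, hC₂'] at h1 h2
    rcases h1 with h1 | h1 <;> rcases h2 with h2 | h2
    · exact hsepW (2 * i) (2 * j) (by omega) (by omega) g h1 h2
    · exact hsepW (2 * i) (2 * j + 1) (by omega) (by omega) g h1 h2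
    · exact hsepW (2 * i + 1) (2 * j) (by omega) (by omega) g h1 h2
    · exact hsepW (2 * i + 1) (2 * j + 1) (by omega) (by omega) g h1 h2
  have hstep2 : (z ^ (1 : ℤ))⁻¹ * (v⁻¹ * z ^ (1 : ℤ)) ∈ S := by
    have e : (z ^ (1 : ℤ))⁻¹ * (v⁻¹ * z ^ (1 : ℤ)) = a⁻¹ := by
      rw [hv, zpow_one]; group
    rw [e]
    exact hS _ haS
  -- `U = W ⟨a⟩`
  obtain ⟨U, hU⟩ : ∃ U, U = W ⊔ Subgroup.zpowers a := ⟨_, rfl⟩
  rw [← hU] at hl2
  have hWU : W ≤ U := by rw [hU]; exact le_sup_left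
  have haU : a ∈ U := by rw [hU]; exact Subgroup.mem_sup_right (Subgroup.mem_zpowers _)
  have hvU : v ∈ U := by
    have := U.mul_mem (U.inv_mem haU) (hWU hwW)
    rwa [inv_mul_cancel_left] at this
  have hUA : U ≤ A := by
    rw [hU, sup_le_iff, Subgroup.zpowers_le]
    exact ⟨hWA, ha⟩
  have hRegU : ∀ g, g ∈ {g | ∃ i ≤ l' - 1, ((a * v⁻¹) ^ i)⁻¹ * g ∈ C₂} ↔ g ∈ Reg z U := by
    intro g
    constructor
    · rintro ⟨i, hi, h⟩
      rw [← hy, hyReg, hC₂'] at h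
      rcases h with ⟨j, hj⟩ | ⟨j, hj⟩
      · exact ⟨j, (hl2 _).2 ⟨2 * i, by omega, by rwa [← mul_assoc]⟩⟩
      · exact ⟨j, (hl2 _).2 ⟨2 * i + 1, by omega, by rwa [← mul_assoc]⟩⟩
    · rintro ⟨j, hj⟩
      obtain ⟨i, hi, hi'⟩ := (hl2 _).1 hj
      refine ⟨i / 2, by omega, ?_⟩
      rw [← hy, hyReg, hC₂']
      rcases Nat.even_or_odd' i with ⟨t, ht | ht⟩
      · left
        have : i / 2 = t := by omega
        rw [this, ← ht]
        exact ⟨j, by rwa [mul_assoc]⟩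
      · right
        have : i / 2 = t := by omega
        rw [this, ← ht]
        exact ⟨j, by rwa [mul_assoc]⟩
  have hb3 : ∀ {s e : ℤ}, PP S z B s 0 → PP S z B 0 e → PP S z U s e := by
    intro s e h1 h2
    obtain ⟨x, hx, hp⟩ := BP.chain hNW hC₂W ha (A.inv_mem hvA) (l' - 1) hdis2 hstep2 (hb2 h1 p01)
      (hb2 p10 p01) (hb2 p10 h2) (hb2 h1 h2)
    refine ⟨x, ?_, hp.congr hRegU⟩
    have h4 : (a * v⁻¹) ^ (l' - 1) * a ∈ U :=
      U.mul_mem (U.pow_mem (U.mul_mem haU (U.inv_mem hvU)) _) haU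
    have e : x = ((a * v⁻¹) ^ (l' - 1) * a) * (((a * v⁻¹) ^ (l' - 1) * a)⁻¹ * x) := by group
    rw [e]
    exact U.mul_mem h4 (hWU hx)
  -- the third conjugate
  have hUeq : U = B ⊔ Subgroup.zpowers a ⊔ Subgroup.zpowers v := by
    apply le_antisymm
    · rw [hU, hW, sup_le_iff, sup_le_iff, Subgroup.zpowers_le, Subgroup.zpowers_le]
      exact ⟨⟨le_sup_left.trans le_sup_left, Subgroup.mul_mem _
        (Subgroup.mem_sup_left (Subgroup.mem_sup_right (Subgroup.mem_zpowers _)))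
        (Subgroup.mem_sup_right (Subgroup.mem_zpowers _))⟩,
        Subgroup.mem_sup_left (Subgroup.mem_sup_right (Subgroup.mem_zpowers _))⟩
    · rw [sup_le_iff, sup_le_iff, Subgroup.zpowers_le, Subgroup.zpowers_le]
      exact ⟨⟨hBW.trans hWU, haU⟩, hvU⟩
  obtain ⟨v₂, hv₂⟩ : ∃ v₂, v₂ = z * v * z⁻¹ := ⟨_, rfl⟩
  have hv₂A : v₂ ∈ A := by rw [hv₂]; exact hconj v hvA
  have hzp : ∀ x : G, (Subgroup.zpowers x).map (MulAut.conj z).toMonoidHom =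
      Subgroup.zpowers (z * x * z⁻¹) := fun x => by
    rw [MonoidHom.map_zpowers]; rfl
  have hmapU : U.map (MulAut.conj z).toMonoidHom =
      B ⊔ Subgroup.zpowers v ⊔ Subgroup.zpowers v₂ := by
    rw [hUeq, Subgroup.map_sup, Subgroup.map_sup, hmapB, hzp, hzp, ← hv, ← hv₂]
  by_cases hv₂U : v₂ ∈ U
  · refine fin U (hBW.trans hWU) haU hUA ?_ ⟨1, 0, 0, ?_⟩ ⟨1, 0, 0, ?_⟩
    · rw [hmapU, sup_le_iff, sup_le_iff, Subgroup.zpowers_le, Subgroup.zpowers_le]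
      exact ⟨⟨hBW.trans hWU, hvU⟩, hv₂U⟩
    · exact hb3 p20 p01
    · exact hb3 p10 p01
  · -- `U ⟨v₂⟩`
    have hstep3 : (z ^ (2 : ℤ))⁻¹ * (v₂ * z ^ (2 : ℤ)) ∈ S := by
      have e : (z ^ (2 : ℤ))⁻¹ * (v₂ * z ^ (2 : ℤ)) = a := by
        rw [hv₂, hv, zpow_two]; group
      rw [e]
      exact haS
    have hNU := norm_of hcom (hBW.trans hWU) hUA
    have hzU : ∀ k : ℤ, z ^ k ∈ A → z ^ k ∈ U := fun k hk => (hBW.trans hWU) (hzB k hk)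
    have hout := (PP.outer hUA hNU hzU hv₂A hv₂U hstep3 (hb3 p10 p02) (hb3 p20 p02)
      (hb3 p20 p02)).rev hS
    have hout' := PP.outer hUA hNU hzU hv₂A hv₂U hstep3 (hb3 p20 p02) (hb3 p20 p02)
      (hb3 p20 p02)
    have hle : U ≤ U ⊔ Subgroup.zpowers v₂ := le_sup_left
    refine fin (U ⊔ Subgroup.zpowers v₂) ((hBW.trans hWU).trans hle) (hle haU) ?_ ?_
      ⟨1, 0, 0, hout⟩ ⟨2, 0, 0, hout'⟩
    · rw [sup_le_iff, Subgroup.zpowers_le]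
      exact ⟨hUA, hv₂A⟩
    · rw [Subgroup.map_sup, hmapU, hzp, sup_le_iff, sup_le_iff, sup_le_iff, Subgroup.zpowers_le,
        Subgroup.zpowers_le, Subgroup.zpowers_le]
      refine ⟨⟨⟨(hBW.trans hWU).trans hle, hle hvU⟩,
        Subgroup.mem_sup_right (Subgroup.mem_zpowers _)⟩, hle ?_⟩
      have e : z * v₂ * z⁻¹ = (z ^ (3 : ℤ) * a * (z ^ (3 : ℤ))⁻¹ * a⁻¹) * a := by
        rw [hv₂, hv]
        have : z ^ (3 : ℤ) = z * z * z := by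
          rw [show (3 : ℤ) = ((3 : ℕ) : ℤ) by norm_num, zpow_natCast, pow_succ, pow_two]
        rw [this]
        group
      rw [e]
      exact U.mul_mem ((hBW.trans hWU) (hcom _ h3A _ ha)) haU

end Pool.Agent.N47.CG
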