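import Pool.Agent.N47.CG.Window

/-!
# Adding an element of `A` of order a power of two, if `z ^ 3 ∈ A`
-/

set_option autoImplicit false

namespace Pool.Agent.N47.CG

variable {G : Type*} [Group G]

/-- a path of `C` from `z ^ s` to a point of `c W z ^ e` -/
def BP (S : Set G) (z : G) (W : Subgroup G) (C : Set G) (c : G) (s e : ℤ) : Prop :=
  ∃ x, c⁻¹ * x ∈ W ∧ Ham S ⊥ C (z ^ s) (x * z ^ e)

/-- joining the translates of paths of `C` by the powers of `v = c t` -/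
theorem BP.chain {S : Set G} {z : G} {A W : Subgroup G}
    (hN : ∀ a ∈ A, ∀ b ∈ W, a * b * a⁻¹ ∈ W) {C : Set G}
    (hC : ∀ w ∈ W, ∀ g, w * g ∈ C ↔ g ∈ C) {c t : G} (hc : c ∈ A) (ht : t ∈ A)
    (n : ℕ) (hdis : ∀ i j : ℕ, i < j → j ≤ n → ∀ g, ((c * t) ^ i)⁻¹ * g ∈ C →
      ((c * t) ^ j)⁻¹ * g ∈ C → False)
    {s₀ s e e₀ : ℤ} (hstep : (z ^ e)⁻¹ * (t * z ^ s) ∈ S)
    (h01 : BP S z W C c s₀ e) (h11 : BP S z W C c s e) (h10 : BP S z W C c s e₀)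
    (h00 : BP S z W C c s₀ e₀) :
    BP S z W {g | ∃ i ≤ n, ((c * t) ^ i)⁻¹ * g ∈ C} ((c * t) ^ n * c) s₀ e₀ := by
  -- translates
  have htr : ∀ (i : ℕ) (y : G), ((c * t) ^ i)⁻¹ * y ∈ W → ∀ g, y⁻¹ * g ∈ C ↔
      ((c * t) ^ i)⁻¹ * g ∈ C := by
    intro i y hy g
    have e1 : ((c * t) ^ i)⁻¹ * g = (((c * t) ^ i)⁻¹ * y) * (y⁻¹ * g) := by group
    rw [e1]
    exact (hC _ hy _).symm
  have hmove : ∀ (i : ℕ) (x : G), ((c * t) ^ i * c)⁻¹ * x ∈ W →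
      ((c * t) ^ (i + 1))⁻¹ * (x * t) ∈ W := by
    intro i x hx
    have e1 : ((c * t) ^ (i + 1))⁻¹ * (x * t) = t⁻¹ * (((c * t) ^ i * c)⁻¹ * x) * t⁻¹⁻¹ := by
      rw [pow_succ]; group
    rw [e1]
    exact hN _ (A.inv_mem ht) _ hx
  have hmove' : ∀ (i : ℕ) (y x : G), ((c * t) ^ i)⁻¹ * y ∈ W → c⁻¹ * x ∈ W →
      ((c * t) ^ i * c)⁻¹ * (y * x) ∈ W := by
    intro i y x hy hx
    have e1 : ((c * t) ^ i * c)⁻¹ * (y * x) =
        (c⁻¹ * (((c * t) ^ i)⁻¹ * y) * c⁻¹⁻¹) * (c⁻¹ * x) := by group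
    rw [e1]
    exact W.mul_mem (hN _ (A.inv_mem hc) _ hy) hx
  -- one more block
  have hadd : ∀ (i : ℕ) (f : ℤ), i + 1 ≤ n → BP S z W {g | ∃ j ≤ i, ((c * t) ^ j)⁻¹ * g ∈ C}
      ((c * t) ^ i * c) s₀ e → BP S z W C c s f →
      BP S z W {g | ∃ j ≤ i + 1, ((c * t) ^ j)⁻¹ * g ∈ C} ((c * t) ^ (i + 1) * c) s₀ f := by
    rintro i f hi ⟨x, hx, hp⟩ ⟨x', hx', hq⟩
    have h1 := hmove i x hx
    have q := hq.smul (x * t)
    refine ⟨x * t * x', hmove' (i + 1) (x * t) x' h1 hx', ?_⟩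
    have e2 : x * t * (x' * z ^ f) = x * t * x' * z ^ f := by group
    rw [e2] at q
    refine (hp.append q ?_ ?_).congr fun g => ?_
    · rintro a ⟨j, hj, ha⟩ b hb hab
      rw [Subgroup.mem_bot, inv_mul_eq_one] at hab
      subst hab
      exact hdis j (i + 1) (by omega) hi a ha ((htr (i + 1) (x * t) h1 a).1 hb)
    · have e3 : (x * z ^ e)⁻¹ * (x * t * z ^ s) = (z ^ e)⁻¹ * (t * z ^ s) := by group
      rw [e3]
      exact hstep
    · simp only [Set.mem_union, Set.mem_ofPred_eq]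
      constructor
      · rintro (⟨j, hj, hg⟩ | hg)
        · exact ⟨j, by omega, hg⟩
        · exact ⟨i + 1, le_rfl, (htr (i + 1) (x * t) h1 g).1 hg⟩
      · rintro ⟨j, hj, hg⟩
        rcases (show j ≤ i ∨ j = i + 1 by omega) with h | rfl
        · exact Or.inl ⟨j, h, hg⟩
        · exact Or.inr ((htr (i + 1) (x * t) h1 g).2 hg)
  have hzero : ∀ f : ℤ, BP S z W C c s₀ f →
      BP S z W {g | ∃ j ≤ 0, ((c * t) ^ j)⁻¹ * g ∈ C} ((c * t) ^ 0 * c) s₀ f := by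
    rintro f ⟨x, hx, hp⟩
    refine ⟨x, by simpa using hx, hp.congr fun g => ?_⟩
    constructor
    · intro hg; exact ⟨0, le_rfl, by simpa using hg⟩
    · rintro ⟨j, hj, hg⟩
      obtain rfl : j = 0 := by omega
      simpa using hg
  rcases Nat.eq_zero_or_pos n with rfl | hn
  · exact hzero e₀ h00
  · have key : ∀ i : ℕ, i + 1 ≤ n → BP S z W {g | ∃ j ≤ i, ((c * t) ^ j)⁻¹ * g ∈ C}
        ((c * t) ^ i * c) s₀ e := by
      intro i
      induction i with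
      | zero => intro _; exact hzero e h01
      | succ i ih => intro hi; exact hadd i e (by omega) (ih (by omega)) h11
    obtain ⟨m, rfl⟩ : ∃ m, n = m + 1 := ⟨n - 1, by omega⟩
    exact hadd m e₀ le_rfl (key m le_rfl) h10


/-- the data of `coset_union` once more -/
theorem coset_union' [Finite G] {A B : Subgroup G} (hN : ∀ a ∈ A, ∀ b ∈ B, a * b * a⁻¹ ∈ B) {d : G}
    (hd : d ∈ A) : ∃ n : ℕ, 0 < n ∧ (∀ m : ℕ, d ^ m ∈ B ↔ n ∣ m) ∧
      ∀ v, v ∈ B ⊔ Subgroup.zpowers d ↔ ∃ i < n, (d ^ i)⁻¹ * v ∈ B := by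
  obtain ⟨n, hn0, hn1, hn2⟩ := coset_union hN hd
  have hdn : d ^ n ∈ B := by
    have hmem : d ^ n ∈ B ⊔ Subgroup.zpowers d :=
      Subgroup.mem_sup_right (Subgroup.pow_mem _ (Subgroup.mem_zpowers d) _)
    obtain ⟨i, hi, hi'⟩ := (hn2 _).1 hmem
    have e : (d ^ i)⁻¹ * d ^ n = d ^ (n - i) := by
      rw [inv_mul_eq_iff_eq_mul, ← pow_add]
      congr 1
      omega
    rw [e] at hi'
    rcases Nat.eq_zero_or_pos i with rfl | hi0
    · simpa using hi'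
    · exact absurd hi' (hn1 (n - i) (by omega) (by omega))
  refine ⟨n, hn0, fun m => ⟨fun hm => ?_, ?_⟩, hn2⟩
  · have e : d ^ (m % n) ∈ B := by
      have h1 : d ^ m = (d ^ n) ^ (m / n) * d ^ (m % n) := by
        rw [← pow_mul, ← pow_add, Nat.div_add_mod]
      rw [h1] at hm
      exact (Subgroup.mul_mem_cancel_left B (B.pow_mem hdn _)).1 hm
    by_contra hcon
    have h2 : 0 < m % n := Nat.pos_of_ne_zero fun h => hcon (Nat.dvd_of_mod_eq_zero h)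
    exact hn1 _ h2 (Nat.mod_lt _ hn0) e
  · rintro ⟨c, rfl⟩
    rw [pow_mul]
    exact B.pow_mem hdn _

theorem two_pow_pure {M : Type*} [Group M] {α β : M} (hc : Commute α β) {k : ℕ}
    (hk : α ^ (2 ^ k) = 1) (h : ∀ q : ℕ, α ^ q = 1 ↔ β ^ q = 1) (hz : α ∈ Subgroup.zpowers (α * β)) :
    α = 1 := by
  by_contra hne
  obtain ⟨r, -, hr⟩ := (Nat.dvd_prime_pow Nat.prime_two).1 (orderOf_dvd_of_pow_eq_one hk)
  have hr0 : r ≠ 0 := by
    rintro rfl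
    rw [pow_zero, orderOf_eq_one_iff] at hr
    exact hne hr
  obtain ⟨t, rfl⟩ := Nat.exists_eq_succ_of_ne_zero hr0
  have hα : α ^ (2 ^ (t + 1)) = 1 := by rw [← hr]; exact pow_orderOf_eq_one α
  have hω : (α * β) ^ (2 ^ (t + 1)) = 1 := by
    rw [hc.mul_pow, hα, (h _).1 hα, one_mul]
  have hα' : α ^ (2 ^ t) ≠ 1 := by
    intro h1
    have := orderOf_dvd_of_pow_eq_one h1
    rw [hr] at this
    have := Nat.le_of_dvd (by positivity) this
    have h2 : 2 ^ t < 2 ^ (t + 1) := Nat.pow_lt_pow_right (by norm_num) (by omega)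
    omega
  have hω' : ∀ u : ℤ, ((α * β) ^ (2 * u)) ^ (2 ^ t) = 1 := by
    intro u
    rw [← zpow_natCast, ← zpow_mul]
    have e : 2 * u * ((2 ^ t : ℕ) : ℤ) = ((2 ^ (t + 1) : ℕ) : ℤ) * u := by
      push_cast
      ring
    rw [e, zpow_mul, zpow_natCast, hω, one_zpow]
  obtain ⟨i, hi⟩ := hz
  simp only at hi
  rcases Int.even_or_odd' i with ⟨u, hu | hu⟩
  · apply hα'
    rw [← hi, hu]
    exact hω' u
  · apply hα'
    rw [h]
    have e : β = (α * β) ^ (2 * (-u)) := by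
      have : β = α⁻¹ * (α * β) := by group
      have h3 : α⁻¹ * (α * β) = (α * β) ^ (-i) * (α * β) ^ (1 : ℤ) := by
        rw [zpow_neg, hi, zpow_one]
      have h4 : (α * β) ^ (-i) * (α * β) ^ (1 : ℤ) = (α * β) ^ (2 * (-u)) := by
        rw [← zpow_add, hu]
        congr 1
        ring
      exact (this.trans h3).trans h4
    rw [e]
    exact hω' (-u)

/-- elements of even order -/
theorem even_pure {M : Type*} [Group M] [Finite M] {α β : M} (hc : Commute α β)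
    (h : ∀ q : ℕ, α ^ q = 1 ↔ β ^ q = 1) (hev : ∀ q : ℕ, α ^ q = 1 → Even q) {l : ℕ}
    (hl : α ^ l ∈ Subgroup.zpowers (α * β)) : Even l := by
  by_contra hodd
  rw [Nat.not_even_iff_odd] at hodd
  obtain ⟨k, m, hm, hkm⟩ := Nat.exists_eq_two_pow_mul_odd (orderOf_pos α).ne'
  -- `l m` is odd
  have hlm : Odd (l * m) := hodd.mul hm
  have hc' : Commute (α ^ (l * m)) (β ^ (l * m)) := (hc.pow_pow _ _)
  have h1 : (α ^ (l * m)) ^ (2 ^ k) = 1 := by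
    rw [← pow_mul]
    have : l * m * 2 ^ k = orderOf α * l := by rw [hkm]; ring
    rw [this, pow_mul, pow_orderOf_eq_one, one_pow]
  have h2 : ∀ q : ℕ, (α ^ (l * m)) ^ q = 1 ↔ (β ^ (l * m)) ^ q = 1 := fun q => by
    rw [← pow_mul, ← pow_mul]; exact h _
  have h3 : α ^ (l * m) ∈ Subgroup.zpowers (α ^ (l * m) * β ^ (l * m)) := by
    rw [← hc.mul_pow]
    -- `α ^ l` is a power of `α β`, so `α ^ (l m)` is a power of `(α β) ^ m`
    obtain ⟨i, hi⟩ := hl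
    simp only at hi
    -- the order of `(α β) ^ m` is a power of two
    have h4 : ((α * β) ^ m) ^ (2 ^ k) = 1 := by
      rw [← pow_mul, mul_comm m, ← hkm, hc.mul_pow, pow_orderOf_eq_one, one_mul]
      exact (h _).1 (pow_orderOf_eq_one α)
    have hcop : Nat.Coprime l (2 ^ k) := Nat.Coprime.pow_right _ hodd.coprime_two_right
    have h5 : (α * β) ^ m ∈ Subgroup.zpowers ((α * β) ^ (l * m)) := by
      have e1 : (1 : ℤ) = l * Nat.gcdA l (2 ^ k) + ((2 ^ k : ℕ) : ℤ) * Nat.gcdB l (2 ^ k) := by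
        have := Nat.gcd_eq_gcd_ab l (2 ^ k)
        rw [hcop.gcd_eq_one] at this
        exact_mod_cast this
      refine ⟨Nat.gcdA l (2 ^ k), ?_⟩
      show ((α * β) ^ (l * m)) ^ (Nat.gcdA l (2 ^ k)) = (α * β) ^ m
      have e2 : ((α * β) ^ m) ^ (1 : ℤ) = (α * β) ^ m := zpow_one _
      rw [e1, zpow_add, zpow_mul, zpow_mul, zpow_natCast, zpow_natCast, h4, one_zpow, mul_one,
        ← pow_mul, mul_comm m l] at e2
      exact e2
    have h6 : α ^ (l * m) = ((α * β) ^ m) ^ i := by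
      rw [pow_mul, ← hi, ← zpow_natCast, ← zpow_natCast, ← zpow_mul, ← zpow_mul, mul_comm]
    rw [h6]
    exact Subgroup.zpow_mem _ h5 i
  have h7 := two_pow_pure hc' h1 h2 h3
  have := hev _ h7
  exact (Nat.not_even_iff_odd.2 hlm) this

theorem even_notin [Finite G] {A B : Subgroup G} [hBn : (B.subgroupOf A).Normal]
    (hBA : B ≤ A) (hcom : ∀ a ∈ A, ∀ b ∈ A, a * b * a⁻¹ * b⁻¹ ∈ B) {a b : G} (ha : a ∈ A)
    (hb : b ∈ A) (hev : ∀ q : ℕ, a ^ q ∈ B → Even q) (h : ∀ q : ℕ, a ^ q ∈ B ↔ b ^ q ∈ B)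
    {l : ℕ} (hmem : a ^ l ∈ B ⊔ Subgroup.zpowers (a * b)) : Even l := by
  let π := QuotientGroup.mk' (B.subgroupOf A)
  have hπ : ∀ x : A, π x = 1 ↔ (x : G) ∈ B := fun x => by
    rw [QuotientGroup.mk'_apply, QuotientGroup.eq_one_iff, Subgroup.mem_subgroupOf]
  let α := π ⟨a, ha⟩
  let β := π ⟨b, hb⟩
  have hc : Commute α β := by
    have h1 := (hπ (⟨a, ha⟩ * ⟨b, hb⟩ * ⟨a, ha⟩⁻¹ * ⟨b, hb⟩⁻¹)).2 (by simpa using hcom a ha b hb)
    rw [map_mul, map_mul, map_mul, map_inv, map_inv] at h1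
    show α * β = β * α
    have h2 : α * β * α⁻¹ * β⁻¹ = 1 := h1
    rw [mul_inv_eq_one, mul_inv_eq_iff_eq_mul] at h2
    exact h2
  have hα : ∀ q : ℕ, α ^ q = 1 ↔ a ^ q ∈ B := fun q => by
    have : α ^ q = π (⟨a, ha⟩ ^ q) := (map_pow π _ _).symm
    rw [this, hπ]; rfl
  have hβ : ∀ q : ℕ, β ^ q = 1 ↔ b ^ q ∈ B := fun q => by
    have : β ^ q = π (⟨b, hb⟩ ^ q) := (map_pow π _ _).symm
    rw [this, hπ]; rfl
  have hz : α ^ l ∈ Subgroup.zpowers (α * β) := by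
    have hle : B ⊔ Subgroup.zpowers (a * b) ≤
        ((Subgroup.zpowers (α * β)).comap π).map A.subtype := by
      rw [sup_le_iff, Subgroup.zpowers_le]
      constructor
      · intro x hx
        refine ⟨⟨x, hBA hx⟩, ?_, rfl⟩
        show π ⟨x, hBA hx⟩ ∈ Subgroup.zpowers (α * β)
        rw [(hπ _).2 hx]
        exact Subgroup.one_mem _
      · refine ⟨⟨a, ha⟩ * ⟨b, hb⟩, ?_, rfl⟩
        show π (⟨a, ha⟩ * ⟨b, hb⟩) ∈ Subgroup.zpowers (α * β)
        rw [map_mul]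
        exact Subgroup.mem_zpowers _
    obtain ⟨x, hx, hx'⟩ := hle hmem
    have : x = ⟨a, ha⟩ ^ l := Subtype.ext hx'
    rw [this] at hx
    have e : α ^ l = π (⟨a, ha⟩ ^ l) := (map_pow π _ _).symm
    rw [e]
    exact hx
  exact even_pure hc (fun q => by rw [hα, hβ, h]) (fun q hq => hev q ((hα q).1 hq)) hz

end Pool.Agent.N47.CG
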