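import Pool.Agent.N47.CG.Layer

/-!
# Windows of at most four types
-/

set_option autoImplicit false

namespace Pool.Agent.N47.CG

variable {G : Type*} [Group G]

/-- the data of one stage -/
structure Stg (S : Set G) (z : G) (A B : Subgroup G) (d : G) : Prop where
  hS : ∀ x ∈ S, x⁻¹ ∈ S
  hBA : B ≤ A
  hcom : ∀ a ∈ A, ∀ b ∈ A, a * b * a⁻¹ * b⁻¹ ∈ B
  hzB : ∀ k : ℤ, z ^ k ∈ A → z ^ k ∈ B
  hAz : ∀ j : ℤ, ∀ a ∈ A, z ^ j * a * z ^ (-j) ∈ A
  hBz : ∀ j : ℤ, ∀ b ∈ B, z ^ j * b * z ^ (-j) ∈ B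
  hd : d ∈ A
  hdS : d * z ∈ S
  hP : ∀ s : ℤ, PP S z B (s + 1) s

/-- the conjugates of `d` -/
def cv (z d : G) (i : ℤ) : G := z ^ i * d * z ^ (-i)

def U1 (z : G) (B : Subgroup G) (d : G) (i : ℤ) : Subgroup G := B ⊔ Subgroup.zpowers (cv z d i)

def U2 (z : G) (B : Subgroup G) (d : G) (i : ℤ) : Subgroup G :=
  U1 z B d i ⊔ Subgroup.zpowers (cv z d (i + 1))

def U3 (z : G) (B : Subgroup G) (d : G) (i : ℤ) : Subgroup G :=
  U2 z B d i ⊔ Subgroup.zpowers (cv z d (i + 2))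

def U4 (z : G) (B : Subgroup G) (d : G) (i : ℤ) : Subgroup G :=
  U3 z B d i ⊔ Subgroup.zpowers (cv z d (i + 3))

theorem U2_left (z : G) (B : Subgroup G) (d : G) (i : ℤ) :
    U2 z B d i = U1 z B d (i + 1) ⊔ Subgroup.zpowers (cv z d i) := by
  unfold U2 U1
  rw [sup_assoc, sup_assoc, sup_comm (Subgroup.zpowers (cv z d i))]

theorem U3_left (z : G) (B : Subgroup G) (d : G) (i : ℤ) :
    U3 z B d i = U2 z B d (i + 1) ⊔ Subgroup.zpowers (cv z d i) := by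
  have e : i + 1 + 1 = i + 2 := by ring
  unfold U3
  rw [U2_left]
  unfold U2
  rw [e, sup_assoc, sup_assoc, sup_comm (Subgroup.zpowers (cv z d i))]

section
variable {S : Set G} {z : G} {A B : Subgroup G} {d : G}

theorem Stg.cvA (h : Stg S z A B d) (i : ℤ) : cv z d i ∈ A := h.hAz i d h.hd

theorem Stg.step (h : Stg S z A B d) (i : ℤ) : (z ^ i)⁻¹ * (cv z d i * z ^ (i + 1)) ∈ S := by
  have e : (z ^ i)⁻¹ * (cv z d i * z ^ (i + 1)) = d * z := by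
    unfold cv
    rw [zpow_neg, zpow_add, zpow_one]
    group
  rw [e]
  exact h.hdS

theorem Stg.norm (h : Stg S z A B d) {U : Subgroup G} (hBU : B ≤ U) (hUA : U ≤ A) :
    ∀ a ∈ A, ∀ b ∈ U, a * b * a⁻¹ ∈ U := by
  intro a ha b hb
  have e : a * b * a⁻¹ = (a * b * a⁻¹ * b⁻¹) * b := by group
  rw [e]
  exact U.mul_mem (hBU (h.hcom a ha b (hUA hb))) hb

theorem Stg.outer [Finite G] (h : Stg S z A B d) {U : Subgroup G} (hBU : B ≤ U) (hUA : U ≤ A)
    (i : ℤ) (hi : cv z d i ∉ U) {s₀ e₀ : ℤ} (h1 : PP S z U s₀ i) (h2 : PP S z U (i + 1) i)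
    (h3 : PP S z U (i + 1) e₀) : PP S z (U ⊔ Subgroup.zpowers (cv z d i)) s₀ e₀ :=
  PP.outer hUA (h.norm hBU hUA) (fun k hk => hBU (h.hzB k hk)) (h.cvA i) hi (h.step i) h1 h2 h3

theorem Stg.U1le (h : Stg S z A B d) (i : ℤ) : B ≤ U1 z B d i ∧ U1 z B d i ≤ A :=
  ⟨le_sup_left, sup_le h.hBA (by rw [Subgroup.zpowers_le]; exact h.cvA i)⟩

theorem Stg.U2le (h : Stg S z A B d) (i : ℤ) : B ≤ U2 z B d i ∧ U2 z B d i ≤ A :=
  ⟨(h.U1le i).1.trans le_sup_left,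
    sup_le (h.U1le i).2 (by rw [Subgroup.zpowers_le]; exact h.cvA _)⟩

theorem Stg.U3le (h : Stg S z A B d) (i : ℤ) : B ≤ U3 z B d i ∧ U3 z B d i ≤ A :=
  ⟨(h.U2le i).1.trans le_sup_left,
    sup_le (h.U2le i).2 (by rw [Subgroup.zpowers_le]; exact h.cvA _)⟩

theorem Stg.U4le (h : Stg S z A B d) (i : ℤ) : B ≤ U4 z B d i ∧ U4 z B d i ≤ A :=
  ⟨(h.U3le i).1.trans le_sup_left,
    sup_le (h.U3le i).2 (by rw [Subgroup.zpowers_le]; exact h.cvA _)⟩

/-- paths of `B ⟨z⟩` -/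
theorem Stg.P0 (h : Stg S z A B d) {s e : ℤ} (hse : s = e + 1 ∨ e = s + 1) : PP S z B s e := by
  rcases hse with rfl | rfl
  · exact h.hP e
  · exact (h.hP s).rev h.hS

/-- one type -/
theorem Stg.P1 [Finite G] (h : Stg S z A B d) {i : ℤ} (hi : cv z d i ∉ B) {s e : ℤ}
    (hs : s = i - 1 ∨ s = i + 1) (he : e = i ∨ e = i + 2) : PP S z (U1 z B d i) s e := by
  refine h.outer le_rfl h.hBA i hi (h.P0 ?_) (h.hP i) (h.P0 ?_)
  · rcases hs with rfl | rfl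
    · right; ring
    · left; ring
  · rcases he with rfl | rfl
    · left; ring
    · right; ring

/-- two types, right -/
theorem Stg.P2r [Finite G] (h : Stg S z A B d) {i : ℤ} (h0 : cv z d i ∉ B)
    (h1 : cv z d (i + 1) ∉ U1 z B d i) {s e : ℤ}
    (hs : s = i ∨ s = i + 2) (he : e = i - 1 ∨ e = i + 1) : PP S z (U2 z B d i) s e := by
  have e2 : i + 1 + 1 = i + 2 := by ring
  refine h.outer (h.U1le i).1 (h.U1le i).2 (i + 1) h1 ?_ ?_ ?_
  · exact (h.P1 h0 (Or.inr rfl) hs).rev h.hS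
  · rw [e2]
    exact (h.P1 h0 (Or.inr rfl) (Or.inr rfl)).rev h.hS
  · rw [e2]
    exact (h.P1 h0 he (Or.inr rfl)).rev h.hS

/-- two types, left -/
theorem Stg.P2l [Finite G] (h : Stg S z A B d) {i : ℤ} (h0 : cv z d (i + 1) ∉ B)
    (h1 : cv z d i ∉ U1 z B d (i + 1)) {s e : ℤ}
    (hs : s = i + 1 ∨ s = i + 3) (he : e = i ∨ e = i + 2) : PP S z (U2 z B d i) s e := by
  have e1 : i + 1 - 1 = i := by ring
  have e2 : i + 1 + 1 = i + 2 := by ring
  have e3 : i + 1 + 2 = i + 3 := by ring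
  rw [U2_left]
  refine h.outer (h.U1le _).1 (h.U1le _).2 i h1 ?_ ?_ ?_
  · refine (h.P1 h0 (Or.inl e1.symm) ?_).rev h.hS
    rw [e3]; exact hs
  · exact (h.P1 h0 (Or.inl e1.symm) (Or.inl rfl)).rev h.hS
  · refine (h.P1 h0 ?_ (Or.inl rfl)).rev h.hS
    rw [e1, e2]; exact he

/-- three types -/
theorem Stg.P3 [Finite G] (h : Stg S z A B d) {i : ℤ} (h0 : cv z d (i + 1) ∉ B)
    (h0' : cv z d (i + 2) ∉ B)
    (h1 : cv z d (i + 2) ∉ U1 z B d (i + 1)) (h1' : cv z d (i + 1) ∉ U1 z B d (i + 2))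
    (h2 : cv z d i ∉ U2 z B d (i + 1)) {s e : ℤ}
    (hs : s = i + 1 ∨ s = i + 3) (he : e = i ∨ e = i + 2 ∨ e = i + 4) :
    PP S z (U3 z B d i) s e := by
  have e1 : i + 1 - 1 = i := by ring
  have e2 : i + 1 + 1 = i + 2 := by ring
  have e3 : i + 1 + 2 = i + 3 := by ring
  have e4 : i + 1 + 3 = i + 4 := by ring
  have k1 : cv z d (i + 1 + 1) ∉ U1 z B d (i + 1) := by rwa [e2]
  rw [U3_left]
  refine h.outer (h.U2le _).1 (h.U2le _).2 i h2 ?_ ?_ ?_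
  · refine h.P2r h0 k1 ?_ (Or.inl e1.symm)
    rw [e3]; exact hs
  · exact h.P2r h0 k1 (Or.inl rfl) (Or.inl e1.symm)
  · rcases he with rfl | rfl | rfl
    · exact h.P2r h0 k1 (Or.inl rfl) (Or.inl e1.symm)
    · exact h.P2r h0 k1 (Or.inl rfl) (Or.inr e2.symm)
    · refine (h.P2l (i := i + 1) ?_ ?_ ?_ ?_).rev h.hS
      · rwa [e2]
      · rwa [e2]
      · rw [e4]; exact Or.inr rfl
      · exact Or.inl rfl

/-- four types -/
theorem Stg.P4 [Finite G] (h : Stg S z A B d) {i : ℤ} (h0 : cv z d (i + 1) ∉ B)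
    (h0' : cv z d (i + 2) ∉ B)
    (h1 : cv z d (i + 2) ∉ U1 z B d (i + 1)) (h1' : cv z d (i + 1) ∉ U1 z B d (i + 2))
    (h2 : cv z d i ∉ U2 z B d (i + 1)) (h3 : cv z d (i + 3) ∉ U3 z B d i) :
    PP S z (U4 z B d i) (i + 4) (i + 3) := by
  have e4 : i + 3 + 1 = i + 4 := by ring
  have k : PP S z (U3 z B d i) (i + 4) (i + 3) :=
    (h.P3 h0 h0' h1 h1' h2 (Or.inr rfl) (Or.inr (Or.inr rfl))).rev h.hS
  refine h.outer (h.U3le _).1 (h.U3le _).2 (i + 3) h3 k ?_ ?_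
  · rwa [e4]
  · rwa [e4]

/-! ### conjugation -/

theorem conj_cv (z d : G) (i : ℤ) : MulAut.conj z (cv z d i) = cv z d (i + 1) := by
  rw [MulAut.conj_apply]
  unfold cv
  rw [zpow_add, zpow_one, neg_add, zpow_add, zpow_neg, zpow_neg, zpow_one]
  have : z * z ^ i = z ^ i * z := (Commute.self_zpow z i).eq
  calc z * (z ^ i * d * (z ^ i)⁻¹) * z⁻¹ = (z * z ^ i) * d * ((z ^ i)⁻¹ * z⁻¹) := by group
    _ = (z ^ i * z) * d * ((z ^ i)⁻¹ * z⁻¹) := by rw [this]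
    _ = z ^ i * z * d * ((z ^ i)⁻¹ * z⁻¹) := rfl

theorem map_eq_of_le [Finite G] {X : Subgroup G} {f : G ≃* G}
    (h : X.map f.toMonoidHom ≤ X) : X.map f.toMonoidHom = X := by
  apply Subgroup.eq_of_le_of_card_ge h
  rw [Subgroup.card_map_of_injective f.injective]

theorem map_eq_of_ge [Finite G] {X : Subgroup G} {f : G ≃* G}
    (h : X ≤ X.map f.toMonoidHom) : X = X.map f.toMonoidHom := by
  apply Subgroup.eq_of_le_of_card_ge h
  rw [Subgroup.card_map_of_injective f.injective]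

theorem Stg.mapB [Finite G] (h : Stg S z A B d) : B.map (MulAut.conj z).toMonoidHom = B := by
  apply map_eq_of_le
  rintro _ ⟨b, hb, rfl⟩
  have := h.hBz 1 b hb
  rw [zpow_one, zpow_neg, zpow_one] at this
  exact this

theorem map_zp (z d : G) (i : ℤ) : (Subgroup.zpowers (cv z d i)).map (MulAut.conj z).toMonoidHom =
    Subgroup.zpowers (cv z d (i + 1)) := by
  rw [MonoidHom.map_zpowers]
  congr 1
  exact conj_cv z d i

theorem Stg.mapU1 [Finite G] (h : Stg S z A B d) (i : ℤ) :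
    (U1 z B d i).map (MulAut.conj z).toMonoidHom = U1 z B d (i + 1) := by
  unfold U1
  rw [Subgroup.map_sup, h.mapB, map_zp]

theorem Stg.mapU2 [Finite G] (h : Stg S z A B d) (i : ℤ) :
    (U2 z B d i).map (MulAut.conj z).toMonoidHom = U2 z B d (i + 1) := by
  unfold U2
  rw [Subgroup.map_sup, h.mapU1, map_zp]

theorem Stg.mapU3 [Finite G] (h : Stg S z A B d) (i : ℤ) :
    (U3 z B d i).map (MulAut.conj z).toMonoidHom = U3 z B d (i + 1) := by
  unfold U3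
  rw [Subgroup.map_sup, h.mapU2, map_zp, show i + 2 + 1 = i + 1 + 2 by ring]

theorem Stg.mapU4 [Finite G] (h : Stg S z A B d) (i : ℤ) :
    (U4 z B d i).map (MulAut.conj z).toMonoidHom = U4 z B d (i + 1) := by
  unfold U4
  rw [Subgroup.map_sup, h.mapU3, map_zp, show i + 3 + 1 = i + 1 + 3 by ring]

theorem mem_conj_iff {X : Subgroup G} {z d : G} {i : ℤ} :
    cv z d (i + 1) ∈ X.map (MulAut.conj z).toMonoidHom ↔ cv z d i ∈ X := by
  constructor
  · rintro ⟨x, hx, hx'⟩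
    have h1 : MulAut.conj z x = MulAut.conj z (cv z d i) := by
      rw [conj_cv]; exact hx'
    rw [(MulAut.conj z).injective h1] at hx
    exact hx
  · intro hx
    exact ⟨_, hx, conj_cv z d i⟩

theorem Stg.notB [Finite G] (h : Stg S z A B d) (h0 : cv z d 0 ∉ B) :
    cv z d 1 ∉ B ∧ cv z d 2 ∉ B := by
  have h1 : cv z d (0 + 1) ∉ B := by
    rw [← h.mapB, mem_conj_iff]; exact h0
  have h2 : cv z d (0 + 1 + 1) ∉ B := by
    rw [← h.mapB, mem_conj_iff]; exact h1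
  exact ⟨by simpa using h1, by simpa using h2⟩

theorem Stg.notU1 [Finite G] (h : Stg S z A B d) (h1 : cv z d 1 ∉ U1 z B d 0) :
    cv z d 2 ∉ U1 z B d 1 ∧ cv z d 1 ∉ U1 z B d 2 := by
  have h2 : cv z d (1 + 1) ∉ U1 z B d (0 + 1) := by
    rw [← h.mapU1, mem_conj_iff]; exact h1
  rw [show (1 : ℤ) + 1 = 2 by norm_num, show (0 : ℤ) + 1 = 1 by norm_num] at h2
  refine ⟨h2, fun h3 => ?_⟩
  have h4 : U1 z B d 1 ≤ (U1 z B d 1).map (MulAut.conj z).toMonoidHom := by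
    rw [h.mapU1, show (1 : ℤ) + 1 = 2 by norm_num]
    exact sup_le (h.U1le 2).1 (by rw [Subgroup.zpowers_le]; exact h3)
  have h5 := map_eq_of_ge h4
  rw [h.mapU1, show (1 : ℤ) + 1 = 2 by norm_num] at h5
  apply h2
  rw [h5]
  exact Subgroup.mem_sup_right (Subgroup.mem_zpowers _)

theorem Stg.notU2 [Finite G] (h : Stg S z A B d) (h2 : cv z d 2 ∉ U2 z B d 0) :
    cv z d 0 ∉ U2 z B d 1 := by
  intro h3
  have hm1 : cv z d 1 ∈ U2 z B d 1 :=
    Subgroup.mem_sup_left (Subgroup.mem_sup_right (Subgroup.mem_zpowers _))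
  have hm2 : cv z d 2 ∈ U2 z B d 1 := Subgroup.mem_sup_right (Subgroup.mem_zpowers _)
  have h4 : U2 z B d 0 ≤ (U2 z B d 0).map (MulAut.conj z).toMonoidHom := by
    rw [h.mapU2, show (0 : ℤ) + 1 = 1 by norm_num]
    refine sup_le (sup_le (h.U2le 1).1 ?_) ?_
    · rw [Subgroup.zpowers_le]; exact h3
    · rw [Subgroup.zpowers_le, show (0 : ℤ) + 1 = 1 by norm_num]; exact hm1
  have h5 := map_eq_of_ge h4
  rw [h.mapU2, show (0 : ℤ) + 1 = 1 by norm_num] at h5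
  apply h2
  rw [h5]
  exact hm2

theorem inv_of_map {X : Subgroup G} {z : G} (h : X.map (MulAut.conj z).toMonoidHom = X) :
    ∀ j : ℤ, ∀ b ∈ X, z ^ j * b * z ^ (-j) ∈ X := by
  have h1 : ∀ b, b ∈ X ↔ z * b * z⁻¹ ∈ X := by
    intro b
    constructor
    · intro hb
      rw [← h]
      exact ⟨b, hb, rfl⟩
    · intro hb
      rw [← h] at hb
      obtain ⟨c, hc, hc'⟩ := hb
      have : c = b := (MulAut.conj z).injective hc'
      rwa [← this]
  have key : ∀ j : ℤ, ∀ b, b ∈ X ↔ z ^ j * b * z ^ (-j) ∈ X := by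
    intro j
    induction j using Int.induction_on with
    | zero => intro b; simp
    | succ i ih =>
      intro b
      rw [ih b, h1]
      have e : z * (z ^ (i : ℤ) * b * z ^ (-(i : ℤ))) * z⁻¹ =
          z ^ ((i : ℤ) + 1) * b * z ^ (-((i : ℤ) + 1)) := by
        rw [neg_add, zpow_add, zpow_add, zpow_one, zpow_neg, zpow_neg, zpow_one]
        have : z * z ^ (i : ℤ) = z ^ (i : ℤ) * z := (Commute.self_zpow z i).eq
        calc z * (z ^ (i : ℤ) * b * (z ^ (i : ℤ))⁻¹) * z⁻¹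
            = (z * z ^ (i : ℤ)) * b * ((z ^ (i : ℤ))⁻¹ * z⁻¹) := by group
          _ = z ^ (i : ℤ) * z * b * ((z ^ (i : ℤ))⁻¹ * z⁻¹) := by rw [this]
      rw [e]
    | pred i ih =>
      intro b
      rw [ih b, h1 (z ^ (-(i : ℤ) - 1) * b * z ^ (-(-(i : ℤ) - 1)))]
      have e : z * (z ^ (-(i : ℤ) - 1) * b * z ^ (-(-(i : ℤ) - 1))) * z⁻¹ =
          z ^ (-(i : ℤ)) * b * z ^ (-(-(i : ℤ))) := by
        have e1 : z * z ^ (-(i : ℤ) - 1) = z ^ (-(i : ℤ)) := by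
          rw [← zpow_one_add]
          congr 1
          ring
        have e2 : z ^ (-(-(i : ℤ) - 1)) * z⁻¹ = z ^ (-(-(i : ℤ))) := by
          rw [← zpow_neg_one, ← zpow_add]
          congr 1
          ring
        calc z * (z ^ (-(i : ℤ) - 1) * b * z ^ (-(-(i : ℤ) - 1))) * z⁻¹
            = (z * z ^ (-(i : ℤ) - 1)) * b * (z ^ (-(-(i : ℤ) - 1)) * z⁻¹) := by group
          _ = z ^ (-(i : ℤ)) * b * z ^ (-(-(i : ℤ))) := by rw [e1, e2]
      rw [e]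
  exact fun j b hb => (key j b).1 hb

/-- one stage -/
theorem Stg.stage [Finite G] (h : Stg S z A B d) (hdeg : cv z d 4 ∈ U4 z B d 0) :
    ∃ B' : Subgroup G, B ≤ B' ∧ d ∈ B' ∧ B' ≤ A ∧ (∀ j : ℤ, ∀ b ∈ B', z ^ j * b * z ^ (-j) ∈ B') ∧
      ∀ s : ℤ, PP S z B' (s + 1) s := by
  have hc0 : cv z d 0 = d := by unfold cv; simp
  -- it is enough to have one path
  have fin : ∀ B' : Subgroup G, B ≤ B' → d ∈ B' → B' ≤ A →
      B'.map (MulAut.conj z).toMonoidHom ≤ B' → (∃ s : ℤ, PP S z B' (s + 1) s) →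
      ∃ B' : Subgroup G, B ≤ B' ∧ d ∈ B' ∧ B' ≤ A ∧
        (∀ j : ℤ, ∀ b ∈ B', z ^ j * b * z ^ (-j) ∈ B') ∧ ∀ s : ℤ, PP S z B' (s + 1) s := by
    rintro B' h1 h2 h3 h4 ⟨s, h5⟩
    have h6 := inv_of_map (map_eq_of_le h4)
    refine ⟨B', h1, h2, h3, h6, fun t => ?_⟩
    have h7 := h5.shift h6 (t - s)
    rwa [show s + 1 + (t - s) = t + 1 by ring, show s + (t - s) = t by ring] at h7
  by_cases k0 : cv z d 0 ∈ B
  · rw [hc0] at k0
    exact fin B le_rfl k0 h.hBA h.mapB.le ⟨0, h.hP 0⟩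
  have dU1 : d ∈ U1 z B d 0 := by
    have : cv z d 0 ∈ U1 z B d 0 := Subgroup.mem_sup_right (Subgroup.mem_zpowers _)
    rwa [hc0] at this
  by_cases k1 : cv z d 1 ∈ U1 z B d 0
  · refine fin (U1 z B d 0) (h.U1le 0).1 dU1 (h.U1le 0).2 ?_ ⟨0, ?_⟩
    · rw [h.mapU1, show (0 : ℤ) + 1 = 1 by norm_num]
      exact sup_le (h.U1le 0).1 (by rw [Subgroup.zpowers_le]; exact k1)
    · exact h.P1 k0 (Or.inr rfl) (Or.inl rfl)
  obtain ⟨n1, n2⟩ := h.notB k0
  obtain ⟨m1, m2⟩ := h.notU1 k1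
  have dU2 : d ∈ U2 z B d 0 := Subgroup.mem_sup_left dU1
  by_cases k2 : cv z d 2 ∈ U2 z B d 0
  · refine fin (U2 z B d 0) (h.U2le 0).1 dU2 (h.U2le 0).2 ?_ ⟨0, ?_⟩
    · rw [h.mapU2, show (0 : ℤ) + 1 = 1 by norm_num]
      refine sup_le (sup_le (h.U2le 0).1 ?_) ?_
      · rw [Subgroup.zpowers_le]
        exact Subgroup.mem_sup_right (Subgroup.mem_zpowers _)
      · rw [Subgroup.zpowers_le, show (1 : ℤ) + 1 = 2 by norm_num]
        exact k2
    · refine (h.P2r k0 ?_ (Or.inl rfl) (Or.inr rfl)).rev h.hS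
      rw [show (0 : ℤ) + 1 = 1 by norm_num]; exact k1
  have l0 := h.notU2 k2
  have dU3 : d ∈ U3 z B d 0 := Subgroup.mem_sup_left dU2
  have hp3 : ∀ s e : ℤ, (s = 0 + 1 ∨ s = 0 + 3) → (e = 0 ∨ e = 0 + 2 ∨ e = 0 + 4) →
      PP S z (U3 z B d 0) s e := fun s e hs he =>
    h.P3 (i := 0) (by simpa using n1) (by simpa using n2) (by simpa using m1)
      (by simpa using m2) (by simpa using l0) hs he
  by_cases k3 : cv z d 3 ∈ U3 z B d 0
  · refine fin (U3 z B d 0) (h.U3le 0).1 dU3 (h.U3le 0).2 ?_ ⟨0, ?_⟩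
    · rw [h.mapU3, show (0 : ℤ) + 1 = 1 by norm_num]
      refine sup_le (sup_le (sup_le (h.U3le 0).1 ?_) ?_) ?_
      · rw [Subgroup.zpowers_le]
        exact Subgroup.mem_sup_left (Subgroup.mem_sup_right (Subgroup.mem_zpowers _))
      · rw [Subgroup.zpowers_le, show (1 : ℤ) + 1 = 2 by norm_num]
        exact Subgroup.mem_sup_right (Subgroup.mem_zpowers _)
      · rw [Subgroup.zpowers_le, show (1 : ℤ) + 2 = 3 by norm_num]
        exact k3
    · exact hp3 _ _ (Or.inl rfl) (Or.inl rfl)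
  have dU4 : d ∈ U4 z B d 0 := Subgroup.mem_sup_left dU3
  refine fin (U4 z B d 0) (h.U4le 0).1 dU4 (h.U4le 0).2 ?_ ⟨3, ?_⟩
  · rw [h.mapU4, show (0 : ℤ) + 1 = 1 by norm_num]
    refine sup_le (sup_le (sup_le (sup_le (h.U4le 0).1 ?_) ?_) ?_) ?_
    · rw [Subgroup.zpowers_le]
      exact Subgroup.mem_sup_left (Subgroup.mem_sup_left
        (Subgroup.mem_sup_right (Subgroup.mem_zpowers _)))
    · rw [Subgroup.zpowers_le, show (1 : ℤ) + 1 = 2 by norm_num]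
      exact Subgroup.mem_sup_left (Subgroup.mem_sup_right (Subgroup.mem_zpowers _))
    · rw [Subgroup.zpowers_le, show (1 : ℤ) + 2 = 3 by norm_num]
      exact Subgroup.mem_sup_right (Subgroup.mem_zpowers _)
    · rw [Subgroup.zpowers_le, show (1 : ℤ) + 3 = 4 by norm_num]
      exact hdeg
  · have := h.P4 (i := 0) (by simpa using n1) (by simpa using n2) (by simpa using m1)
      (by simpa using m2) (by simpa using l0) (by simpa using k3)
    simpa using this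

end

end Pool.Agent.N47.CG
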